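import Pool.Agent.QC.BrSt

/-!
The standing hypotheses `Hyp` for the elements outside `G0 = Ω.closure A0`.

Proof. `nonempty`, `ne`: the rank of `G0` is `eRank - 2`, and for `x ∉ G0` the rank of `clsB x` is
`eRank - 1` (`Cov`), so `G0 ≠ univ` and there is `y ∉ clsB x ⊇ G0` (ranks are finite; `Ω.eRk univ = eRank`
as `Ω.E = univ`); use `clsB_eq`. `sur`: a flat `P` covering `G0` has an element outside `G0` (otherwise `P = G0`
has the wrong rank), `clsB_eq`. `st`: `→` is `isSt_of_cls`; `←`: `exists_state`, `state_of_isSt`, `hc.base` and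
`base_of_cls` (`x ≠ y` is the first part of `IsSt`).
-/

set_option autoImplicit false

namespace Pool.Agent.QC

open Set Pool.Agent.W3

variable {E : Type*} [Fintype E] [DecidableEq E] {N Ω : Matroid E} {q : ℕ} {k T : Type*}
  [Field k] [AddCommGroup T] [Module k T] {v : E → T}

theorem hypB (hc : Compl N Ω q) (hv : IsRep k N v) (hq : 2 ≤ q) {A0 : Set E}
    (hA : Ω.Indep A0) (hcard : A0.encard + 2 = Ω.eRank) :
    Hyp k (vv k v (Ω.closure A0)) (clsB hc.ground (Ω.isFlat_closure A0)) q := by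
  have hfin : A0.encard ≠ ⊤ := Set.encard_ne_top_iff.2 (Set.toFinite A0)
  have hrk : Ω.eRk (Ω.closure A0) = A0.encard := by
    rw [Matroid.eRk_closure_eq, hA.eRk_eq_encard]
  have huniv : Ω.eRk (univ : Set E) = A0.encard + 2 := by
    rw [← hc.ground, Matroid.eRk_ground, hcard]
  have hsub : ∀ P : nn Ω (Ω.closure A0), Ω.closure A0 ⊆ P.1 := fun P => P.2.2.2.1
  have hPrk : ∀ P : nn Ω (Ω.closure A0), Ω.eRk P.1 = A0.encard + 1 := fun P => by
    rw [P.2.2.2.2, hrk]
  have h02 : A0.encard ≠ A0.encard + 2 := by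
    lift A0.encard to ℕ using hfin with m
    norm_cast
    omega
  have h12 : A0.encard + 1 ≠ A0.encard + 2 := by
    lift A0.encard to ℕ using hfin with m
    norm_cast
    omega
  have h01 : A0.encard ≠ A0.encard + 1 := by
    lift A0.encard to ℕ using hfin with m
    norm_cast
    omega
  refine ⟨?_, ?_, ?_, ?_⟩
  · by_contra hcon
    rw [not_nonempty_iff] at hcon
    apply h02
    rw [← huniv, ← hrk]
    congr 1
    rw [Set.eq_univ_iff_forall]
    intro z
    by_contra hz
    exact hcon.false ⟨z, hz⟩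
  · intro P
    have h1 : ∃ z ∈ P.1, z ∉ Ω.closure A0 := by
      by_contra hcon
      push Not at hcon
      apply h01
      rw [← hPrk P, ← hrk]
      congr 1
      exact Set.Subset.antisymm (hsub P) hcon
    obtain ⟨z, hz, hz'⟩ := h1
    exact ⟨⟨z, hz'⟩, (clsB_eq hc.ground (Ω.isFlat_closure A0) ⟨z, hz'⟩ P).2 hz⟩
  · intro x y
    constructor
    · intro h
      exact isSt_of_cls hc hv hq hA hcard x y h
    · rintro ⟨β, hβ⟩
      obtain ⟨s, hs⟩ := exists_state hc hA
      rw [base_of_cls hc hA hcard]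
      exact ⟨hβ.1, (hc.base _).2 ⟨_, state_of_isSt hc hv hA s hs x y β hβ⟩⟩
  · intro x
    have h1 : ∃ y, y ∉ (clsB hc.ground (Ω.isFlat_closure A0) x).1 := by
      by_contra hcon
      push Not at hcon
      apply h12
      rw [← hPrk (clsB hc.ground (Ω.isFlat_closure A0) x), ← huniv]
      congr 1
      exact Set.eq_univ_iff_forall.2 hcon
    obtain ⟨y, hy⟩ := h1
    have hy' : y ∉ Ω.closure A0 := fun h => hy (hsub _ h)
    refine ⟨⟨y, hy'⟩, fun h => hy ?_⟩
    exact (clsB_eq hc.ground (Ω.isFlat_closure A0) ⟨y, hy'⟩ _).1 h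

end Pool.Agent.QC
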