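import Pool.Agent.QC.RedC

/-!
The restrictions of the rows of the elements of the kernels span.

Proof. For `z` with `cls z = P` let `w z : Fin q → k`, `w z j0 = 0` and `w z j = T z j * ρ z / T z j0` for
`j ≠ j0`. By `exists_good_line` there is `r z ≠ 0` with `Tz := T + r z • Pi.single z (w z)` good. Let `σ z` be in the
kernel of `psi v Tz` with `σ z z = - (r z)⁻¹` (`good_exists`, `hy.ne`). As
`psi v Tz σ j = psi v T σ j + (r z * w z j * σ z) • v z`: `psi v T (σ z) j = w z j • v z`. The row `j0` of `Tz` is that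
of `T` (`w z j0 = 0`), so `res cls P (row T j0 (σ z)) ∈ U` by `hU`.
Let `σ1 x := if cls x = P then ρ x / T x j0 else 0` and `σ2 := σ1 - ∑ z with cls z = P, σ z`. Then
`psi v T σ1 j = ∑_{z ∈ P} w z j • v z` for `j ≠ j0`, so `psi v T σ2 j = 0` for `j ≠ j0`, and
`psi v T σ2 j0 = psi v T σ1 j0 = vs v (res cls P ρ) ∈ VP`. So
`psi v T (res cls P σ2) j = psi v T σ2 j - psi v T (σ2 - res cls P σ2) j ∈ VP` for all `j` and `ext_class` gives `σ3` in the
kernel of `psi v T` with `res cls P σ3 = res cls P σ2`. So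
`res cls P (row T j0 σ2) = res cls P (row T j0 σ3) ∈ U` (`res_row`), and
`res cls P ρ = res cls P (row T j0 σ1) = res cls P (row T j0 σ2) + ∑ z, res cls P (row T j0 (σ z)) ∈ U`.
-/

set_option autoImplicit false

namespace Pool.Agent.QC

variable {k V S n : Type*} [Field k] [AddCommGroup V] [Module k V] [Fintype S]
  [DecidableEq S] [DecidableEq n] {q : ℕ}

theorem span_P [Infinite k] {v : S → V} {cls : S → n} (hy : Hyp k v cls q) (j0 : Fin q)
    {T : S → Fin q → k} (hG : Good v cls T) (P : n) (U : Submodule k (S → k))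
    (hU : ∀ T1 : S → Fin q → k, Good v cls T1 → ∀ σ, psi v T1 σ = 0 →
      res cls P (row T1 j0 σ) ∈ U)
    (ρ : S → k) (hρ : vs v (res cls P ρ) ∈ VP k v cls P) : res cls P ρ ∈ U := by
  have hT := hG.1
  have key : ∀ z : S, ∃ σ : S → k,
      (∀ j, psi v T σ j = (if j = j0 then 0 else T z j * ρ z / T z j0) • v z) ∧
      res cls P (row T j0 σ) ∈ U := by
    intro z
    obtain ⟨w, hw⟩ : ∃ w : Fin q → k, ∀ j, w j = if j = j0 then 0 else T z j * ρ z / T z j0 :=
      ⟨_, fun j => rfl⟩
    obtain ⟨T', hT1, hT2⟩ : ∃ T' : S → Fin q → k, T' z = w ∧ ∀ x, x ≠ z → T' x = 0 :=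
      ⟨fun x => if x = z then w else 0, if_pos rfl, fun x hx => if_neg hx⟩
    obtain ⟨r, hr, hGz⟩ := exists_good_line hG T'
    obtain ⟨y, hyy⟩ := hy.ne z
    obtain ⟨σ, hσ, hσz, -⟩ := good_exists hy hGz (x := z) (y := y) (fun h => hyy h.symm)
      (-r⁻¹) 0
    refine ⟨σ, ?_, ?_⟩
    · intro j
      have h1 := congrFun hσ j
      rw [psi_eq_sum] at h1
      have h2 : ∀ x, ((T + r • T') x j * σ x) • v x =
          (T x j * σ x) • v x + (if x = z then (-(w j)) • v z else 0) := by
        intro x
        by_cases hx : x = z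
        · subst hx
          rw [if_pos rfl]
          simp only [Pi.add_apply, Pi.smul_apply, hT1, smul_eq_mul, hσz]
          rw [← add_smul]
          congr 1
          field_simp
          ring
        · rw [if_neg hx]
          simp only [Pi.add_apply, Pi.smul_apply, hT2 x hx, Pi.zero_apply,
            smul_zero, add_zero]
      simp only [h2, Finset.sum_add_distrib, Finset.sum_ite_eq', Finset.mem_univ, if_true,
        Pi.zero_apply] at h1
      rw [psi_eq_sum, ← hw j]
      rw [neg_smul] at h1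
      exact eq_of_sub_eq_zero (by rw [sub_eq_add_neg]; exact h1)
    · have h3 : row T j0 σ = row (T + r • T') j0 σ := by
        funext x
        simp only [row_apply, Pi.add_apply, Pi.smul_apply]
        by_cases hx : x = z
        · subst hx
          have h4 : w j0 = 0 := by rw [hw, if_pos rfl]
          simp [hT1, h4]
        · simp [hT2 x hx]
      rw [h3]
      exact hU _ hGz σ hσ
  choose σ hσ1 hσ2 using key
  obtain ⟨σ1, hs1⟩ : ∃ σ1 : S → k, ∀ x, σ1 x = if cls x = P then ρ x / T x j0 else 0 :=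
    ⟨_, fun x => rfl⟩
  obtain ⟨σ2, hs2⟩ : ∃ σ2 : S → k,
    σ2 = σ1 - ∑ z ∈ Finset.univ.filter (fun z => cls z = P), σ z := ⟨_, rfl⟩
  have e1 : ∀ j, psi v T σ1 j = ∑ z ∈ Finset.univ.filter (fun z => cls z = P),
      (T z j * ρ z / T z j0) • v z := by
    intro j
    rw [psi_eq_sum, Finset.sum_filter]
    refine Finset.sum_congr rfl fun z _ => ?_
    rw [hs1]
    split_ifs
    · rw [mul_div_assoc]
    · rw [mul_zero, zero_smul]
  have e2 : ∀ j, psi v T σ2 j = if j = j0 then vs v (res cls P ρ) else 0 := by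
    intro j
    rw [hs2, map_sub, map_sum, Pi.sub_apply, Finset.sum_apply, e1]
    simp only [hσ1]
    split_ifs with hj
    · subst hj
      simp only [zero_smul, Finset.sum_const_zero, sub_zero]
      rw [vs_apply, Finset.sum_filter]
      refine Finset.sum_congr rfl fun z _ => ?_
      rw [res_apply]
      split_ifs
      · rw [mul_div_cancel_left₀ _ (hT z j)]
      · rw [zero_smul]
    · exact sub_self _
  have e3 : ∀ j, psi v T (res cls P σ2) j ∈ VP k v cls P := by
    intro j
    have h1 : psi v T (res cls P σ2) j = psi v T σ2 j - psi v T (σ2 - res cls P σ2) j := by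
      rw [map_sub, Pi.sub_apply]; abel
    rw [h1]
    refine sub_mem ?_ ?_
    · rw [e2]
      split_ifs
      · exact hρ
      · exact zero_mem _
    · rw [psi_eq_sum]
      refine Submodule.sum_mem _ fun z _ => ?_
      by_cases hz : cls z = P
      · rw [Pi.sub_apply, res_apply, if_pos hz, sub_self, mul_zero, zero_smul]
        exact zero_mem _
      · exact Submodule.smul_mem _ _ (Submodule.subset_span ⟨z, hz, rfl⟩)
  obtain ⟨σ3, hσ3, hσ3'⟩ := ext_class hy j0 hG P σ2 e3
  have e4 : res cls P (row T j0 σ2) ∈ U := by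
    have h1 := hU T hG σ3 hσ3
    rwa [res_row, hσ3', ← res_row] at h1
  have e5 : res cls P ρ = res cls P (row T j0 σ2) +
      ∑ z ∈ Finset.univ.filter (fun z => cls z = P), res cls P (row T j0 (σ z)) := by
    have h1 : res cls P ρ = res cls P (row T j0 σ1) := by
      funext x
      rw [res_apply, res_apply, row_apply, hs1]
      split_ifs
      · rw [mul_div_cancel₀ _ (hT x j0)]
      · rfl
    have h2 : σ1 = σ2 + ∑ z ∈ Finset.univ.filter (fun z => cls z = P), σ z := by
      rw [hs2, sub_add_cancel]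
    rw [h1]
    conv_lhs => rw [h2]
    rw [map_add, map_add, map_sum, map_sum]
  rw [e5]
  exact add_mem e4 (Submodule.sum_mem _ fun z _ => hσ2 z)

end Pool.Agent.QC
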