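import Pool.Agent.QC.FinalQ
import Pool.Agent.QC.SpanP

/-!
The local lemma in characteristic two.
-/

set_option autoImplicit false

namespace Pool.Agent.QC

variable {k V S n : Type*} [Field k] [AddCommGroup V] [Module k V] [Fintype S]
  [DecidableEq S] [DecidableEq n] [Fintype n] {q : ℕ}

/-- The vectors with image in `II` on which the quadratic form vanishes. -/
def QZ [CharP k 2] {v : S → V} {cls : S → n} {Φ : (S → k) →ₗ[k] (S → k) →ₗ[k] k}
    (hΦ : HPhi v cls Φ) : Submodule k (S → k) where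
  carrier := {ξ | vs v ξ ∈ II k v cls ∧ Φ ξ ξ = 0}
  add_mem' := by
    rintro a b ⟨ha, ha'⟩ ⟨hb, hb'⟩
    refine ⟨by rw [map_add]; exact add_mem ha hb, ?_⟩
    rw [quad_add hΦ a b hb, ha', hb', add_zero]
  zero_mem' := by
    refine ⟨by rw [map_zero]; exact zero_mem _, by simp⟩
  smul_mem' := by
    rintro c a ⟨ha, ha'⟩
    refine ⟨by rw [map_smul]; exact Submodule.smul_mem _ _ ha, ?_⟩
    simp [ha']

theorem main [Infinite k] [CharP k 2] {v : S → V} {cls : S → n} (hy : Hyp k v cls q)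
    {Φ δ : (S → k) →ₗ[k] (S → k) →ₗ[k] k} (hΦ : HPhi v cls Φ) {j0 j1 : Fin q}
    (h01 : j0 ≠ j1) (hc : HCls v Φ δ j0) (P : n) (l : S → k) (hl : vs v l = 0) :
    Φ (res cls P l) (res cls P l) = 0 := by
  obtain ⟨T, hT⟩ := exists_good hy
  have h1 : vs v (res cls P l) ∈ VP k v cls P := by
    have e : vs v (res cls P l) = - vs v (l - res cls P l) := by
      rw [map_sub, hl, zero_sub, neg_neg]
    rw [e]
    refine Submodule.neg_mem _ ?_
    rw [vs_apply]
    refine Submodule.sum_mem _ fun z _ => ?_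
    by_cases hz : cls z = P
    · have : (l - res cls P l) z = 0 := by simp [hz]
      rw [this, zero_smul]
      exact zero_mem _
    · exact Submodule.smul_mem _ _ (Submodule.subset_span ⟨z, hz, rfl⟩)
  have h2 : res cls P l ∈ QZ hΦ := by
    refine span_P hy j0 hT P (QZ hΦ) ?_ l h1
    intro T1 hT1 σ hσ
    refine ⟨?_, final_q hy hΦ h01 hc hT1 hσ P⟩
    rw [res_row, ← psi_apply]
    exact res_mem hσ P j0
  exact h2.2

end Pool.Agent.QC
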