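import Pool.Agent.QC.BrPhi
import Pool.Agent.QC.BrHyp
import Pool.Agent.QC.Main
import Pool.Agent.Q2.Core2

/-!
The local lemma in characteristic two for the function `gf` on the ordered bases of `Ω`.
-/

set_option autoImplicit false

namespace Pool.Agent.QC

open Set Pool.Agent.W3

section Sum

variable {k S : Type*} [Field k] [Fintype S] [DecidableEq S]

theorem br_bil_sum (Φ : (S → k) →ₗ[k] (S → k) →ₗ[k] k) (ξ η : S → k) :
    Φ ξ η = ∑ x, ∑ y, ξ x * η y * Φ (Pi.single x 1) (Pi.single y 1) := by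
  have e : ∀ ξ : S → k, ξ = ∑ x, ξ x • (Pi.single x (1 : k) : S → k) := by
    intro ξ
    funext z
    simp [Finset.sum_apply, Pi.single_apply]
  have h1 : Φ ξ η = ∑ x, ξ x * Φ (Pi.single x 1) η := by
    conv_lhs => rw [e ξ]
    rw [map_sum, LinearMap.sum_apply]
    refine Finset.sum_congr rfl fun x _ => ?_
    rw [map_smul, LinearMap.smul_apply, smul_eq_mul]
  have h2 : ∀ x, Φ (Pi.single x 1) η = ∑ y, η y * Φ (Pi.single x 1) (Pi.single y 1) := by
    intro x
    conv_lhs => rw [e η]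
    rw [map_sum]
    refine Finset.sum_congr rfl fun y _ => ?_
    rw [map_smul, smul_eq_mul]
  rw [h1]
  refine Finset.sum_congr rfl fun x _ => ?_
  rw [h2, Finset.mul_sum]
  refine Finset.sum_congr rfl fun y _ => ?_
  rw [mul_assoc]

end Sum

variable {E : Type*} [Fintype E] [DecidableEq E] {N Ω : Matroid E} {q : ℕ} {k T : Type*}
  [Field k] [AddCommGroup T] [Module k T] {v : E → T} {ι : Type*} [Fintype ι] [DecidableEq ι]

open Classical in
/-- The local lemma: in characteristic two, for a relation `L` vanishing on the flat `G0` spanned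
by the independent elements `a s`, `s ≠ s1, s2`, and a flat `P` covering `G0`, the sum over the
`x ∈ P`, `y ∉ P` of `L x * L y * gf (.., x, .., y, ..)` is zero. -/
theorem bridge [CharP k 2] [Infinite k] (hc : Compl N Ω q) (hv : IsRep k N v) (hq : 2 ≤ q)
    (hrk : Ω.eRank = Fintype.card ι) (b : Module.Basis ι k T) {P0 : Fin (q + 1) → Set E}
    (h0 : Pool.Agent.WD.IsPartn N univ P0) {s1 s2 : ι} (h12 : s1 ≠ s2) (a : ι → E)
    (ha : InjOn a {s1, s2}ᶜ) (hA : Ω.Indep (a '' {s1, s2}ᶜ)) (P : Set E)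
    (hP : Cov Ω (Ω.closure (a '' {s1, s2}ᶜ)) P) (L : E → k)
    (hL : L ∈ Rel k v ⊓ van k (Ω.closure (a '' {s1, s2}ᶜ))) :
    ∑ x, ∑ y, (if x ∈ P ∧ y ∉ P then L x * L y *
      gf N Ω P0 v b (Function.update (Function.update a s1 x) s2 y) else 0) = 0 := by
  set G0 : Set E := Ω.closure (a '' {s1, s2}ᶜ) with hG0
  -- the size of the independent set
  have hcard : (a '' {s1, s2}ᶜ).encard + 2 = Ω.eRank := by
    rw [ha.encard_image, hrk]
    have h1 := Set.encard_add_encard_compl ({s1, s2} : Set ι)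
    rw [Set.encard_pair h12, Set.encard_univ, ENat.card_eq_coe_fintype_card] at h1
    rw [add_comm]
    exact h1
  have hTop : TopVan Ω (Rel k v) ι := Pool.Agent.Q2.topVan2 hc hv hq
  obtain ⟨G, hG, hGg⟩ := lifting hc.ground hrk hTop (gf N Ω P0 v b)
    (fun a ha => by
      unfold gf at ha
      by_contra h
      rw [if_neg h] at ha
      exact ha rfl)
    (fun s a ha hA L hL => gf_LL hc hv (by omega) hrk _ h0 s a ha hA L hL)
  obtain ⟨Φ, hΦ⟩ := exists_PhiB G a h12 G0
  obtain ⟨δ, hδ1, hδ2, hδ⟩ := exists_delB b v a h12 G0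
  have hyp := hypB hc hv hq hA hcard
  have hH := hphiB hc hrk b hG hGg h12 a ha hA hΦ
  have hj : (⟨0, by omega⟩ : Fin q) ≠ ⟨1, by omega⟩ := by
    intro h
    have := congrArg Fin.val h
    simp at this
  have hC := hclsB hc hv hq hrk b h0 hGg h12 a ha hA hΦ hδ1 hδ2 hδ (⟨0, by omega⟩ : Fin q)
  set l : SS G0 → k := fun z => L z.1 with hl
  have hext : ext0 G0 l = L := by
    funext e
    by_cases he : e ∈ G0
    · rw [ext0_of_mem _ he, hL.2 e he]
    · rw [ext0_of_notMem _ he]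
  have hl0 : vs (vv k v G0) l = 0 := by
    apply Subtype.ext
    rw [← ext0_rel, hext]
    exact (mem_rel L).1 hL.1
  have hmain := main hyp hH hj hC (⟨P, hP⟩ : nn Ω G0) l hl0
  have h1 : Φ (res (clsB hc.ground (Ω.isFlat_closure _)) (⟨P, hP⟩ : nn Ω G0) l)
      (l - res (clsB hc.ground (Ω.isFlat_closure _)) (⟨P, hP⟩ : nn Ω G0) l) = 0 := by
    rw [map_sub, hmain, hH.right _ _ hl0, sub_zero]
  rw [br_bil_sum] at h1
  -- the two sums agree
  have h2 : ∀ F : E → k, (∀ e ∈ G0, F e = 0) → ∑ e, F e = ∑ z : SS G0, F z.1 := by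
    intro F hF
    have e1 : ∑ z : SS G0, F z.1 = ∑ e ∈ Finset.univ.filter (fun e => e ∉ G0), F e := by
      rw [Finset.sum_subtype (Finset.univ.filter (fun e => e ∉ G0))
        (fun e => by simp : ∀ e, e ∈ Finset.univ.filter (fun e => e ∉ G0) ↔ e ∉ G0) F]
    rw [e1, Finset.sum_filter]
    refine Finset.sum_congr rfl fun e _ => ?_
    by_cases he : e ∈ G0
    · rw [if_neg (not_not.2 he), hF e he]
    · rw [if_pos he]
  rw [h2 _ (fun e he => by
    refine Finset.sum_eq_zero fun y _ => ?_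
    split_ifs
    · rw [hL.2 e he, zero_mul, zero_mul]
    · rfl)]
  refine Eq.trans ?_ h1
  refine Finset.sum_congr rfl fun x _ => ?_
  rw [h2 _ (fun e he => by
    split_ifs with h
    · exact absurd (hP.2.2.1 he) h.2
    · rfl)]
  refine Finset.sum_congr rfl fun y _ => ?_
  have hx : ∀ z : SS G0, clsB hc.ground (Ω.isFlat_closure _) z = (⟨P, hP⟩ : nn Ω G0) ↔
      z.1 ∈ P := fun z => clsB_eq hc.ground (Ω.isFlat_closure _) z ⟨P, hP⟩
  simp only [res_apply, Pi.sub_apply, hx]
  by_cases hxP : x.1 ∈ P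
  · by_cases hyP : y.1 ∈ P
    · simp [hxP, hyP]
    · have hne : clsB hc.ground (Ω.isFlat_closure _) x ≠
          clsB hc.ground (Ω.isFlat_closure _) y := by
        intro h
        rw [(hx x).2 hxP] at h
        exact hyP ((hx y).1 h.symm)
      rw [gf_pair hc hrk b hGg h12 a ha hA hΦ x y hne]
      simp [hxP, hyP, hl]
  · simp [hxP]

end Pool.Agent.QC
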