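import Pool.Agent.QC.Defs
import Pool.Agent.W3.Mix
import Pool.Agent.W3.RepL

/-!
The classes of the elements outside a flat `G0` of `Ω`: the flats covering `G0`.

Proofs.
* `cov_cl`: `Ω.closure (insert z G0)` is a flat, it contains `G0`, and its rank is `eRk G0 + 1`
  (`Matroid.eRk_insert_eq_add_one`-like lemma: `z ∉ Ω.closure G0 = G0`).
* `clsB_eq`: two flats `Ω.closure (insert z G0)`, `P` cover `G0` and `z ∈ P`; the first is contained in
  the second and they have the same finite rank (`Matroid.IsFlat.eq_of_subset_of_..`; or: an element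
  of `P` outside the first would give rank `eRk G0 + 2`).
-/

set_option autoImplicit false

namespace Pool.Agent.QC

open Set Pool.Agent.W3

variable {E : Type*} [Fintype E] [DecidableEq E] {N Ω : Matroid E} {q : ℕ} {k T : Type*}
  [Field k] [AddCommGroup T] [Module k T] {v : E → T}

/-- The elements outside `G0`. -/
abbrev SS {E : Type*} (G0 : Set E) : Type _ := {z : E // z ∉ G0}

noncomputable instance instFintypeSS (G0 : Set E) : Fintype (SS G0) := Fintype.ofFinite _

/-- The space spanned by the vectors outside `G0`. -/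
def VV (k : Type*) {E T : Type*} [Field k] [AddCommGroup T] [Module k T] (v : E → T)
    (G0 : Set E) : Submodule k T := Submodule.span k (v '' G0ᶜ)

/-- The vectors outside `G0`. -/
def vv (k : Type*) {E T : Type*} [Field k] [AddCommGroup T] [Module k T] (v : E → T)
    (G0 : Set E) (z : SS G0) : VV k v G0 := ⟨v z.1, Submodule.subset_span ⟨z.1, z.2, rfl⟩⟩

/-- The flats covering `G0`. -/
abbrev nn {E : Type*} (Ω : Matroid E) (G0 : Set E) : Type _ := {P : Set E // Cov Ω G0 P}

noncomputable instance instFintypenn (Ω : Matroid E) (G0 : Set E) : Fintype (nn Ω G0) :=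
  Fintype.ofFinite _

noncomputable instance instDecEqnn (Ω : Matroid E) (G0 : Set E) : DecidableEq (nn Ω G0) :=
  fun a b => Classical.propDecidable (a = b)

omit [DecidableEq E] in
theorem cov_cl (hΩ : Ω.E = univ) {G0 : Set E} (hF : Ω.IsFlat G0) {z : E} (hz : z ∉ G0) :
    Cov Ω G0 (Ω.closure (insert z G0)) := by
  refine ⟨hF, Ω.isFlat_closure _, ?_, ?_⟩
  · exact (Set.subset_insert z G0).trans (Ω.subset_closure _ (by rw [hΩ]; exact Set.subset_univ _))
  · rw [Matroid.eRk_closure_eq, Matroid.eRk_insert_eq_add_one]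
    rw [hF.closure, hΩ]
    exact ⟨Set.mem_univ z, hz⟩

/-- The class of an element. -/
noncomputable def clsB (hΩ : Ω.E = univ) {G0 : Set E} (hF : Ω.IsFlat G0) (z : SS G0) :
    nn Ω G0 := ⟨Ω.closure (insert z.1 G0), cov_cl hΩ hF z.2⟩

omit [DecidableEq E] in
theorem clsB_eq (hΩ : Ω.E = univ) {G0 : Set E} (hF : Ω.IsFlat G0) (z : SS G0) (P : nn Ω G0) :
    clsB hΩ hF z = P ↔ z.1 ∈ P.1 := by
  have hsub : ∀ X : Set E, X ⊆ Ω.E := fun X => by rw [hΩ]; exact Set.subset_univ X
  constructor
  · rintro rfl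
    exact Ω.subset_closure _ (hsub _) (Set.mem_insert _ _)
  · intro hz
    obtain ⟨-, hP2, hP3, hP4⟩ := P.2
    refine Subtype.ext ?_
    change Ω.closure (insert z.1 G0) = P.1
    have h1 : insert z.1 G0 ⊆ P.1 := Set.insert_subset hz hP3
    have hfin : Ω.IsRkFinite (insert z.1 G0) := Matroid.isRkFinite_of_finite _ (Set.toFinite _)
    have h2 : Ω.eRk (insert z.1 G0) = Ω.eRk G0 + 1 := by
      rw [Matroid.eRk_insert_eq_add_one]
      rw [hF.closure, hΩ]
      exact ⟨Set.mem_univ _, z.2⟩
    rw [hfin.closure_eq_closure_of_subset_of_eRk_ge_eRk h1 (by rw [hP4, h2]), hP2.closure]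

end Pool.Agent.QC
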