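import Pool.Agent.QC.BrDefs
import Pool.Agent.W3.LLDefs

/-!
The bilinear forms `PhiB`, `delB`.

Proofs.
* `ext0_rel`: `∑ e, ext0 G0 ξ e • v e = ∑ z : SS G0, ξ z • v z = ((vs (vv k v G0) ξ : VV k v G0) : T)`.
* `exists_PhiB`, `exists_delB`: `LinearMap.mk₂` with `MultilinearMap.map_update_add`,
  `MultilinearMap.map_update_smul` (for the first argument use `Function.update_comm`, `s1 ≠ s2`).
  Additional properties of `delB`: alternating (`AlternatingMap.map_eq_zero_of_eq`: two equal arguments in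
  the different slots `s1`, `s2`); it vanishes if the first vector is zero (`map_coord_zero`).
-/

set_option autoImplicit false

namespace Pool.Agent.QC

open Set Pool.Agent.W3

variable {E : Type*} [Fintype E] [DecidableEq E] {k T : Type*}
  [Field k] [AddCommGroup T] [Module k T] {v : E → T} {ι : Type*} [Fintype ι] [DecidableEq ι]

open Classical in
/-- Extension by zero. -/
noncomputable def ext0 (G0 : Set E) : (SS G0 → k) →ₗ[k] (E → k) where
  toFun ξ e := if h : e ∉ G0 then ξ ⟨e, h⟩ else 0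
  map_add' := by
    intro a b
    funext e
    simp only [Pi.add_apply]
    split_ifs <;> simp
  map_smul' := by
    intro c a
    funext e
    simp only [Pi.smul_apply, RingHom.id_apply]
    split_ifs <;> simp

omit [Fintype E] [DecidableEq E] in
theorem ext0_of_notMem {G0 : Set E} (ξ : SS G0 → k) {e : E} (h : e ∉ G0) :
    ext0 G0 ξ e = ξ ⟨e, h⟩ := by
  classical
  show (if h : e ∉ G0 then ξ ⟨e, h⟩ else 0) = _
  rw [dif_pos h]

omit [Fintype E] [DecidableEq E] in
theorem ext0_of_mem {G0 : Set E} (ξ : SS G0 → k) {e : E} (h : e ∈ G0) :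
    ext0 G0 ξ e = 0 := by
  classical
  show (if h : e ∉ G0 then ξ ⟨e, h⟩ else 0) = _
  rw [dif_neg (not_not.2 h)]

omit [Fintype E] in
theorem ext0_single {G0 : Set E} (z : SS G0) :
    ext0 G0 (Pi.single z (1 : k)) = Pi.single z.1 1 := by
  funext e
  by_cases he : e ∈ G0
  · rw [ext0_of_mem _ he, Pi.single_eq_of_ne]
    rintro rfl
    exact z.2 he
  · rw [ext0_of_notMem _ he]
    by_cases h : e = z.1
    · subst h
      simp
    · rw [Pi.single_eq_of_ne h, Pi.single_eq_of_ne]
      intro h'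
      exact h (congrArg Subtype.val h')

omit [DecidableEq E] in
theorem ext0_rel {G0 : Set E} (ξ : SS G0 → k) :
    ∑ e, ext0 G0 ξ e • v e = ((vs (vv k v G0) ξ : VV k v G0) : T) := by
  classical
  have h2 : ∀ F : E → T, (∀ e ∈ G0, F e = 0) → ∑ e, F e = ∑ z : SS G0, F z.1 := by
    intro F hF
    have e1 : ∑ z : SS G0, F z.1 = ∑ e ∈ Finset.univ.filter (fun e => e ∉ G0), F e := by
      rw [Finset.sum_subtype (Finset.univ.filter (fun e => e ∉ G0))
        (fun e => by simp : ∀ e, e ∈ Finset.univ.filter (fun e => e ∉ G0) ↔ e ∉ G0) F]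
    rw [e1, Finset.sum_filter]
    refine Finset.sum_congr rfl fun e _ => ?_
    by_cases he : e ∈ G0
    · rw [if_neg (not_not.2 he), hF e he]
    · rw [if_pos he]
  rw [h2 _ (fun e he => by rw [ext0_of_mem _ he, zero_smul]), vs_apply, Submodule.coe_sum]
  refine Finset.sum_congr rfl fun z _ => ?_
  rw [ext0_of_notMem _ z.2]
  rfl

omit [Fintype E] [Fintype ι] in
theorem exists_PhiB (G : ML k E ι) (a : ι → E) {s1 s2 : ι} (h12 : s1 ≠ s2) (G0 : Set E) :
    ∃ Φ : (SS G0 → k) →ₗ[k] (SS G0 → k) →ₗ[k] k, ∀ ξ η, Φ ξ η =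
      G (Function.update (Function.update (fun s => (Pi.single (a s) 1 : E → k)) s1
        (ext0 G0 ξ)) s2 (ext0 G0 η)) := by
  refine ⟨LinearMap.mk₂ k (fun ξ η => G (Function.update (Function.update
    (fun s => (Pi.single (a s) 1 : E → k)) s1 (ext0 G0 ξ)) s2 (ext0 G0 η))) ?_ ?_ ?_ ?_,
    fun ξ η => rfl⟩
  · intro ξ ξ' η
    simp only [Function.update_comm h12]
    rw [map_add, MultilinearMap.map_update_add]
  · intro c ξ η
    simp only [Function.update_comm h12]
    rw [map_smul, MultilinearMap.map_update_smul]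
  · intro ξ η η'
    rw [map_add, MultilinearMap.map_update_add]
  · intro c ξ η
    rw [map_smul, MultilinearMap.map_update_smul]

omit [DecidableEq E] in
theorem exists_delB (b : Module.Basis ι k T) (v : E → T) (a : ι → E) {s1 s2 : ι}
    (h12 : s1 ≠ s2) (G0 : Set E) :
    ∃ δ : (SS G0 → k) →ₗ[k] (SS G0 → k) →ₗ[k] k, (∀ ξ, δ ξ ξ = 0) ∧
      (∀ ξ η, vs (vv k v G0) ξ = 0 → δ ξ η = 0) ∧ ∀ ξ η, δ ξ η =
      b.det (Function.update (Function.update (fun s => v (a s)) s1
        (∑ e, ext0 G0 ξ e • v e)) s2 (∑ e, ext0 G0 η e • v e)) := by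
  have hadd : ∀ ξ ξ' : SS G0 → k, ∑ e, ext0 G0 (ξ + ξ') e • v e =
      ∑ e, ext0 G0 ξ e • v e + ∑ e, ext0 G0 ξ' e • v e := by
    intro ξ ξ'
    rw [← Finset.sum_add_distrib]
    refine Finset.sum_congr rfl fun e _ => ?_
    rw [map_add, Pi.add_apply, add_smul]
  have hsmul : ∀ (c : k) (ξ : SS G0 → k), ∑ e, ext0 G0 (c • ξ) e • v e =
      c • ∑ e, ext0 G0 ξ e • v e := by
    intro c ξ
    rw [Finset.smul_sum]
    refine Finset.sum_congr rfl fun e _ => ?_
    rw [map_smul, Pi.smul_apply, smul_smul, smul_eq_mul]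
  refine ⟨LinearMap.mk₂ k (fun ξ η => b.det (Function.update (Function.update
    (fun s => v (a s)) s1 (∑ e, ext0 G0 ξ e • v e)) s2 (∑ e, ext0 G0 η e • v e)))
    ?_ ?_ ?_ ?_, ?_, ?_, fun ξ η => rfl⟩
  · intro ξ ξ' η
    simp only [Function.update_comm h12]
    rw [hadd, AlternatingMap.map_update_add]
  · intro c ξ η
    simp only [Function.update_comm h12]
    rw [hsmul, AlternatingMap.map_update_smul]
  · intro ξ η η'
    rw [hadd, AlternatingMap.map_update_add]
  · intro c ξ η
    rw [hsmul, AlternatingMap.map_update_smul]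
  · intro ξ
    show b.det _ = 0
    refine AlternatingMap.map_eq_zero_of_eq _ _ (i := s1) (j := s2) ?_ h12
    rw [Function.update_self, Function.update_of_ne h12, Function.update_self]
  · intro ξ η h
    show b.det _ = 0
    rw [ext0_rel, h]
    refine AlternatingMap.map_coord_zero _ s1 ?_
    rw [Function.update_of_ne h12, Function.update_self]
    rfl

end Pool.Agent.QC
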