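import Pool.Agent.QC.BrSt
import Pool.Agent.QC.BrForm

/-!
The form `PhiB` satisfies `HPhi` and `HCls`.

`A0 = a '' {s1, s2}ᶜ`, `G0 = Ω.closure A0`.

Proofs.
* `gf_pair`: for `x, y` outside `G0` the tuple `c := update (update a s1 x) s2 y` has range
  `insert x (insert y A0)`, and if `clsB x ≠ clsB y` it is injective (`x ≠ y`, `x, y ∉ A0 ⊆ G0`, `a` injective
  outside `s1, s2`) and its range is a base of `Ω` (`base_of_cls`). So `hGg` applies:
  `Φ e_x e_y = G (fun s => Pi.single (c s) 1) = gf N Ω P0 v b c` (`ext0_single`, and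
  `update (update (fun s => Pi.single (a s) 1) s1 (Pi.single x 1)) s2 (Pi.single y 1) s = Pi.single (c s) 1`).
* `hphiB`: `left`, `right`: `vs (vv ..) ξ = 0` means that `ext0 ξ ∈ Rel k v` (`ext0_rel`, `mem_rel`), and
  `G ∈ TT (Rel k v) univ`. `symm`: `gf_pair` for `(x, y)` and `(y, x)`: both tuples are injective with the
  same range, a base of `Ω`, so the values are `chi (range) * det`, and the two determinants differ by a
  sign (`AlternatingMap.map_swap`: the second tuple is the first composed with `Equiv.swap s1 s2`),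
  i.e. they are equal in characteristic two (`CharTwo.neg_eq`).
* `hclsB`: `alt`, `left` from `exists_delB`. `cls`: let `β` be given, `j1 ≠ j0` (`2 ≤ q`), `s` a state with
  `s.B ∩ G0 = A0` (`exists_state`). Take `c := chi k N P0 ((s.A j1 ∩ G0) ∪ Subtype.val '' {z | β z = j1})`.
  Let `β x = β y = j0` and `IsSt k _ x y β`. Then `{z | z ≠ x ∧ z ≠ y ∧ β z = j1} = {z | β z = j1}`, so
  `c = chi k N P0 (Ax s G0 x y β j1)`. By `state_of_isSt` there is the state
  `t = ⟨insert x (insert y A0), Ax s G0 x y β, _⟩`, so `insert x (insert y A0)` is a base of `Ω` (`hc.base`),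
  `clsB x ≠ clsB y` (`base_of_cls`), and `gf_pair` gives
  `Φ e_x e_y = chi (insert x (insert y A0)) * det(..)`, `det(..) = δ e_x e_y`. If the determinant is zero both
  sides are zero. Otherwise the range is a base of `N` (`base_of_det`), `partn_of_state t` is a partition and
  `chi_eq` (members `0` and `j1.succ`) gives `chi (insert x (insert y A0)) = chi (Ax .. j1)`.
-/

set_option autoImplicit false

namespace Pool.Agent.QC

open Set Pool.Agent.W3

variable {E : Type*} [Fintype E] [DecidableEq E] {N Ω : Matroid E} {q : ℕ} {k T : Type*}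
  [Field k] [AddCommGroup T] [Module k T] {v : E → T} {ι : Type*} [Fintype ι] [DecidableEq ι]

omit [Fintype E] [DecidableEq E] [DecidableEq ι] in
private theorem pair_card {s1 s2 : ι} (h12 : s1 ≠ s2) {a : ι → E} (ha : InjOn a {s1, s2}ᶜ)
    (hrk : Ω.eRank = Fintype.card ι) : (a '' {s1, s2}ᶜ).encard + 2 = Ω.eRank := by
  rw [ha.encard_image, hrk]
  have h1 := Set.encard_add_encard_compl ({s1, s2} : Set ι)
  rw [Set.encard_pair h12, Set.encard_univ, ENat.card_eq_coe_fintype_card] at h1
  rw [add_comm]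
  exact h1

omit [Fintype E] [DecidableEq E] [Fintype ι] in
private theorem pair_range {s1 s2 : ι} (h12 : s1 ≠ s2) (a : ι → E) (x y : E) :
    range (Function.update (Function.update a s1 x) s2 y) =
      insert x (insert y (a '' {s1, s2}ᶜ)) := by
  ext z
  simp only [mem_range, mem_insert_iff, mem_image, mem_compl_iff, mem_singleton_iff, not_or]
  constructor
  · rintro ⟨i, hi⟩
    by_cases h2 : i = s2
    · subst h2
      rw [Function.update_self] at hi
      exact Or.inr (Or.inl hi.symm)
    · rw [Function.update_of_ne h2] at hi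
      by_cases h1 : i = s1
      · subst h1
        rw [Function.update_self] at hi
        exact Or.inl hi.symm
      · rw [Function.update_of_ne h1] at hi
        exact Or.inr (Or.inr ⟨i, ⟨h1, h2⟩, hi⟩)
  · rintro (h | h | ⟨i, ⟨h1, h2⟩, hi⟩)
    · refine ⟨s1, ?_⟩
      rw [Function.update_of_ne h12, Function.update_self, h]
    · refine ⟨s2, ?_⟩
      rw [Function.update_self, h]
    · refine ⟨i, ?_⟩
      rw [Function.update_of_ne h2, Function.update_of_ne h1, hi]

omit [Fintype E] [DecidableEq E] [Fintype ι] in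
private theorem pair_inj {s1 s2 : ι} {a : ι → E}
    (ha : InjOn a {s1, s2}ᶜ) {x y : E} (hxy : x ≠ y) (hx : x ∉ a '' {s1, s2}ᶜ)
    (hy : y ∉ a '' {s1, s2}ᶜ) :
    Function.Injective (Function.update (Function.update a s1 x) s2 y) := by
  have hc : ∀ i, Function.update (Function.update a s1 x) s2 y i =
      if i = s2 then y else if i = s1 then x else a i := by
    intro i
    by_cases h2 : i = s2
    · subst h2
      rw [Function.update_self, if_pos rfl]
    · rw [Function.update_of_ne h2, if_neg h2]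
      by_cases h1 : i = s1
      · subst h1
        rw [Function.update_self, if_pos rfl]
      · rw [Function.update_of_ne h1, if_neg h1]
  have hm : ∀ i, i ≠ s1 → i ≠ s2 → a i ∈ a '' {s1, s2}ᶜ := fun i h1 h2 =>
    ⟨i, by simp [h1, h2], rfl⟩
  intro i j hij
  rw [hc, hc] at hij
  by_cases hi2 : i = s2
  · by_cases hj2 : j = s2
    · rw [hi2, hj2]
    · exfalso
      rw [if_pos hi2, if_neg hj2] at hij
      by_cases hj1 : j = s1
      · rw [if_pos hj1] at hij
        exact hxy hij.symm
      · rw [if_neg hj1] at hij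
        exact hy (hij ▸ hm j hj1 hj2)
  · rw [if_neg hi2] at hij
    by_cases hj2 : j = s2
    · exfalso
      rw [if_pos hj2] at hij
      by_cases hi1 : i = s1
      · rw [if_pos hi1] at hij
        exact hxy hij
      · rw [if_neg hi1] at hij
        exact hy (hij ▸ hm i hi1 hi2)
    · rw [if_neg hj2] at hij
      by_cases hi1 : i = s1
      · by_cases hj1 : j = s1
        · rw [hi1, hj1]
        · exfalso
          rw [if_pos hi1, if_neg hj1] at hij
          exact hx (hij ▸ hm j hj1 hj2)
      · by_cases hj1 : j = s1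
        · exfalso
          rw [if_neg hi1, if_pos hj1] at hij
          exact hx (hij ▸ hm i hi1 hi2)
        · rw [if_neg hi1, if_neg hj1] at hij
          exact ha (by simp [hi1, hi2]) (by simp [hj1, hj2]) hij

omit [DecidableEq E] in
/-- The tuple is injective and its range is a base. -/
private theorem pair_base (hc : Compl N Ω q) (hrk : Ω.eRank = Fintype.card ι)
    {s1 s2 : ι} (h12 : s1 ≠ s2) (a : ι → E) (ha : InjOn a {s1, s2}ᶜ)
    (hA : Ω.Indep (a '' {s1, s2}ᶜ)) (x y : SS (Ω.closure (a '' {s1, s2}ᶜ)))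
    (hxy : clsB hc.ground (Ω.isFlat_closure _) x ≠ clsB hc.ground (Ω.isFlat_closure _) y) :
    Function.Injective (Function.update (Function.update a s1 x.1) s2 y.1) ∧
      Ω.IsBase (range (Function.update (Function.update a s1 x.1) s2 y.1)) := by
  have h1 := (base_of_cls hc hA (pair_card h12 ha hrk) x y).1 hxy
  have hsub : a '' {s1, s2}ᶜ ⊆ Ω.closure (a '' {s1, s2}ᶜ) :=
    Ω.subset_closure _ (by rw [hc.ground]; exact subset_univ _)
  refine ⟨pair_inj ha (fun h => h1.1 (Subtype.ext h)) (fun h => x.2 (hsub h))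
    (fun h => y.2 (hsub h)), ?_⟩
  rw [pair_range h12]
  exact h1.2

theorem gf_pair (hc : Compl N Ω q) (hrk : Ω.eRank = Fintype.card ι)
    (b : Module.Basis ι k T) {P0 : Fin (q + 1) → Set E} {G : ML k E ι}
    (hGg : ∀ c : ι → E, Function.Injective c → Ω.IsBase (range c) →
      G (fun s => Pi.single (c s) 1) = gf N Ω P0 v b c)
    {s1 s2 : ι} (h12 : s1 ≠ s2) (a : ι → E) (ha : InjOn a {s1, s2}ᶜ)
    (hA : Ω.Indep (a '' {s1, s2}ᶜ))
    {Φ : (SS (Ω.closure (a '' {s1, s2}ᶜ)) → k) →ₗ[k]
      (SS (Ω.closure (a '' {s1, s2}ᶜ)) → k) →ₗ[k] k}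
    (hΦ : ∀ ξ η, Φ ξ η = G (Function.update (Function.update
      (fun s => (Pi.single (a s) 1 : E → k)) s1 (ext0 _ ξ)) s2 (ext0 _ η)))
    (x y : SS (Ω.closure (a '' {s1, s2}ᶜ)))
    (hxy : clsB hc.ground (Ω.isFlat_closure _) x ≠ clsB hc.ground (Ω.isFlat_closure _) y) :
    Φ (Pi.single x 1) (Pi.single y 1) =
      gf N Ω P0 v b (Function.update (Function.update a s1 x.1) s2 y.1) := by
  obtain ⟨h1, h2⟩ := pair_base hc hrk h12 a ha hA x y hxy
  rw [← hGg _ h1 h2, hΦ, ext0_single, ext0_single]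
  congr 1
  funext s
  by_cases hs2 : s = s2
  · subst hs2
    rw [Function.update_self, Function.update_self]
  · rw [Function.update_of_ne hs2, Function.update_of_ne hs2]
    by_cases hs1 : s = s1
    · subst hs1
      rw [Function.update_self, Function.update_self]
    · rw [Function.update_of_ne hs1, Function.update_of_ne hs1]

theorem hphiB [CharP k 2] (hc : Compl N Ω q) (hrk : Ω.eRank = Fintype.card ι)
    (b : Module.Basis ι k T) {P0 : Fin (q + 1) → Set E} {G : ML k E ι}
    (hG : G ∈ TT (Rel k v) Finset.univ)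
    (hGg : ∀ c : ι → E, Function.Injective c → Ω.IsBase (range c) →
      G (fun s => Pi.single (c s) 1) = gf N Ω P0 v b c)
    {s1 s2 : ι} (h12 : s1 ≠ s2) (a : ι → E) (ha : InjOn a {s1, s2}ᶜ)
    (hA : Ω.Indep (a '' {s1, s2}ᶜ))
    {Φ : (SS (Ω.closure (a '' {s1, s2}ᶜ)) → k) →ₗ[k]
      (SS (Ω.closure (a '' {s1, s2}ᶜ)) → k) →ₗ[k] k}
    (hΦ : ∀ ξ η, Φ ξ η = G (Function.update (Function.update
      (fun s => (Pi.single (a s) 1 : E → k)) s1 (ext0 _ ξ)) s2 (ext0 _ η))) :
    HPhi (vv k v (Ω.closure (a '' {s1, s2}ᶜ))) (clsB hc.ground (Ω.isFlat_closure _)) Φ := by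
  have hrel : ∀ ξ : SS (Ω.closure (a '' {s1, s2}ᶜ)) → k,
      vs (vv k v (Ω.closure (a '' {s1, s2}ᶜ))) ξ = 0 → ext0 _ ξ ∈ Rel k v := by
    intro ξ h
    rw [mem_rel, ext0_rel, h]
    rfl
  constructor
  · intro ξ η h
    rw [hΦ]
    refine hG _ s1 (Finset.mem_univ _) ?_
    rw [Function.update_of_ne h12, Function.update_self]
    exact hrel ξ h
  · intro ξ η h
    rw [hΦ]
    refine hG _ s2 (Finset.mem_univ _) ?_
    rw [Function.update_self]
    exact hrel η h
  · intro x y hxy
    rw [gf_pair hc hrk b hGg h12 a ha hA hΦ x y hxy,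
      gf_pair hc hrk b hGg h12 a ha hA hΦ y x (Ne.symm hxy)]
    obtain ⟨h1, h2⟩ := pair_base hc hrk h12 a ha hA x y hxy
    obtain ⟨h3, h4⟩ := pair_base hc hrk h12 a ha hA y x (Ne.symm hxy)
    have e : Function.update (Function.update a s1 y.1) s2 x.1 =
        (Function.update (Function.update a s1 x.1) s2 y.1) ∘ Equiv.swap s1 s2 := by
      funext s
      simp only [Function.comp_apply]
      by_cases hs2 : s = s2
      · subst hs2
        rw [Function.update_self, Equiv.swap_apply_right, Function.update_of_ne h12,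
          Function.update_self]
      · rw [Function.update_of_ne hs2]
        by_cases hs1 : s = s1
        · subst hs1
          rw [Function.update_self, Equiv.swap_apply_left, Function.update_self]
        · rw [Function.update_of_ne hs1, Equiv.swap_apply_of_ne_of_ne hs1 hs2,
            Function.update_of_ne hs2, Function.update_of_ne hs1]
    have hr : range (Function.update (Function.update a s1 y.1) s2 x.1) =
        range (Function.update (Function.update a s1 x.1) s2 y.1) := by
      rw [e, (Equiv.swap s1 s2).surjective.range_comp]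
    unfold gf
    rw [if_pos ⟨h1, h2⟩, if_pos ⟨h3, h4⟩, hr]
    congr 1
    have e2 : (fun s => v (Function.update (Function.update a s1 y.1) s2 x.1 s)) =
        (fun s => v (Function.update (Function.update a s1 x.1) s2 y.1 s)) ∘
          Equiv.swap s1 s2 := by
      rw [e]
      rfl
    rw [e2, AlternatingMap.map_swap _ _ h12, CharTwo.neg_eq]

theorem hclsB (hc : Compl N Ω q) (hv : IsRep k N v) (hq : 2 ≤ q)
    (hrk : Ω.eRank = Fintype.card ι)
    (b : Module.Basis ι k T) {P0 : Fin (q + 1) → Set E}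
    (h0 : Pool.Agent.WD.IsPartn N univ P0) {G : ML k E ι}
    (hGg : ∀ c : ι → E, Function.Injective c → Ω.IsBase (range c) →
      G (fun s => Pi.single (c s) 1) = gf N Ω P0 v b c)
    {s1 s2 : ι} (h12 : s1 ≠ s2) (a : ι → E) (ha : InjOn a {s1, s2}ᶜ)
    (hA : Ω.Indep (a '' {s1, s2}ᶜ))
    {Φ δ : (SS (Ω.closure (a '' {s1, s2}ᶜ)) → k) →ₗ[k]
      (SS (Ω.closure (a '' {s1, s2}ᶜ)) → k) →ₗ[k] k}
    (hΦ : ∀ ξ η, Φ ξ η = G (Function.update (Function.update
      (fun s => (Pi.single (a s) 1 : E → k)) s1 (ext0 _ ξ)) s2 (ext0 _ η)))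
    (hδ1 : ∀ ξ, δ ξ ξ = 0)
    (hδ2 : ∀ ξ η, vs (vv k v (Ω.closure (a '' {s1, s2}ᶜ))) ξ = 0 → δ ξ η = 0)
    (hδ : ∀ ξ η, δ ξ η = b.det (Function.update (Function.update (fun s => v (a s)) s1
        (∑ e, ext0 _ ξ e • v e)) s2 (∑ e, ext0 _ η e • v e))) (j0 : Fin q) :
    HCls (vv k v (Ω.closure (a '' {s1, s2}ᶜ))) Φ δ j0 := by
  refine ⟨hδ1, hδ2, ?_⟩
  intro β
  obtain ⟨s, hs⟩ := exists_state hc hA
  obtain ⟨j1, hj1⟩ : ∃ j1 : Fin q, j1 ≠ j0 := by
    have : Nontrivial (Fin q) := Fin.nontrivial_iff_two_le.2 hq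
    exact exists_ne j0
  refine ⟨chi k N P0 ((s.A j1 ∩ Ω.closure (a '' {s1, s2}ᶜ)) ∪ (Subtype.val '' {z : SS (Ω.closure (a '' {s1, s2}ᶜ)) | β z = j1})), ?_⟩
  intro x y hx hy hst
  have hset : Ax s (Ω.closure (a '' {s1, s2}ᶜ)) x y β j1 =
      (s.A j1 ∩ Ω.closure (a '' {s1, s2}ᶜ)) ∪ (Subtype.val '' {z : SS (Ω.closure (a '' {s1, s2}ᶜ)) | β z = j1}) := by
    unfold Ax
    congr 2
    ext z
    simp only [mem_ofPred_eq]
    constructor
    · exact fun h => h.2.2
    · intro h
      refine ⟨?_, ?_, h⟩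
      · rintro rfl
        exact hj1 (h.symm.trans hx)
      · rintro rfl
        exact hj1 (h.symm.trans hy)
  have hstate := state_of_isSt hc hv hA s hs x y β hst
  have hbase : Ω.IsBase (insert x.1 (insert y.1 (a '' {s1, s2}ᶜ))) :=
    (hc.base _).2 ⟨_, hstate⟩
  have hxy := (base_of_cls hc hA (pair_card h12 ha hrk) x y).2 ⟨hst.1, hbase⟩
  rw [gf_pair hc hrk b hGg h12 a ha hA hΦ x y hxy]
  obtain ⟨h1, h2⟩ := pair_base hc hrk h12 a ha hA x y hxy
  have hsing : ∀ z : SS (Ω.closure (a '' {s1, s2}ᶜ)), ∑ e, ext0 (Ω.closure (a '' {s1, s2}ᶜ)) (Pi.single z (1 : k)) e • v e = v z.1 := by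
    intro z
    rw [ext0_single, Finset.sum_eq_single z.1]
    · rw [Pi.single_eq_same, one_smul]
    · intro e _ he
      rw [Pi.single_eq_of_ne he, zero_smul]
    · intro h
      exact absurd (Finset.mem_univ _) h
  have hdet : δ (Pi.single x 1) (Pi.single y 1) =
      b.det (fun s => v (Function.update (Function.update a s1 x.1) s2 y.1 s)) := by
    rw [hδ, hsing, hsing]
    congr 1
    funext s
    by_cases hs2 : s = s2
    · subst hs2
      rw [Function.update_self, Function.update_self]
    · rw [Function.update_of_ne hs2, Function.update_of_ne hs2]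
      by_cases hs1 : s = s1
      · subst hs1
        rw [Function.update_self, Function.update_self]
      · rw [Function.update_of_ne hs1, Function.update_of_ne hs1]
  rw [hdet]
  unfold gf
  rw [if_pos ⟨h1, h2⟩]
  by_cases hd : b.det (fun s => v (Function.update (Function.update a s1 x.1) s2 y.1 s)) = 0
  · rw [hd, mul_zero, mul_zero]
  · congr 1
    have hNb := (base_of_det hc.groundN hv b hd).2
    rw [pair_range h12] at hNb ⊢
    have hpart := partn_of_state (⟨_, _, hstate⟩ : St N q) hNb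
    have h3 := chi_eq (k := k) h0 hpart 0 j1.succ
    simp only [Fin.cons_zero, Fin.cons_succ] at h3
    rw [h3, hset]

end Pool.Agent.QC
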