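import Pool.Agent.QC.BrDefs

/-!
States of the matroid and states `IsSt` of the vectors outside a flat.

`A0` is an independent set of `Ω` with `eRank - 2` elements, `G0 = Ω.closure A0`.

Proofs.
* `base_of_cls`: by `clsB_eq` (for `P := clsB y`), `clsB x = clsB y` iff
  `x ∈ Ω.closure (insert y G0) = Ω.closure (insert y A0)` (`Matroid.closure_insert_closure_eq_closure_insert`).
  `insert y A0` is independent since `y ∉ Ω.closure A0`. So `clsB x ≠ clsB y` iff
  `x ∉ Ω.closure (insert y A0)` iff `x ∉ insert y A0` and `insert x (insert y A0)` is independent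
  (`Indep.notMem_closure_iff`), and then it is a base: it has `A0.encard + 2 = eRank` elements. Conversely, if
  `x ≠ y` and the set is a base then it is independent and `x ∉ insert y A0` (`A0 ⊆ G0`).
* `isSt_of_cls`: `insert x (insert y A0)` is a base of `Ω` (`base_of_cls`); `hc.base` gives `A` and the state
  `s = ⟨_, A, _⟩`; `s.B ∩ G0 = A0` (`x, y ∉ G0`, `A0 ⊆ G0`), and `A0` is a basis of `G0`
  (`Indep.isBasis_closure`), so `s.Ad Ω G0`. `β z := l` if `z ∈ A l` (unique `l`), and `⟨0, _⟩` if there is none. For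
  each `j` the image of `{z | z ≠ x ∧ z ≠ y ∧ β z = j}` in `E` is `A j \ G0`. Independence: `A j` is a base of
  `N`, `hv`. Span: `span_compl hc s _ j : G0ᶜ ⊆ N.closure (A j \ G0)`, and `mem_closure_iff`.
* `state_of_isSt`: let `C l := Subtype.val '' {z | z ≠ x ∧ z ≠ y ∧ β z = l}`. Both `C l` (by `IsSt`) and
  `s.A l \ G0` (`span_compl`, and `hv`) give bases of the space `VV k v G0`, so they have the same number
  of elements, and `Ax s G0 x y β l = (s.A l ∩ G0) ∪ C l` has as many elements as `s.A l`. It spans: every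
  element outside `G0` is in `N.closure (C l)` (`mem_closure_iff`), so `s.A l ⊆ N.closure (Ax ..)`.
  `base_of_spanning_card`. Disjointness and union: `A0 = s.B ∩ G0`; the elements of `G0` are in `A0` or in
  some `s.A l ∩ G0`; the elements outside `G0` are `x`, `y` or in `C (β z)`.
-/

set_option autoImplicit false

namespace Pool.Agent.QC

open Set Pool.Agent.W3

variable {E : Type*} [Fintype E] [DecidableEq E] {N Ω : Matroid E} {q : ℕ} {k T : Type*}
  [Field k] [AddCommGroup T] [Module k T] {v : E → T}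

/-- The bases belonging to a colouring. -/
def Ax (s : St N q) (G0 : Set E) (x y : SS G0) (β : SS G0 → Fin q) (l : Fin q) : Set E :=
  (s.A l ∩ G0) ∪ (Subtype.val '' {z : SS G0 | z ≠ x ∧ z ≠ y ∧ β z = l})

/-- The vectors outside `G0` and their images in the whole space. -/
private theorem brst_indep {E k T : Type*} [Field k] [AddCommGroup T] [Module k T] {v : E → T}
    (G0 : Set E) (S' : Set (SS G0)) :
    LinearIndepOn k (vv k v G0) S' ↔ LinearIndepOn k v (Subtype.val '' S') := by
  constructor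
  · intro h
    apply LinearIndepOn.image_of_comp
    have h1 := h.map_injOn (VV k v G0).subtype ((Subtype.val_injective).injOn)
    exact h1
  · intro h
    apply LinearIndepOn.of_comp (VV k v G0).subtype
    exact h.comp_of_image (Subtype.val_injective.injOn)

private theorem brst_map {E k T : Type*} [Field k] [AddCommGroup T] [Module k T] {v : E → T}
    (G0 : Set E) (S' : Set (SS G0)) :
    Submodule.map (VV k v G0).subtype (Submodule.span k (vv k v G0 '' S')) =
      Submodule.span k (v '' (Subtype.val '' S')) := by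
  rw [Submodule.map_span]
  congr 1
  ext t
  simp only [Set.mem_image]
  constructor
  · rintro ⟨_, ⟨z, hz, rfl⟩, rfl⟩
    exact ⟨z.1, ⟨z, hz, rfl⟩, rfl⟩
  · rintro ⟨_, ⟨z, hz, rfl⟩, rfl⟩
    exact ⟨_, ⟨z, hz, rfl⟩, rfl⟩

private theorem brst_span {E k T : Type*} [Field k] [AddCommGroup T] [Module k T] {v : E → T}
    (G0 : Set E) (S' : Set (SS G0)) :
    Submodule.span k (vv k v G0 '' S') = ⊤ ↔
      ∀ e ∉ G0, v e ∈ Submodule.span k (v '' (Subtype.val '' S')) := by
  constructor
  · intro h e he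
    have h1 : v e ∈ Submodule.map (VV k v G0).subtype (Submodule.span k (vv k v G0 '' S')) := by
      rw [h]
      exact ⟨vv k v G0 ⟨e, he⟩, trivial, rfl⟩
    rwa [brst_map] at h1
  · intro h
    rw [eq_top_iff]
    intro u _
    have h1 : (u : T) ∈ Submodule.span k (v '' (Subtype.val '' S')) := by
      have h2 : VV k v G0 ≤ Submodule.span k (v '' (Subtype.val '' S')) := by
        unfold VV
        rw [Submodule.span_le]
        rintro _ ⟨e, he, rfl⟩
        exact h e he
      exact h2 u.2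
    rw [← brst_map] at h1
    obtain ⟨u', hu', he⟩ := h1
    have : u' = u := Subtype.ext he
    rwa [← this]

private theorem brst_isBase {E : Type*} [Finite E] {Ω : Matroid E} {I : Set E} (hI : Ω.Indep I)
    (h : I.encard = Ω.eRank) : Ω.IsBase I := by
  obtain ⟨B, hB, hsub⟩ := hI.exists_isBase_superset
  have h1 : I = B := (Set.toFinite I).eq_of_subset_of_encard_le hsub (by
    rw [h, hB.encard_eq_eRank])
  rwa [h1]

private theorem brst_sub {E : Type*} {N Ω : Matroid E} {q : ℕ} (hc : Compl N Ω q)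
    {A0 : Set E} (hA : Ω.Indep A0) : A0 ⊆ Ω.closure A0 := hA.isBasis_closure.subset

private theorem brst_indep_insert {E : Type*} {N Ω : Matroid E} {q : ℕ} (hc : Compl N Ω q)
    {A0 : Set E} (hA : Ω.Indep A0) {y : E} (hy : y ∉ Ω.closure A0) :
    Ω.Indep (insert y A0) ∧ y ∉ A0 :=
  (hA.notMem_closure_iff (by rw [hc.ground]; exact mem_univ _)).1 hy

omit [DecidableEq E] in
theorem base_of_cls (hc : Compl N Ω q) {A0 : Set E} (hA : Ω.Indep A0)
    (hcard : A0.encard + 2 = Ω.eRank) (x y : SS (Ω.closure A0)) :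
    clsB hc.ground (Ω.isFlat_closure A0) x ≠ clsB hc.ground (Ω.isFlat_closure A0) y ↔
      x ≠ y ∧ Ω.IsBase (insert x.1 (insert y.1 A0)) := by
  have h1 : clsB hc.ground (Ω.isFlat_closure A0) x = clsB hc.ground (Ω.isFlat_closure A0) y ↔
      x.1 ∈ Ω.closure (insert y.1 A0) := by
    rw [clsB_eq]
    show x.1 ∈ Ω.closure (insert y.1 (Ω.closure A0)) ↔ _
    rw [Matroid.closure_insert_closure_eq_closure_insert]
  obtain ⟨hiy, hyA⟩ := brst_indep_insert hc hA y.2
  have hA0 := brst_sub hc hA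
  have h2 : x.1 ∉ Ω.closure (insert y.1 A0) ↔
      Ω.Indep (insert x.1 (insert y.1 A0)) ∧ x.1 ∉ insert y.1 A0 :=
    hiy.notMem_closure_iff (by rw [hc.ground]; exact mem_univ _)
  rw [ne_eq, h1, h2]
  constructor
  · rintro ⟨h3, h4⟩
    refine ⟨fun h => h4 (by rw [h]; exact mem_insert _ _), ?_⟩
    refine brst_isBase h3 ?_
    rw [encard_insert_of_notMem h4, encard_insert_of_notMem hyA, ← hcard, add_assoc]
    rfl
  · rintro ⟨h3, h4⟩
    refine ⟨h4.indep, ?_⟩
    rintro (h5 | h5)
    · exact h3 (Subtype.ext h5)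
    · exact x.2 (hA0 h5)

omit [DecidableEq E] in
theorem isSt_of_cls (hc : Compl N Ω q) (hv : IsRep k N v) (hq : 2 ≤ q) {A0 : Set E}
    (hA : Ω.Indep A0) (hcard : A0.encard + 2 = Ω.eRank) (x y : SS (Ω.closure A0))
    (h : clsB hc.ground (Ω.isFlat_closure A0) x ≠ clsB hc.ground (Ω.isFlat_closure A0) y) :
    ∃ β : SS (Ω.closure A0) → Fin q, IsSt k (vv k v (Ω.closure A0)) x y β := by
  classical
  obtain ⟨hxy, hB⟩ := (base_of_cls hc hA hcard x y).1 h
  obtain ⟨A, hst⟩ := (hc.base _).1 hB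
  have hA0 := brst_sub hc hA
  let s : St N q := ⟨_, A, hst⟩
  have hsB : s.B ∩ Ω.closure A0 = A0 := by
    ext e
    constructor
    · rintro ⟨he | he | he, h2⟩
      · exact absurd h2 (by rw [he]; exact x.2)
      · exact absurd h2 (by rw [he]; exact y.2)
      · exact he
    · intro he
      exact ⟨Or.inr (Or.inr he), hA0 he⟩
  have hAd : s.Ad Ω (Ω.closure A0) := by
    refine ⟨Ω.isFlat_closure A0, ?_⟩
    rw [hsB]
    exact hA.isBasis_closure
  have hex : ∀ z : SS (Ω.closure A0), z ≠ x → z ≠ y → ∃ l, z.1 ∈ A l := by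
    intro z hzx hzy
    have hz : z.1 ∈ s.B ∪ ⋃ l, A l := by
      have := hst.2.2
      change z.1 ∈ (insert x.1 (insert y.1 A0)) ∪ ⋃ l, A l
      rw [this]
      exact mem_univ _
    rcases hz with hz | hz
    · rcases hz with hz | hz | hz
      · exact absurd (Subtype.ext hz) hzx
      · exact absurd (Subtype.ext hz) hzy
      · exact absurd (hA0 hz) z.2
    · exact mem_iUnion.1 hz
  have hun : ∀ (e : E) (l l' : Fin q), e ∈ A l → e ∈ A l' → l = l' := by
    intro e l l' h1 h2
    by_contra hne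
    exact disjoint_left.1 (hst.1.2 hne) h1 h2
  let β : SS (Ω.closure A0) → Fin q := fun z =>
    if hz : ∃ l, z.1 ∈ A l then hz.choose else ⟨0, by omega⟩
  have hβ : ∀ z : SS (Ω.closure A0), z ≠ x → z ≠ y → ∀ l, β z = l ↔ z.1 ∈ A l := by
    intro z hzx hzy l
    have hz := hex z hzx hzy
    have h1 : β z = hz.choose := dif_pos hz
    constructor
    · intro h2
      rw [← h2, h1]
      exact hz.choose_spec
    · intro h2
      rw [h1]
      exact hun _ _ _ hz.choose_spec h2
  refine ⟨β, hxy, fun j => ?_⟩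
  have himg : Subtype.val '' {z : SS (Ω.closure A0) | z ≠ x ∧ z ≠ y ∧ β z = j} =
      A j \ Ω.closure A0 := by
    ext e
    constructor
    · rintro ⟨z, ⟨h1, h2, h3⟩, rfl⟩
      exact ⟨(hβ z h1 h2 j).1 h3, z.2⟩
    · rintro ⟨h1, h2⟩
      have hnB : e ∉ insert x.1 (insert y.1 A0) := fun h3 =>
        disjoint_left.1 (hst.2.1 j) h3 h1
      have h3 : (⟨e, h2⟩ : SS (Ω.closure A0)) ≠ x := by
        intro h4
        apply hnB
        rw [← h4]
        exact mem_insert _ _
      have h5 : (⟨e, h2⟩ : SS (Ω.closure A0)) ≠ y := by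
        intro h4
        apply hnB
        rw [← h4]
        exact mem_insert_of_mem _ (mem_insert _ _)
      exact ⟨⟨e, h2⟩, ⟨h3, h5, (hβ _ h3 h5 j).2 h1⟩, rfl⟩
  constructor
  · rw [brst_indep, himg]
    exact (hv _).1 ((hst.1.1 j).indep.subset sdiff_subset)
  · rw [brst_span, himg]
    intro e he
    rw [← mem_closure_iff hc.groundN hv]
    exact span_compl hc s hAd j he

omit [DecidableEq E] in
theorem state_of_isSt (hc : Compl N Ω q) (hv : IsRep k N v) {A0 : Set E}
    (hA : Ω.Indep A0) (s : St N q) (hsB : s.B ∩ Ω.closure A0 = A0)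
    (x y : SS (Ω.closure A0)) (β : SS (Ω.closure A0) → Fin q)
    (h : IsSt k (vv k v (Ω.closure A0)) x y β) :
    IsState N (insert x.1 (insert y.1 A0)) (Ax s (Ω.closure A0) x y β) := by
  classical
  obtain ⟨hxy, hst⟩ := h
  have hA0 := brst_sub hc hA
  have hAd : s.Ad Ω (Ω.closure A0) := by
    refine ⟨Ω.isFlat_closure A0, ?_⟩
    rw [hsB]
    exact hA.isBasis_closure
  have hB0 : ∀ e, e ∈ A0 ↔ e ∈ s.B ∧ e ∈ Ω.closure A0 := by
    intro e
    conv_lhs => rw [← hsB]
    rfl
  set C : Fin q → Set E := fun l =>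
    Subtype.val '' {z : SS (Ω.closure A0) | z ≠ x ∧ z ≠ y ∧ β z = l} with hC
  have hCG : ∀ l, C l ⊆ (Ω.closure A0)ᶜ := by
    rintro l _ ⟨z, _, rfl⟩
    exact z.2
  have hCb : ∀ l, N.IsBasis (C l) (Ω.closure A0)ᶜ := by
    intro l
    refine Matroid.Indep.isBasis_of_subset_of_subset_closure ?_ (hCG l) ?_
    · rw [hv]
      exact (brst_indep _ _).1 (hst l).1
    · intro e he
      rw [mem_closure_iff hc.groundN hv]
      exact (brst_span _ _).1 (hst l).2 e he
  have hgr : ∀ X : Set E, X ⊆ N.E := by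
    intro X
    rw [hc.groundN]
    exact subset_univ _
  have hbase : ∀ l, N.IsBase (Ax s (Ω.closure A0) x y β l) := by
    intro l
    refine base_of_spanning_card (s.st.1.1 l) ?_ ?_
    · rw [Matroid.spanning_iff_ground_subset_closure (hgr _), ← (s.st.1.1 l).closure_eq]
      apply Matroid.closure_subset_closure_of_subset_closure
      intro e he
      by_cases heG : e ∈ Ω.closure A0
      · exact N.subset_closure _ (hgr _) (Or.inl ⟨he, heG⟩)
      · exact N.closure_subset_closure (subset_union_right) ((hCb l).subset_closure heG)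
    · have h1 := card_basis_eq (hCb l) (isBasis_compl hc s hAd l)
      have h2 := ncard_inter_add_diff (s.A l) (Ω.closure A0)
      have h3 : (Ax s (Ω.closure A0) x y β l).ncard ≤ (s.A l ∩ Ω.closure A0).ncard +
          (C l).ncard := ncard_union_le _ _
      omega
  refine ⟨⟨hbase, ?_⟩, ?_, ?_⟩
  · intro l l' hl
    rw [Function.onFun, disjoint_left]
    rintro e (⟨h1, h2⟩ | h1) (⟨h3, h4⟩ | h3)
    · exact disjoint_left.1 (s.st.1.2 hl) h1 h3
    · exact hCG l' h3 h2
    · exact hCG l h1 h4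
    · obtain ⟨z, ⟨_, _, hz⟩, rfl⟩ := h1
      obtain ⟨z', ⟨_, _, hz'⟩, he⟩ := h3
      have : z' = z := Subtype.ext he
      apply hl
      rw [← hz, ← hz', this]
  · intro l
    rw [disjoint_left]
    rintro e (h1 | h1 | h1) (⟨h3, h4⟩ | h3)
    · rw [h1] at h4
      exact x.2 h4
    · obtain ⟨z, ⟨hz, _, _⟩, he⟩ := h3
      exact hz (Subtype.ext (he.trans h1))
    · rw [h1] at h4
      exact y.2 h4
    · obtain ⟨z, ⟨_, hz, _⟩, he⟩ := h3
      exact hz (Subtype.ext (he.trans h1))
    · exact disjoint_left.1 (s.st.2.1 l) ((hB0 e).1 h1).1 h3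
    · exact hCG l h3 (hA0 h1)
  · rw [eq_univ_iff_forall]
    intro e
    by_cases heG : e ∈ Ω.closure A0
    · have he : e ∈ s.B ∪ ⋃ l, s.A l := by
        rw [s.st.2.2]
        exact mem_univ _
      rcases he with he | he
      · exact Or.inl (Or.inr (Or.inr ((hB0 e).2 ⟨he, heG⟩)))
      · obtain ⟨l, hl⟩ := mem_iUnion.1 he
        exact Or.inr (mem_iUnion.2 ⟨l, Or.inl ⟨hl, heG⟩⟩)
    · by_cases hx : (⟨e, heG⟩ : SS (Ω.closure A0)) = x
      · refine Or.inl (Or.inl ?_)
        rw [← hx]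
      · by_cases hy : (⟨e, heG⟩ : SS (Ω.closure A0)) = y
        · refine Or.inl (Or.inr (Or.inl ?_))
          rw [← hy]
        · exact Or.inr (mem_iUnion.2 ⟨β ⟨e, heG⟩, Or.inr ⟨⟨e, heG⟩, ⟨hx, hy, rfl⟩, rfl⟩⟩)

omit [Fintype E] [DecidableEq E] in
/-- A state with `s.B ∩ Ω.closure A0 = A0`. -/
theorem exists_state (hc : Compl N Ω q) {A0 : Set E} (hA : Ω.Indep A0) :
    ∃ s : St N q, s.B ∩ Ω.closure A0 = A0 := by
  obtain ⟨B, hB, hsub⟩ := hA.exists_isBase_superset
  obtain ⟨A, hst⟩ := (hc.base B).1 hB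
  refine ⟨⟨B, A, hst⟩, ?_⟩
  have h1 : Ω.IsBasis A0 (Ω.closure A0) := hA.isBasis_closure
  have h2 : A0 ⊆ Ω.closure A0 := h1.subset
  exact (h1.eq_of_subset_indep (hB.indep.subset inter_subset_left)
      (subset_inter hsub h2) inter_subset_right).symm

end Pool.Agent.QC
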