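import Mathlib

/-!
Expansion of a determinant in its columns.

Proof. Let `b` be the basis of `W` consisting of the `u i` (`Module.Basis.mk`), or any basis of `W`
indexed by `m` (`hu` and `hs`). `b.det u ≠ 0` (`Module.Basis.is_basis_iff_det`). As `u i = ∑ j, w i j`
the multilinearity (`MultilinearMap.map_sum`, for `AlternatingMap` use `.toMultilinearMap`) gives
`b.det u = ∑ f, b.det (fun i => w i (f i))`, so some summand is not zero
(`Finset.exists_ne_zero_of_sum_ne_zero`), and then the `w i (f i)` are linearly independent and
span `W` (`is_basis_iff_det`).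
-/

set_option autoImplicit false

namespace Pool.Agent.QC

theorem choice {k W m ι : Type*} [Field k] [AddCommGroup W] [Module k W] [Fintype m]
    [Fintype ι] (u : m → W) (hu : LinearIndependent k u)
    (hs : Submodule.span k (Set.range u) = ⊤) (w : m → ι → W) (hw : ∀ i, u i = ∑ j, w i j) :
    ∃ f : m → ι, Submodule.span k (Set.range (fun i => w i (f i))) = ⊤ := by
  classical
  let b : Module.Basis m k W := Module.Basis.mk hu (by rw [hs])
  have hb : (⇑b : m → W) = u := by
    funext i
    exact Module.Basis.mk_apply _ _ i
  have h1 : b.det u ≠ 0 := by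
    rw [← hb, b.det_self]
    exact one_ne_zero
  have h2 : b.det u = ∑ f : m → ι, b.det (fun i => w i (f i)) := by
    have h3 : u = fun i => ∑ j, w i j := funext hw
    rw [h3]
    have h4 := (b.det.toMultilinearMap).map_sum w
    exact h4
  rw [h2] at h1
  obtain ⟨f, -, hf⟩ := Finset.exists_ne_zero_of_sum_ne_zero h1
  refine ⟨f, ?_⟩
  exact ((b.is_basis_iff_det).2 (isUnit_iff_ne_zero.2 hf)).2

end Pool.Agent.QC
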