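import Mathlib

/-!
The peeling lemma.

`G c a = ∑ R, (c R * e R a) • b R`. Notation: `A_c = {a | G c a = 0}`.

Proof. For `c ∈ C` and `σ ∈ A_c` the functional `Θ · σ` vanishes on `A_c` (`hz`) and `G c` is onto
(`hon`), so there is a linear `k_c(σ) : I → k` with `Θ ρ σ = k_c(σ) (G c ρ)` for all `ρ`
(if `g` is a linear right inverse of `G c`, `LinearMap.exists_rightInverse_of_surjective`, take
`(Θ · σ) ∘ g`; `ρ - g (G c ρ) ∈ A_c`).
Let `c ∈ C` and `c' = c + Pi.single R r ∈ C`, `r ≠ 0`; `G c' a = G c a + (r * e R a) • b R`.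
(1) For `σ ∈ A_c`, `τ ∈ A_c'`: `G c' σ = r e_R(σ) b_R`, `G c τ = - r e_R(τ) b_R`, so
`Θ τ σ = - r e_R(τ) k_c(σ)(b_R)` and `Θ σ τ = r e_R(σ) k_c'(τ)(b_R)`; `Θ τ σ = - Θ σ τ`, so
`e_R(τ) k_c(σ)(b_R) = e_R(σ) k_c'(τ)(b_R)`.
(2) By `h1` for `c'` there is a `μ = μ_R(c)` with `k_c(σ)(b_R) = μ_R(c) e_R(σ)` for all `σ ∈ A_c`
(and by `hs` this holds for all `c ∈ C` and all `R`); `μ_R(c)` is unique by `h1`. By (1) and `h1` for `c`:
`μ_R(c) = μ_R(c')`.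
(3) Let `P ≠ R`. For `σ` with `G c σ = 0`, `e_R(σ) = 0` also `G c' σ = 0`, and for all `ρ`:
`k_c(σ)(G c ρ) = Θ ρ σ = k_c'(σ)(G c' ρ) = k_c'(σ)(G c ρ) + r e_R(ρ) k_c'(σ)(b_R)` and
`k_c'(σ)(b_R) = μ_R(c') e_R(σ) = 0`; `G c` is onto, so `k_c(σ) = k_c'(σ)`. So
`μ_P(c) e_P(σ) = μ_P(c') e_P(σ)`; by `h2` choose `σ` with `e_P(σ) ≠ 0`: `μ_P(c) = μ_P(c')`.
(4) So `μ(c) = μ(c')`. For `σ ∈ A_c`, `τ ∈ A_c'`: `∑_P c_P μ_P e_P(σ) e_P(τ) = k_c'(τ)(G c σ) = 0` and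
the same sum is `k_c(σ)(G c τ) = Θ τ σ`. So `Θ τ σ = 0`, i.e. `r e_R(τ) μ_R e_R(σ) = 0` by (1), so
`μ_R(c) = 0` (`h1` for `c` and for `c'`).
(5) So `k_c(σ)(b_R) = 0` for all `R` and all `σ ∈ A_c`; the `b_R` span `I` (`hon`), so `k_c(σ) = 0` and
`Θ ρ σ = 0` for all `ρ` and all `σ ∈ A_c`, `c ∈ C`; also `Θ σ ρ = 0`.
(6) Let `ρ` be arbitrary, `c ∈ C`. As in the beginning `Θ ρ · = l ∘ G c` with `l : I → k` linear. For
each `R` take `c' = c + Pi.single R r ∈ C` and `τ ∈ A_c'` with `e_R(τ) ≠ 0`: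
`0 = Θ ρ τ = l (G c τ) = - r e_R(τ) l(b_R)`, so `l(b_R) = 0` for all `R`, `l = 0`, `Θ ρ = 0`.
-/

set_option autoImplicit false

namespace Pool.Agent.QC

private theorem pl_fac {k A I : Type*} [Field k] [AddCommGroup A] [Module k A] [AddCommGroup I]
    [Module k I] (g : A →ₗ[k] I) (hg : Function.Surjective g) (φ : A →ₗ[k] k)
    (h : ∀ a, g a = 0 → φ a = 0) : ∃ l : I →ₗ[k] k, ∀ a, φ a = l (g a) := by
  obtain ⟨s, hs⟩ := LinearMap.exists_rightInverse_of_surjective g (LinearMap.range_eq_top.2 hg)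
  refine ⟨φ.comp s, fun a => ?_⟩
  have h1 : g (a - s (g a)) = 0 := by
    rw [map_sub]
    have := LinearMap.congr_fun hs (g a)
    simp only [LinearMap.comp_apply, LinearMap.id_apply] at this
    rw [this, sub_self]
  have h2 := h _ h1
  rw [map_sub, sub_eq_zero] at h2
  exact h2

theorem peel {k A I n : Type*} [Field k] [AddCommGroup A] [Module k A] [AddCommGroup I]
    [Module k I] [Fintype n] [DecidableEq n] (e : n → A →ₗ[k] k) (b : n → I)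
    (C : Set (n → k)) (hC : C.Nonempty) (Θ : A →ₗ[k] A →ₗ[k] k) (hΘ : ∀ a, Θ a a = 0)
    (hon : ∀ c ∈ C, ∀ i : I, ∃ a, ∑ R, (c R * e R a) • b R = i)
    (hz : ∀ c ∈ C, ∀ a a', ∑ R, (c R * e R a) • b R = 0 → ∑ R, (c R * e R a') • b R = 0 →
      Θ a a' = 0)
    (h1 : ∀ c ∈ C, ∀ R, ∃ a, ∑ R, (c R * e R a) • b R = 0 ∧ e R a ≠ 0)
    (h2 : ∀ c ∈ C, ∀ P R, P ≠ R → ∃ a, ∑ R, (c R * e R a) • b R = 0 ∧ e R a = 0 ∧ e P a ≠ 0)
    (hs : ∀ c ∈ C, ∀ R, ∃ r : k, r ≠ 0 ∧ c + Pi.single R r ∈ C) :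
    ∀ a a', Θ a a' = 0 := by
  classical
  obtain ⟨G, hG⟩ : ∃ G : (n → k) → A →ₗ[k] I, ∀ c a, G c a = ∑ R, (c R * e R a) • b R := by
    refine ⟨fun c => ∑ R, (c R) • (e R).smulRight (b R), fun c a => ?_⟩
    rw [LinearMap.sum_apply]
    refine Finset.sum_congr rfl fun R _ => ?_
    rw [LinearMap.smul_apply, LinearMap.smulRight_apply, smul_smul]
  simp only [← hG] at hon hz h1 h2
  have hskew : ∀ a a', Θ a a' = - Θ a' a := by
    intro a a'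
    have h := hΘ (a + a')
    simp only [map_add, LinearMap.add_apply, hΘ, zero_add, add_zero] at h
    linear_combination h
  have hGs : ∀ (c : n → k) (R : n) (r : k) (a : A),
      G (c + Pi.single R r) a = G c a + (r * e R a) • b R := by
    intro c R r a
    rw [hG, hG]
    have h : ∀ P, ((c + Pi.single R r : n → k) P * e P a) • b P =
        (c P * e P a) • b P + (if P = R then (r * e R a) • b R else 0) := by
      intro P
      rw [Pi.add_apply, add_mul, add_smul]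
      by_cases hP : P = R
      · subst hP
        rw [Pi.single_eq_same, if_pos rfl]
      · rw [Pi.single_eq_of_ne hP, if_neg hP, zero_mul, zero_smul]
    rw [Finset.sum_congr rfl fun P _ => h P, Finset.sum_add_distrib, Finset.sum_ite_eq',
      if_pos (Finset.mem_univ R)]
  -- the functionals `k_c(σ)`
  have hK : ∀ c ∈ C, ∀ σ, G c σ = 0 → ∃ l : I →ₗ[k] k, ∀ ρ, Θ ρ σ = l (G c ρ) := by
    intro c hc σ hσ
    obtain ⟨l, hl⟩ := pl_fac (G c) (hon c hc) (Θ.flip σ) (fun a ha => by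
      rw [LinearMap.flip_apply]
      exact hz c hc a σ ha hσ)
    exact ⟨l, fun ρ => by rw [← hl, LinearMap.flip_apply]⟩
  have hlG : ∀ (l : I →ₗ[k] k) (c : n → k) (a : A), l (G c a) = ∑ R, c R * e R a * l (b R) := by
    intro l c a
    rw [hG, map_sum]
    refine Finset.sum_congr rfl fun R _ => ?_
    rw [map_smul, smul_eq_mul]
  -- (1)
  have hs1 : ∀ c ∈ C, ∀ (R : n) (r : k), r ≠ 0 → c + Pi.single R r ∈ C → ∀ σ τ,
      G c σ = 0 → G (c + Pi.single R r) τ = 0 → ∀ l l' : I →ₗ[k] k,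
      (∀ ρ, Θ ρ σ = l (G c ρ)) → (∀ ρ, Θ ρ τ = l' (G (c + Pi.single R r) ρ)) →
      Θ τ σ = - (r * e R τ * l (b R)) ∧ e R τ * l (b R) = e R σ * l' (b R) := by
    intro c _ R r hr _ σ τ hσ hτ l l' hl hl'
    have e1 : G c τ = - ((r * e R τ) • b R) := by
      rw [hGs] at hτ
      exact eq_neg_of_add_eq_zero_left hτ
    have e2 : G (c + Pi.single R r) σ = (r * e R σ) • b R := by
      rw [hGs, hσ, zero_add]
    have e3 : Θ τ σ = - (r * e R τ * l (b R)) := by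
      rw [hl, e1, map_neg, map_smul, smul_eq_mul]
    have e4 : Θ σ τ = r * e R σ * l' (b R) := by
      rw [hl', e2, map_smul, smul_eq_mul]
    refine ⟨e3, ?_⟩
    have e5 := hskew τ σ
    rw [e3, e4] at e5
    have e6 : r * (e R τ * l (b R) - e R σ * l' (b R)) = 0 := by linear_combination -e5
    rcases mul_eq_zero.1 e6 with h | h
    · exact absurd h hr
    · exact sub_eq_zero.1 h
  -- (2)
  have hmu : ∀ c ∈ C, ∀ R, ∃ μ : k, ∀ σ, G c σ = 0 → ∀ l : I →ₗ[k] k,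
      (∀ ρ, Θ ρ σ = l (G c ρ)) → l (b R) = μ * e R σ := by
    intro c hc R
    obtain ⟨r, hr, hc'⟩ := hs c hc R
    obtain ⟨τ, hτ, hτ0⟩ := h1 _ hc' R
    obtain ⟨l', hl'⟩ := hK _ hc' τ hτ
    refine ⟨l' (b R) / e R τ, fun σ hσ l hl => ?_⟩
    have h3 := (hs1 c hc R r hr hc' σ τ hσ hτ l l' hl hl').2
    field_simp
    linear_combination h3
  choose! μ hμ using hmu
  -- (2), (3)
  have hmueq : ∀ c ∈ C, ∀ (R : n) (r : k), r ≠ 0 → c + Pi.single R r ∈ C → ∀ P,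
      μ c P = μ (c + Pi.single R r) P := by
    intro c hc R r hr hc' P
    by_cases hPR : P = R
    · subst hPR
      obtain ⟨σ, hσ, hσ0⟩ := h1 c hc P
      obtain ⟨τ, hτ, hτ0⟩ := h1 _ hc' P
      obtain ⟨l, hl⟩ := hK c hc σ hσ
      obtain ⟨l', hl'⟩ := hK _ hc' τ hτ
      have h3 := (hs1 c hc P r hr hc' σ τ hσ hτ l l' hl hl').2
      rw [hμ c hc P σ hσ l hl, hμ _ hc' P τ hτ l' hl'] at h3
      have h4 : (e P τ * e P σ) * (μ c P - μ (c + Pi.single P r) P) = 0 := by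
        linear_combination h3
      rcases mul_eq_zero.1 h4 with h | h
      · exact absurd h (mul_ne_zero hτ0 hσ0)
      · exact sub_eq_zero.1 h
    · obtain ⟨σ, hσ, hσR, hσP⟩ := h2 c hc P R hPR
      have hσ' : G (c + Pi.single R r) σ = 0 := by
        rw [hGs, hσ, hσR, mul_zero, zero_smul, add_zero]
      obtain ⟨l, hl⟩ := hK c hc σ hσ
      obtain ⟨l', hl'⟩ := hK _ hc' σ hσ'
      have h3 : l' (b R) = 0 := by
        rw [hμ _ hc' R σ hσ' l' hl', hσR, mul_zero]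
      have h4 : ∀ i, l i = l' i := by
        intro i
        obtain ⟨ρ, hρ⟩ := hon c hc i
        rw [← hρ, ← hl, hl', hGs, map_add, map_smul, h3, smul_zero, add_zero]
      have h5 := h4 (b P)
      rw [hμ c hc P σ hσ l hl, hμ _ hc' P σ hσ' l' hl'] at h5
      exact mul_right_cancel₀ hσP h5
  -- (4)
  have hmu0 : ∀ c ∈ C, ∀ R, μ c R = 0 := by
    intro c hc R
    obtain ⟨r, hr, hc'⟩ := hs c hc R
    obtain ⟨σ, hσ, hσ0⟩ := h1 c hc R
    obtain ⟨τ, hτ, hτ0⟩ := h1 _ hc' R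
    obtain ⟨l, hl⟩ := hK c hc σ hσ
    obtain ⟨l', hl'⟩ := hK _ hc' τ hτ
    have h3 := (hs1 c hc R r hr hc' σ τ hσ hτ l l' hl hl').1
    have h4 : Θ τ σ = 0 := by
      have h5 : l' (G c σ) = l (G c τ) := by
        rw [hlG, hlG]
        refine Finset.sum_congr rfl fun P _ => ?_
        rw [hμ c hc P σ hσ l hl, hμ _ hc' P τ hτ l' hl', ← hmueq c hc R r hr hc' P]
        ring
      rw [hl, ← h5, hσ, map_zero]
    rw [h4, hμ c hc R σ hσ l hl] at h3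
    have h6 : (r * e R τ * e R σ) * μ c R = 0 := by linear_combination h3
    rcases mul_eq_zero.1 h6 with h | h
    · exact absurd h (mul_ne_zero (mul_ne_zero hr hτ0) hσ0)
    · exact h
  -- (5)
  have h5 : ∀ c ∈ C, ∀ σ, G c σ = 0 → ∀ ρ, Θ ρ σ = 0 := by
    intro c hc σ hσ ρ
    obtain ⟨l, hl⟩ := hK c hc σ hσ
    rw [hl, hlG]
    refine Finset.sum_eq_zero fun R _ => ?_
    rw [hμ c hc R σ hσ l hl, hmu0 c hc R, zero_mul, mul_zero]
  -- (6)
  intro ρ a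
  obtain ⟨c, hc⟩ := hC
  obtain ⟨l, hl⟩ := pl_fac (G c) (hon c hc) (Θ ρ) (fun σ hσ => h5 c hc σ hσ ρ)
  rw [hl, hlG]
  refine Finset.sum_eq_zero fun R _ => ?_
  obtain ⟨r, hr, hc'⟩ := hs c hc R
  obtain ⟨τ, hτ, hτ0⟩ := h1 _ hc' R
  have h6 := h5 _ hc' τ hτ ρ
  have e1 : G c τ = - ((r * e R τ) • b R) := by
    rw [hGs] at hτ
    exact eq_neg_of_add_eq_zero_left hτ
  rw [hl, e1, map_neg, map_smul, smul_eq_mul, neg_eq_zero] at h6
  rcases mul_eq_zero.1 h6 with h | h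
  · exact absurd h (mul_ne_zero hr hτ0)
  · rw [h, mul_zero]

end Pool.Agent.QC
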