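import Pool.Agent.QC.Defs

/-!
The form `Φ` is symmetric if one argument has its image in `II`.

Proofs.
* `phi_symm`: `ξ = ∑ P, res cls P ξ` (classes; or `ξ = ∑ x, ξ x • e_x`), so let `ξ = e_x`, `P = cls x`. As
  `vs v η ∈ VP k v cls P`, there is `η'` supported on `{z | cls z ≠ P}` with `vs v η' = vs v η`
  (`Submodule.span` of an image; `Finsupp.mem_span_image_iff_linearCombination` or
  `Submodule.span_induction`). Then `vs v (η - η') = 0`, so `Φ e_x η = Φ e_x η'` and `Φ η e_x = Φ η' e_x`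
  (`hΦ.left`, `hΦ.right`), and `Φ e_x η' = ∑_{z, cls z ≠ P} η' z Φ e_x e_z = ∑ η' z Φ e_z e_x = Φ η' e_x` by
  `hΦ.symm`.
* `quad_add`: `Φ (ξ+η) (ξ+η) = Φ ξ ξ + Φ ξ η + Φ η ξ + Φ η η` and `2 = 0`.
* `quad_sum`: induction with `quad_add` (the `vs v (f i)` are in `II`, so are their sums).
* `th_alt`: `Th_apply`; `quad_sum` for the `res cls P (row T j0 σ)`: by `hred` their images are in `II`; the
  sum of them is `row T j0 σ`, and `vs v (row T j0 σ) = psi v T σ j0 = 0`, so `Φ` vanishes there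
  (`hΦ.left`).
-/

set_option autoImplicit false

namespace Pool.Agent.QC

variable {k V S n : Type*} [Field k] [AddCommGroup V] [Module k V] [Fintype S]
  [DecidableEq S] [DecidableEq n] {q : ℕ}

private theorem exists_supp {v : S → V} {cls : S → n} {P : n} {w : V}
    (hw : w ∈ VP k v cls P) : ∃ η : S → k, (∀ z, cls z = P → η z = 0) ∧ vs v η = w := by
  unfold VP at hw
  induction hw using Submodule.span_induction with
  | mem x hx =>
    obtain ⟨z, hz, rfl⟩ := hx
    refine ⟨Pi.single z 1, fun y hy => ?_, ?_⟩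
    · have hne : y ≠ z := by
        rintro rfl
        exact hz hy
      rw [Pi.single_eq_of_ne hne]
    · rw [vs_apply, Finset.sum_eq_single z]
      · rw [Pi.single_eq_same, one_smul]
      · intro y _ hy
        rw [Pi.single_eq_of_ne hy, zero_smul]
      · intro h
        exact absurd (Finset.mem_univ z) h
  | zero => exact ⟨0, fun _ _ => rfl, map_zero _⟩
  | add a b _ _ ha hb =>
    obtain ⟨ηa, ha1, ha2⟩ := ha
    obtain ⟨ηb, hb1, hb2⟩ := hb
    refine ⟨ηa + ηb, fun z hz => ?_, ?_⟩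
    · rw [Pi.add_apply, ha1 z hz, hb1 z hz, add_zero]
    · rw [map_add, ha2, hb2]
  | smul c a _ ha =>
    obtain ⟨ηa, ha1, ha2⟩ := ha
    refine ⟨c • ηa, fun z hz => ?_, ?_⟩
    · rw [Pi.smul_apply, ha1 z hz, smul_zero]
    · rw [map_smul, ha2]

private theorem eq_sum_single (ξ : S → k) : ξ = ∑ x, ξ x • (Pi.single x 1 : S → k) := by
  funext y
  rw [Finset.sum_apply, Finset.sum_eq_single y]
  · simp
  · intro b _ hb
    rw [Pi.smul_apply, Pi.single_eq_of_ne (Ne.symm hb), smul_zero]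
  · intro h
    exact absurd (Finset.mem_univ y) h

private theorem phi_single {v : S → V} {cls : S → n} {Φ : (S → k) →ₗ[k] (S → k) →ₗ[k] k}
    (hΦ : HPhi v cls Φ) (x : S) (η : S → k) (hη : vs v η ∈ II k v cls) :
    Φ (Pi.single x 1) η = Φ η (Pi.single x 1) := by
  have h1 : vs v η ∈ VP k v cls (cls x) := (Submodule.mem_iInf _).1 hη (cls x)
  obtain ⟨η', h2, h3⟩ := exists_supp h1
  have h4 : vs v (η - η') = 0 := by rw [map_sub, h3, sub_self]
  have h5 : Φ (Pi.single x 1) η = Φ (Pi.single x 1) η' := by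
    have := hΦ.right (Pi.single x 1) (η - η') h4
    rwa [map_sub, sub_eq_zero] at this
  have h6 : Φ η (Pi.single x 1) = Φ η' (Pi.single x 1) := by
    have := hΦ.left (η - η') (Pi.single x 1) h4
    rwa [map_sub, LinearMap.sub_apply, sub_eq_zero] at this
  rw [h5, h6, eq_sum_single η', map_sum, map_sum, LinearMap.sum_apply]
  refine Finset.sum_congr rfl (fun z _ => ?_)
  rw [map_smul, map_smul, LinearMap.smul_apply]
  by_cases hz : cls z = cls x
  · rw [h2 z hz, zero_smul, zero_smul]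
  · rw [hΦ.symm x z (fun h => hz h.symm)]

theorem phi_symm {v : S → V} {cls : S → n} {Φ : (S → k) →ₗ[k] (S → k) →ₗ[k] k}
    (hΦ : HPhi v cls Φ) (ξ η : S → k) (hη : vs v η ∈ II k v cls) : Φ ξ η = Φ η ξ := by
  rw [eq_sum_single ξ, map_sum, map_sum, LinearMap.sum_apply]
  refine Finset.sum_congr rfl (fun x _ => ?_)
  rw [map_smul, map_smul, LinearMap.smul_apply, phi_single hΦ x η hη]

theorem quad_add [CharP k 2] {v : S → V} {cls : S → n}
    {Φ : (S → k) →ₗ[k] (S → k) →ₗ[k] k} (hΦ : HPhi v cls Φ) (ξ η : S → k)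
    (hη : vs v η ∈ II k v cls) : Φ (ξ + η) (ξ + η) = Φ ξ ξ + Φ η η := by
  have h := phi_symm hΦ ξ η hη
  rw [map_add, map_add, LinearMap.add_apply, LinearMap.add_apply, h]
  have h2 : Φ η ξ + Φ η ξ = 0 := CharTwo.add_self_eq_zero _
  linear_combination h2

theorem quad_sum [CharP k 2] {v : S → V} {cls : S → n}
    {Φ : (S → k) →ₗ[k] (S → k) →ₗ[k] k} (hΦ : HPhi v cls Φ) {ι : Type*} (s : Finset ι)
    (f : ι → S → k) (hf : ∀ i ∈ s, vs v (f i) ∈ II k v cls) :
    Φ (∑ i ∈ s, f i) (∑ i ∈ s, f i) = ∑ i ∈ s, Φ (f i) (f i) := by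
  classical
  induction s using Finset.induction_on with
  | empty => simp
  | insert a s ha ih =>
    rw [Finset.sum_insert ha, Finset.sum_insert ha, quad_add hΦ,
      ih (fun i hi => hf i (Finset.mem_insert_of_mem hi))]
    rw [map_sum]
    exact Submodule.sum_mem _ (fun i hi => hf i (Finset.mem_insert_of_mem hi))

theorem th_alt [CharP k 2] [Fintype n] {v : S → V} {cls : S → n}
    {Φ : (S → k) →ₗ[k] (S → k) →ₗ[k] k} (hΦ : HPhi v cls Φ) {T : S → Fin q → k}
    {j0 : Fin q} {σ : S → k} (h0 : psi v T σ j0 = 0)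
    (hred : ∀ P, psi v T (res cls P σ) j0 ∈ II k v cls) : Th Φ cls T j0 σ σ = 0 := by
  rw [Th_apply, ← quad_sum hΦ Finset.univ (fun P => res cls P (row T j0 σ))]
  · have h : ∑ P, res cls P (row T j0 σ) = row T j0 σ := by
      funext z
      rw [Finset.sum_apply]
      simp
    rw [h]
    exact hΦ.left _ _ h0
  · intro P _
    rw [res_row]
    exact hred P

end Pool.Agent.QC
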