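import Pool.Agent.QC.RedC
import Pool.Agent.QC.Sym
import Pool.Agent.QC.Peel

/-!
One row is removed with the peeling lemma.

`scale cls T j c` multiplies the row `j` of `T` on each class `R` by `c R`.

Proof of `peel_app`. Fix the good `T`, `τ` from `exists_tau` (`rep` from `hy.sur`), and
`b R := psi v T (res cls R (τ R)) j ∈ II` (`res_mem`), `A := AJ v cls T J`, `I := II k v cls` (as types),
`e R σ := σ (rep R)`, `C := {c | Good v cls (scale cls T j c)}`, `Θ` the restriction of `Th Φ cls T j0` to `A`.
For `σ ∈ A` and all `c`: `psi v (scale cls T j c) σ j = ∑ R, (c R * σ (rep R)) • b R` (as in `psi_tau`: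
`psi v (scale cls T j c) (res cls R σ) j = c R • psi v T (res cls R σ) j`), and the components `i ≠ j` of
`psi` are the same for `T` and `scale cls T j c`.
Write `Tc := scale cls T j c`.
* `C` is nonempty: `c = 1` (`scale cls T j 1 = T`).
* `hΘ`: `th_alt`; `hred`: by `red_res` there is `τ'` in the kernel with `res cls P τ' = res cls P σ`, then
  `res_mem`.
* `hon`: for `c ∈ C` and `i ∈ I` there is `σ` with `psi v Tc σ = Pi.single j i` (`psi_surj`). `σ ∈ A`: the components
  of `psi v T σ` other than `j` are those of `psi v Tc σ`, they are zero; and the component `j` is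
  `∑ R, psi v T (res cls R σ) j`, and by `red_res` for `Tc` there is `τ'` with `psi v Tc τ' = 0`,
  `res cls R τ' = res cls R σ`, so `c R • psi v T (res cls R σ) j = psi v Tc (res cls R τ') j ∈ II`
  (`res_mem` for `Tc`) and `c R ≠ 0` because `Tc (rep R) j = c R * T (rep R) j ≠ 0` (`Good`).
* `hz`: if `G c a = 0` for `a ∈ A` then `a ∈ AJ v cls Tc (insert j J)`; `h` for `Tc` gives
  `Th Φ cls Tc j0 a a' = 0` and `Th` depends only on the row `j0 ≠ j` of `Tc`, which is that of `T`.
* `h1`, `h2`: `good_exists` for `Tc` and the elements `rep R`, `rep P` (for `h1` another element from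
  `hy.ne`): a `σ` with `psi v Tc σ = 0` is in `A`: as before, `psi v T σ j = ∑ R, psi v T (res cls R σ) j` and
  `c R • psi v T (res cls R σ) j = psi v Tc (res cls R σ) j ∈ II` by `res_mem`; the others are zero.
* `hs`: `scale cls T j (c + Pi.single R r) = Tc + r • T'` with `T' z i = if i = j ∧ cls z = R then T z j else 0`;
  `exists_good_line`.
-/

set_option autoImplicit false

namespace Pool.Agent.QC

variable {k V S n : Type*} [Field k] [AddCommGroup V] [Module k V] [Fintype S]
  [DecidableEq S] [DecidableEq n] {q : ℕ}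

/-- Multiply the row `j` on the class `R` by `c R`. -/
def scale (cls : S → n) (T : S → Fin q → k) (j : Fin q) (c : n → k) : S → Fin q → k :=
  fun z i => if i = j then c (cls z) * T z i else T z i

omit [Fintype S] [DecidableEq S] [DecidableEq n] in
theorem scale_apply (cls : S → n) (T : S → Fin q → k) (j : Fin q) (c : n → k) (z : S)
    (i : Fin q) : scale cls T j c z i = if i = j then c (cls z) * T z i else T z i := rfl

omit [Fintype S] [DecidableEq S] [DecidableEq n] in
theorem row_scale_ne (cls : S → n) (T : S → Fin q → k) {j i : Fin q} (c : n → k) (h : i ≠ j) :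
    row (scale cls T j c) i = row T i := by
  refine LinearMap.ext fun σ => funext fun z => ?_
  rw [row_apply, row_apply, scale_apply, if_neg h]

omit [DecidableEq S] [DecidableEq n] in
theorem psi_scale_ne (v : S → V) (cls : S → n) (T : S → Fin q → k) {j i : Fin q} (c : n → k)
    (h : i ≠ j) (σ : S → k) : psi v (scale cls T j c) σ i = psi v T σ i := by
  rw [psi_apply, psi_apply, row_scale_ne cls T c h]

omit [DecidableEq S] in
theorem psi_scale_res (v : S → V) (cls : S → n) (T : S → Fin q → k) (j : Fin q) (c : n → k)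
    (R : n) (σ : S → k) :
    psi v (scale cls T j c) (res cls R σ) j = c R • psi v T (res cls R σ) j := by
  have h1 : row (scale cls T j c) j (res cls R σ) = c R • row T j (res cls R σ) := by
    funext z
    rw [Pi.smul_apply, row_apply, row_apply, scale_apply, if_pos rfl, res_apply, smul_eq_mul]
    by_cases hz : cls z = R
    · rw [hz]
      ring
    · rw [if_neg hz]
      ring
  rw [psi_apply, psi_apply, h1, map_smul]

omit [DecidableEq S] in
theorem psi_eq_sum_res [Fintype n] (v : S → V) (cls : S → n) (T : S → Fin q → k) (j : Fin q)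
    (σ : S → k) : psi v T σ j = ∑ R, psi v T (res cls R σ) j := by
  conv_lhs => rw [← sum_res cls σ]
  rw [map_sum, Finset.sum_apply]

omit [DecidableEq S] in
theorem psi_scale_sum [Fintype n] (v : S → V) (cls : S → n) (T : S → Fin q → k) (j : Fin q)
    (c : n → k) (σ : S → k) :
    psi v (scale cls T j c) σ j = ∑ R, c R • psi v T (res cls R σ) j := by
  rw [psi_eq_sum_res v cls (scale cls T j c) j σ]
  exact Finset.sum_congr rfl fun R _ => psi_scale_res v cls T j c R σ

theorem scale_ne_zero {v : S → V} {cls : S → n} {T : S → Fin q → k} {j : Fin q} {c : n → k}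
    (hc : Good v cls (scale cls T j c)) {rep : n → S} (hrep : ∀ P, cls (rep P) = P) (R : n) :
    c R ≠ 0 := by
  intro h
  apply hc.1 (rep R) j
  rw [scale_apply, if_pos rfl, hrep, h, zero_mul]

/-- If all the components of `psi v (scale cls T j c) σ` are in `II` then so are those of
`psi v T σ`. -/
theorem mem_II_of_scale [Infinite k] [Fintype n] {v : S → V} {cls : S → n}
    (hy : Hyp k v cls q) (j0 : Fin q) {T : S → Fin q → k} {j : Fin q} {c : n → k}
    (hc : Good v cls (scale cls T j c)) {rep : n → S} (hrep : ∀ P, cls (rep P) = P)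
    {σ : S → k} (h : ∀ i, psi v (scale cls T j c) σ i ∈ II k v cls) (i : Fin q) :
    psi v T σ i ∈ II k v cls := by
  by_cases hi : i = j
  · subst hi
    rw [psi_eq_sum_res v cls T i σ]
    refine Submodule.sum_mem _ fun R _ => ?_
    obtain ⟨τ', h1, h2⟩ := red_res hy j0 hc h R
    have h3 := res_mem (cls := cls) h1 R i
    rw [h2, psi_scale_res] at h3
    exact (Submodule.smul_mem_iff _ (scale_ne_zero hc hrep R)).1 h3
  · rw [← psi_scale_ne v cls T c hi]
    exact h i

theorem peel_app [Infinite k] [CharP k 2] [Fintype n] {v : S → V} {cls : S → n}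
    (hy : Hyp k v cls q) {Φ : (S → k) →ₗ[k] (S → k) →ₗ[k] k} (hΦ : HPhi v cls Φ)
    {j0 j : Fin q} {J : Finset (Fin q)} (h0 : j0 ∈ J) (hj : j ∉ J)
    (h : ∀ T : S → Fin q → k, Good v cls T → ∀ σ ∈ AJ v cls T (insert j J),
      ∀ σ' ∈ AJ v cls T (insert j J), Th Φ cls T j0 σ σ' = 0) :
    ∀ T : S → Fin q → k, Good v cls T → ∀ σ ∈ AJ v cls T J, ∀ σ' ∈ AJ v cls T J,
      Th Φ cls T j0 σ σ' = 0 := by
  classical
  intro T hT σ hσ σ' hσ'
  choose rep hrep using hy.sur
  obtain ⟨τ, ht⟩ := exists_tau hy j0 hT hrep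
  have hne : ∀ i ∈ J, i ≠ j := fun i hi h => hj (h ▸ hi)
  set A : Submodule k (S → k) := AJ v cls T J with hA
  have hAm : ∀ a : A, (∀ i ∈ J, psi v T a.1 i = 0) ∧ ∀ i, psi v T a.1 i ∈ II k v cls :=
    fun a => (mem_AJ v cls T J a.1).1 a.2
  set e : n → A →ₗ[k] k := fun R => (LinearMap.proj (rep R)) ∘ₗ A.subtype with he
  have hea : ∀ (R : n) (a : A), e R a = a.1 (rep R) := fun R a => rfl
  set b : n → II k v cls := fun R => ⟨psi v T (res cls R (τ R)) j, res_mem (ht.ker R) R j⟩ with hb
  have hba : ∀ R, ((b R : II k v cls) : V) = psi v T (res cls R (τ R)) j := fun R => rfl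
  have hG : ∀ (c : n → k) (a : A), ((∑ R, (c R * e R a) • b R : II k v cls) : V) =
      psi v (scale cls T j c) a.1 j := by
    intro c a
    rw [psi_scale_sum, AddSubmonoidClass.coe_finsetSum]
    refine Finset.sum_congr rfl fun R _ => ?_
    rw [Submodule.coe_smul, hba, hea, ht.red a.1 (hAm a).2 R, map_smul, Pi.smul_apply, smul_smul]
  have hG0 : ∀ (c : n → k) (a : A), ∑ R, (c R * e R a) • b R = 0 ↔
      psi v (scale cls T j c) a.1 j = 0 := by
    intro c a
    rw [← hG]
    exact ⟨fun h => by rw [h]; rfl, fun h => Subtype.ext h⟩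
  -- membership in `A`
  have hmem : ∀ c : n → k, Good v cls (scale cls T j c) → ∀ ρ : S → k,
      (∀ i ∈ J, psi v (scale cls T j c) ρ i = 0) →
      (∀ i, psi v (scale cls T j c) ρ i ∈ II k v cls) → ρ ∈ A := by
    intro c hc ρ h1 h2
    rw [hA, mem_AJ]
    refine ⟨fun i hi => ?_, mem_II_of_scale hy j0 hc hrep h2⟩
    rw [← psi_scale_ne v cls T c (hne i hi)]
    exact h1 i hi
  have hker : ∀ c : n → k, Good v cls (scale cls T j c) → ∀ ρ : S → k,
      psi v (scale cls T j c) ρ = 0 → ρ ∈ A := by
    intro c hc ρ h1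
    refine hmem c hc ρ (fun i _ => ?_) (fun i => ?_)
    · rw [h1, Pi.zero_apply]
    · rw [h1, Pi.zero_apply]
      exact zero_mem _
  have key := peel e b {c | Good v cls (scale cls T j c)} ?_
    ((Th Φ cls T j0).compl₁₂ A.subtype A.subtype) ?_ ?_ ?_ ?_ ?_ ?_ ⟨σ, hσ⟩ ⟨σ', hσ'⟩
  · exact key
  · -- nonempty
    refine ⟨1, ?_⟩
    have h1 : scale cls T j (1 : n → k) = T := by
      funext z i
      rw [scale_apply, Pi.one_apply, one_mul, ite_self]
    show Good v cls (scale cls T j 1)
    rw [h1]
    exact hT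
  · -- alternating
    intro a
    show Th Φ cls T j0 a.1 a.1 = 0
    refine th_alt hΦ ((hAm a).1 j0 h0) fun P => ?_
    obtain ⟨τ', h1, h2⟩ := red_res hy j0 hT (hAm a).2 P
    rw [← h2]
    exact res_mem h1 P j0
  · -- onto
    intro c hc i
    obtain ⟨ρ, hρ⟩ := psi_surj hy hc (Pi.single j (i : V))
    have hρA : ρ ∈ A := by
      refine hmem c hc ρ (fun i' hi' => ?_) (fun i' => ?_)
      · rw [hρ, Pi.single_eq_of_ne (hne i' hi')]
      · rw [hρ]
        by_cases h1 : i' = j
        · subst h1
          rw [Pi.single_eq_same]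
          exact i.2
        · rw [Pi.single_eq_of_ne h1]
          exact zero_mem _
    refine ⟨⟨ρ, hρA⟩, Subtype.ext ?_⟩
    rw [hG, hρ, Pi.single_eq_same]
  · -- hz
    intro c hc a a' ha ha'
    rw [hG0] at ha ha'
    have hin : ∀ a : A, psi v (scale cls T j c) a.1 j = 0 →
        a.1 ∈ AJ v cls (scale cls T j c) (insert j J) := by
      intro a ha
      rw [mem_AJ]
      refine ⟨fun i hi => ?_, fun i => ?_⟩
      · rcases Finset.mem_insert.1 hi with rfl | hi
        · exact ha
        · rw [psi_scale_ne v cls T c (hne i hi)]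
          exact (hAm a).1 i hi
      · by_cases h1 : i = j
        · subst h1
          rw [ha]
          exact zero_mem _
        · rw [psi_scale_ne v cls T c h1]
          exact (hAm a).2 i
    have h1 := h _ hc a.1 (hin a ha) a'.1 (hin a' ha')
    rw [Th_apply, row_scale_ne cls T c (hne j0 h0)] at h1
    show Th Φ cls T j0 a.1 a'.1 = 0
    rw [Th_apply]
    exact h1
  · -- h1
    intro c hc R
    obtain ⟨y, hyR⟩ := hy.ne (rep R)
    obtain ⟨ρ, h1, h2, -⟩ := good_exists hy hc (Ne.symm hyR) 1 0
    refine ⟨⟨ρ, hker c hc ρ h1⟩, (hG0 c _).2 ?_, ?_⟩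
    · show psi v (scale cls T j c) ρ j = 0
      rw [h1, Pi.zero_apply]
    · rw [hea]
      show ρ (rep R) ≠ 0
      rw [h2]
      exact one_ne_zero
  · -- h2
    intro c hc P R hPR
    have h3 : cls (rep P) ≠ cls (rep R) := by
      rw [hrep, hrep]
      exact hPR
    obtain ⟨ρ, h1, h2, h4⟩ := good_exists hy hc h3 1 0
    refine ⟨⟨ρ, hker c hc ρ h1⟩, (hG0 c _).2 ?_, ?_, ?_⟩
    · show psi v (scale cls T j c) ρ j = 0
      rw [h1, Pi.zero_apply]
    · exact h4
    · show ρ (rep P) ≠ 0
      rw [h2]
      exact one_ne_zero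
  · -- hs
    intro c hc R
    obtain ⟨r, hr, hgood⟩ := exists_good_line hc
      (fun z i => if i = j ∧ cls z = R then T z j else 0)
    refine ⟨r, hr, ?_⟩
    have h1 : scale cls T j (c + Pi.single R r) =
        scale cls T j c + r • (fun z i => if i = j ∧ cls z = R then T z j else 0) := by
      funext z i
      rw [Pi.add_apply, Pi.add_apply, Pi.smul_apply, Pi.smul_apply, scale_apply, scale_apply]
      by_cases hi : i = j
      · subst hi
        rw [if_pos rfl, if_pos rfl, Pi.add_apply]
        by_cases hz : cls z = R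
        · rw [hz, Pi.single_eq_same, if_pos ⟨rfl, rfl⟩, smul_eq_mul]
          ring
        · rw [Pi.single_eq_of_ne hz, if_neg (fun h' => hz h'.2), smul_zero]
          ring
      · rw [if_neg hi, if_neg hi, if_neg (fun h' => hi h'.1), smul_zero, add_zero]
    show Good v cls (scale cls T j (c + Pi.single R r))
    rw [h1]
    exact hgood

end Pool.Agent.QC
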