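import Pool.Agent.QC.StarT
import Pool.Agent.QC.PeelApp

/-!
`Th` vanishes on the elements of the reduced space for which the row `j0` vanishes.

Proof: descending induction over the finset `J ∋ j0` of the rows; `J = univ` is `star`
(`σ ∈ AJ v cls T univ` iff `psi v T σ = 0`), the step is `peel_app`.
-/

set_option autoImplicit false

namespace Pool.Agent.QC

variable {k V S n : Type*} [Field k] [AddCommGroup V] [Module k V] [Fintype S]
  [DecidableEq S] [DecidableEq n] [Fintype n] {q : ℕ}

theorem claim_all [Infinite k] [CharP k 2] {v : S → V} {cls : S → n}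
    (hy : Hyp k v cls q) {Φ δ : (S → k) →ₗ[k] (S → k) →ₗ[k] k} (hΦ : HPhi v cls Φ)
    {j0 : Fin q} (hc : HCls v Φ δ j0) (K : Finset (Fin q)) :
    j0 ∉ K → ∀ T : S → Fin q → k, Good v cls T → ∀ σ ∈ AJ v cls T Kᶜ,
      ∀ σ' ∈ AJ v cls T Kᶜ, Th Φ cls T j0 σ σ' = 0 := by
  induction K using Finset.induction_on with
  | empty =>
    intro _ T hT σ hσ σ' hσ'
    have e : ∀ τ : S → k, τ ∈ AJ v cls T (∅ : Finset (Fin q))ᶜ → psi v T τ = 0 := by
      intro τ hτ
      funext j
      exact hτ.1 j (by simp)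
    exact star hy hΦ hc hT (e σ hσ) (e σ' hσ')
  | insert j K hj ih =>
    intro h0
    have h1 : j0 ≠ j := fun h => h0 (by rw [h]; exact Finset.mem_insert_self _ _)
    have h2 : j0 ∉ K := fun h => h0 (Finset.mem_insert_of_mem h)
    have e : insert j (insert j K)ᶜ = Kᶜ := by
      ext i
      simp only [Finset.mem_insert, Finset.mem_compl]
      constructor
      · rintro (rfl | h)
        · exact hj
        · exact fun h' => h (Or.inr h')
      · intro h
        by_cases hi : i = j
        · exact Or.inl hi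
        · exact Or.inr (by tauto)
    refine peel_app hy hΦ (j0 := j0) (j := j) (J := (insert j K)ᶜ) (by simp [h1, h2])
      (by simp) ?_
    rw [e]
    exact ih h2

theorem claim1 [Infinite k] [CharP k 2] {v : S → V} {cls : S → n}
    (hy : Hyp k v cls q) {Φ δ : (S → k) →ₗ[k] (S → k) →ₗ[k] k} (hΦ : HPhi v cls Φ)
    {j0 : Fin q} (hc : HCls v Φ δ j0) {T : S → Fin q → k} (hT : Good v cls T)
    {σ σ' : S → k} (hσ : σ ∈ AJ v cls T {j0}) (hσ' : σ' ∈ AJ v cls T {j0}) :
    Th Φ cls T j0 σ σ' = 0 := by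
  have h := claim_all hy hΦ hc ({j0}ᶜ : Finset (Fin q)) (by simp) T hT
  rw [compl_compl] at h
  exact h σ hσ σ' hσ'

end Pool.Agent.QC
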