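import Mathlib

/-!
Definitions for the local lemma in characteristic two (problem MP_e6151a_ag). See `BLUEPRINT.md`.

`S` is a finite set, `v : S → V` vectors, `cls : S → n` a partition of `S` into classes, `Fin q` the
set of the colours (rows). A `T : S → Fin q → k` is a family of coefficients; `psi v T σ` has the
components `∑ z, T z j σ z v z`.
-/

set_option autoImplicit false

namespace Pool.Agent.QC

variable {k V S n : Type*} [Field k] [AddCommGroup V] [Module k V] [Fintype S]
  [DecidableEq S] [DecidableEq n] {q : ℕ}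

/-- The linear combination of the vectors `v z`. -/
def vs (v : S → V) : (S → k) →ₗ[k] V := Fintype.linearCombination k v

omit [DecidableEq S] in
theorem vs_apply (v : S → V) (σ : S → k) : vs v σ = ∑ z, σ z • v z := rfl

/-- Multiplication by the row `j` of `T`. -/
def row (T : S → Fin q → k) (j : Fin q) : (S → k) →ₗ[k] (S → k) where
  toFun σ z := T z j * σ z
  map_add' := by
    intro a b
    funext z
    simp [mul_add]
  map_smul' := by
    intro c a
    funext z
    simp [mul_left_comm]

omit [Fintype S] [DecidableEq S] in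
@[simp] theorem row_apply (T : S → Fin q → k) (j : Fin q) (σ : S → k) (z : S) :
    row T j σ z = T z j * σ z := rfl

/-- Restriction to the class `P`. -/
def res (cls : S → n) (P : n) : (S → k) →ₗ[k] (S → k) where
  toFun σ z := if cls z = P then σ z else 0
  map_add' := by
    intro a b
    funext z
    simp only [Pi.add_apply]
    split_ifs <;> simp
  map_smul' := by
    intro c a
    funext z
    simp only [Pi.smul_apply, RingHom.id_apply]
    split_ifs <;> simp

omit [Fintype S] [DecidableEq S] in
@[simp] theorem res_apply (cls : S → n) (P : n) (σ : S → k) (z : S) :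
    res cls P σ z = if cls z = P then σ z else 0 := rfl

omit [Fintype S] [DecidableEq S] in
theorem res_row (cls : S → n) (P : n) (T : S → Fin q → k) (j : Fin q) (σ : S → k) :
    res cls P (row T j σ) = row T j (res cls P σ) := by
  funext z
  simp only [res_apply, row_apply]
  split_ifs <;> simp

/-- The map `psi`. -/
def psi (v : S → V) (T : S → Fin q → k) : (S → k) →ₗ[k] (Fin q → V) :=
  LinearMap.pi (fun j => vs v ∘ₗ row T j)

omit [DecidableEq S] in
theorem psi_apply (v : S → V) (T : S → Fin q → k) (σ : S → k) (j : Fin q) :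
    psi v T σ j = vs v (row T j σ) := rfl

omit [DecidableEq S] in
theorem psi_eq_sum (v : S → V) (T : S → Fin q → k) (σ : S → k) (j : Fin q) :
    psi v T σ j = ∑ z, (T z j * σ z) • v z := rfl

/-- The span of the vectors outside the class `P`. -/
def VP (k : Type*) [Field k] [Module k V] (v : S → V) (cls : S → n) (P : n) : Submodule k V :=
  Submodule.span k (v '' {z | cls z ≠ P})

/-- The intersection of the `VP`. -/
def II (k : Type*) [Field k] [Module k V] (v : S → V) (cls : S → n) : Submodule k V :=
  ⨅ P, VP k v cls P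

/-- `S` without `x, y` is the union of the bases `{z | β z = j}` of `V`. -/
def IsSt (k : Type*) [Field k] [Module k V] (v : S → V) (x y : S) (β : S → Fin q) : Prop :=
  x ≠ y ∧ ∀ j, LinearIndepOn k v {z | z ≠ x ∧ z ≠ y ∧ β z = j} ∧
    Submodule.span k (v '' {z | z ≠ x ∧ z ≠ y ∧ β z = j}) = ⊤

/-- Standing hypotheses: two elements are in different classes iff there is a state
`(x, y; β)`. -/
structure Hyp (k : Type*) [Field k] [Module k V] (v : S → V) (cls : S → n) (q : ℕ) : Prop where
  nonempty : Nonempty S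
  sur : Function.Surjective cls
  st : ∀ x y, cls x ≠ cls y ↔ ∃ β : S → Fin q, IsSt k v x y β
  ne : ∀ x, ∃ y, cls y ≠ cls x

/-- The map `σ ↦ (σ x, σ y, psi v T σ)`. -/
def Xi (v : S → V) (x y : S) (T : S → Fin q → k) : (S → k) →ₗ[k] (k × k × (Fin q → V)) :=
  (LinearMap.proj x).prod ((LinearMap.proj y).prod (psi v T))

omit [DecidableEq S] in
theorem Xi_apply (v : S → V) (x y : S) (T : S → Fin q → k) (σ : S → k) :
    Xi v x y T σ = (σ x, σ y, psi v T σ) := rfl

/-- The determinant of `Xi` (after identification of the two spaces by `E`). -/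
noncomputable def DD (v : S → V) (E : (k × k × (Fin q → V)) ≃ₗ[k] (S → k)) (x y : S)
    (T : S → Fin q → k) : k :=
  LinearMap.det (E.toLinearMap ∘ₗ Xi v x y T)

/-- The coefficients belonging to a colouring. -/
def Tb (k : Type*) [Field k] (β : S → Fin q) : S → Fin q → k := fun z => Pi.single (β z) 1

omit [Fintype S] [DecidableEq S] in
theorem Tb_apply (β : S → Fin q) (z : S) (j : Fin q) :
    Tb k β z j = if β z = j then 1 else 0 := by
  unfold Tb
  rw [Pi.single_apply]
  by_cases h : j = β z
  · rw [if_pos h, if_pos h.symm]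
  · rw [if_neg h, if_neg (fun h' => h h'.symm)]

/-- Good coefficients. -/
def Good (v : S → V) (cls : S → n) (T : S → Fin q → k) : Prop :=
  (∀ z j, T z j ≠ 0) ∧ ∀ x y, cls x ≠ cls y → Function.Injective (Xi v x y T)

/-- The `σ` for which the components in `J` of `psi v T σ` vanish and all components are in
`II`. -/
def AJ (v : S → V) (cls : S → n) (T : S → Fin q → k) (J : Finset (Fin q)) :
    Submodule k (S → k) where
  carrier := {σ | (∀ j ∈ J, psi v T σ j = 0) ∧ ∀ j, psi v T σ j ∈ II k v cls}
  add_mem' := by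
    rintro a b ⟨ha, ha'⟩ ⟨hb, hb'⟩
    refine ⟨fun j hj => ?_, fun j => ?_⟩
    · rw [map_add, Pi.add_apply, ha j hj, hb j hj, add_zero]
    · rw [map_add, Pi.add_apply]
      exact add_mem (ha' j) (hb' j)
  zero_mem' := by
    refine ⟨fun j _ => ?_, fun j => ?_⟩
    · rw [map_zero, Pi.zero_apply]
    · rw [map_zero, Pi.zero_apply]
      exact zero_mem _
  smul_mem' := by
    rintro c a ⟨ha, ha'⟩
    refine ⟨fun j hj => ?_, fun j => ?_⟩
    · rw [map_smul, Pi.smul_apply, ha j hj, smul_zero]
    · rw [map_smul, Pi.smul_apply]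
      exact Submodule.smul_mem _ _ (ha' j)

omit [DecidableEq S] [DecidableEq n] in
theorem mem_AJ (v : S → V) (cls : S → n) (T : S → Fin q → k) (J : Finset (Fin q))
    (σ : S → k) : σ ∈ AJ v cls T J ↔ (∀ j ∈ J, psi v T σ j = 0) ∧
      ∀ j, psi v T σ j ∈ II k v cls := Iff.rfl

/-- The sum over the classes of `Φ` on the restrictions (of the row `j0`). -/
noncomputable def Th [Fintype n] (Φ : (S → k) →ₗ[k] (S → k) →ₗ[k] k) (cls : S → n)
    (T : S → Fin q → k) (j0 : Fin q) : (S → k) →ₗ[k] (S → k) →ₗ[k] k :=
  ∑ P, Φ.compl₁₂ (res cls P ∘ₗ row T j0) (res cls P ∘ₗ row T j0)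

omit [Fintype S] [DecidableEq S] in
theorem Th_apply [Fintype n] (Φ : (S → k) →ₗ[k] (S → k) →ₗ[k] k) (cls : S → n)
    (T : S → Fin q → k) (j0 : Fin q) (σ τ : S → k) :
    Th Φ cls T j0 σ τ = ∑ P, Φ (res cls P (row T j0 σ)) (res cls P (row T j0 τ)) := by
  simp [Th, LinearMap.sum_apply, LinearMap.compl₁₂_apply]

/-- The form `Φ` vanishes on relations and is symmetric on pairs in different classes. -/
structure HPhi (v : S → V) (cls : S → n) (Φ : (S → k) →ₗ[k] (S → k) →ₗ[k] k) : Prop where
  left : ∀ ξ η, vs v ξ = 0 → Φ ξ η = 0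
  right : ∀ ξ η, vs v η = 0 → Φ ξ η = 0
  symm : ∀ x y, cls x ≠ cls y →
    Φ (Pi.single x 1) (Pi.single y 1) = Φ (Pi.single y 1) (Pi.single x 1)

/-- The class property of `Φ` with respect to the alternating form `δ`: for every colouring `β`
there is a constant `c` with `Φ = c δ` on the pairs `x, y` of colour `j0` for which `β` is a
state. -/
structure HCls (v : S → V) (Φ δ : (S → k) →ₗ[k] (S → k) →ₗ[k] k) {q : ℕ} (j0 : Fin q) :
    Prop where
  alt : ∀ ξ, δ ξ ξ = 0
  left : ∀ ξ η, vs v ξ = 0 → δ ξ η = 0
  cls : ∀ β : S → Fin q, ∃ c : k, ∀ x y, β x = j0 → β y = j0 → IsSt k v x y β →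
    Φ (Pi.single x 1) (Pi.single y 1) = c * δ (Pi.single x 1) (Pi.single y 1)

end Pool.Agent.QC
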