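import Mathlib

/-!
Injectivity (and surjectivity) are open conditions on a line.

Proofs.
* `inj_line`: `A` has a linear left inverse `L` (`LinearMap.exists_leftInverse_of_injective`). With a
  basis of `X` (`Module.finBasis`) let `M₀, M₁` be the matrices of `L ∘ A = id` and `L ∘ B`;
  `p(r) = det (M₀ + r M₁)` is the value at `r` of the polynomial `det (M₀.map C + X • M₁.map C)`
  (`RingHom.map_det`, `Polynomial.evalRingHom`), `p(0) = det 1 = 1`, so `p` has finitely many roots
  (`Polynomial.finite_setOf_isRoot` or `Polynomial.rootSet`/`roots`). If `A + r B` is not injective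
  then `L ∘ (A + r B)` is not injective, so its determinant is zero and `p(r) = 0`.
* `span_line`: there is a subfamily `z : Fin m → Z`, `m = finrank I`, with `a ∘ z` a basis of `I`
  (`Submodule.exists_fun_fin_finrank_span_eq` or `exists_linearIndependent`); apply `inj_line` to
  `A = Fintype.linearCombination k (a ∘ z)` and `B = Fintype.linearCombination k (b ∘ z)`
  (`Fin m → k` to `I`): if `A + r B` is injective then the `m` vectors `a (z i) + r • b (z i)` are
  linearly independent, so they span `I` (`LinearIndependent.span_eq_top_of_card_eq_finrank'`).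
-/

set_option autoImplicit false

namespace Pool.Agent.QC

theorem inj_line {k X Y : Type*} [Field k] [AddCommGroup X] [Module k X] [AddCommGroup Y]
    [Module k Y] [FiniteDimensional k X] (A B : X →ₗ[k] Y) (hA : Function.Injective A) :
    {r : k | ¬ Function.Injective (A + r • B)}.Finite := by
  obtain ⟨L, hL⟩ := LinearMap.exists_leftInverse_of_injective A (LinearMap.ker_eq_bot.2 hA)
  let b := Module.finBasis k X
  let M₁ : Matrix (Fin (Module.finrank k X)) (Fin (Module.finrank k X)) k :=
    LinearMap.toMatrix b b (L ∘ₗ B)
  let p : Polynomial k := ((1 : Matrix (Fin (Module.finrank k X)) (Fin (Module.finrank k X))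
    (Polynomial k)) + (Polynomial.X : Polynomial k) • M₁.map Polynomial.C).det
  have hp : ∀ r : k, p.eval r = (1 + r • M₁).det := by
    intro r
    show (Polynomial.evalRingHom r) p = _
    rw [RingHom.map_det]
    congr 1
    ext i j
    simp [Matrix.one_apply, apply_ite]
    exact mul_comm _ _
  have hp0 : p ≠ 0 := by
    intro h
    have h1 := hp 0
    rw [h, zero_smul, add_zero, Matrix.det_one, Polynomial.eval_zero] at h1
    exact zero_ne_one h1
  refine (Polynomial.finite_setOfPred_isRoot hp0).subset ?_
  intro r hr
  show p.eval r = 0
  rw [hp]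
  by_contra hne
  apply hr
  have h1 : LinearMap.toMatrix b b (L ∘ₗ (A + r • B)) = 1 + r • M₁ := by
    rw [LinearMap.comp_add, hL, LinearMap.comp_smul, map_add, map_smul, LinearMap.toMatrix_id]
  have h2 : LinearMap.det (L ∘ₗ (A + r • B)) ≠ 0 := by
    rw [← LinearMap.det_toMatrix b, h1]
    exact hne
  have h3 : Function.Injective (L ∘ₗ (A + r • B)) := by
    have h4 : IsUnit (L ∘ₗ (A + r • B)) := by
      rw [LinearMap.isUnit_iff_isUnit_det]
      exact isUnit_iff_ne_zero.2 h2
    exact ((Module.End.isUnit_iff _).1 h4).1
  rw [LinearMap.coe_comp] at h3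
  exact Function.Injective.of_comp h3

theorem span_line {k I Z : Type*} [Field k] [AddCommGroup I] [Module k I]
    [FiniteDimensional k I] [Finite Z] (a b : Z → I)
    (ha : Submodule.span k (Set.range a) = ⊤) :
    {r : k | ¬ Submodule.span k (Set.range (fun z => a z + r • b z)) = ⊤}.Finite := by
  classical
  obtain ⟨s, hs1, hs2, hs3⟩ := exists_linearIndependent k (Set.range a)
  have hsf : s.Finite := (Set.finite_range a).subset hs1
  have : Fintype s := hsf.fintype
  have hz : ∀ x : s, ∃ z, a z = x := fun x => hs1 x.2
  choose z hz using hz
  have hcard : Fintype.card s = Module.finrank k I := by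
    have h1 : Submodule.span k (Set.range (fun x : s => (x : I))) = ⊤ := by
      rw [Subtype.range_coe, hs2, ha]
    exact (Module.finrank_eq_card_basis (Module.Basis.mk hs3 h1.ge)).symm
  let A : (s → k) →ₗ[k] I := Fintype.linearCombination k (fun x : s => a (z x))
  let B : (s → k) →ₗ[k] I := Fintype.linearCombination k (fun x : s => b (z x))
  have hA : Function.Injective A := by
    rw [← LinearMap.ker_eq_bot]
    have h1 : LinearIndependent k (fun x : s => a (z x)) := by
      have : (fun x : s => a (z x)) = fun x : s => (x : I) := funext hz
      rw [this]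
      exact hs3
    rw [linearIndependent_iff_injective_fintypeLinearCombination] at h1
    exact LinearMap.ker_eq_bot.2 h1
  refine (inj_line A B hA).subset ?_
  intro r hr hinj
  apply hr
  have h1 : LinearIndependent k (fun x : s => a (z x) + r • b (z x)) := by
    rw [linearIndependent_iff_injective_fintypeLinearCombination]
    have e : Fintype.linearCombination k (fun x : s => a (z x) + r • b (z x)) = A + r • B := by
      refine LinearMap.ext fun c => ?_
      simp only [A, B, Fintype.linearCombination_apply, LinearMap.add_apply,
        LinearMap.smul_apply, Finset.smul_sum]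
      rw [← Finset.sum_add_distrib]
      refine Finset.sum_congr rfl fun x _ => ?_
      rw [smul_add, smul_comm]
    rw [e]
    exact hinj
  have h2 := h1.span_eq_top_of_card_eq_finrank' hcard
  rw [eq_top_iff, ← h2]
  refine Submodule.span_mono ?_
  rintro _ ⟨x, rfl⟩
  exact ⟨z x, rfl⟩

end Pool.Agent.QC
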