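import Pool.Agent.QC.XiB
import Pool.Agent.QC.InjLine

/-!
Good coefficients form a nonempty set which is open on lines.

Proofs.
* `good_line`: the bad `r` are in the finite union of the sets `{r | T z j + r * T' z j = 0}` (at most
  one element, as `T z j ≠ 0`) and `{r | ¬ Injective (Xi v x y (T + r • T'))}` for the pairs
  `cls x ≠ cls y`; the latter is finite by `inj_line`, because
  `Xi v x y (T + r • T') = Xi v x y T + r • B` with `B σ = (0, 0, psi v T' σ)`.
* `open_inter`: on the line `T1 + r • (T2 - T1)` the predicate `p` holds for all but finitely many `r`, and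
  `p'` holds too (`T1 + r • (T2 - T1) = T2 + (r - 1) • (T2 - T1)`); `k` is infinite, so both hold for some
  `r`. That the conjunction is open is clear (finite union).
* `exists_good`: the conditions `T z j ≠ 0` (`z`, `j`) and `Injective (Xi v x y T)` (`cls x ≠ cls y`) are
  finitely many; each is open (see `good_line`) and each is satisfiable: the first by the constant
  function `1`, the second by `Tb k β` for a state `β` (`hy.st`, `xi_Tb_bij`). Induct over the finite
  index set with `open_inter`.
-/

set_option autoImplicit false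

namespace Pool.Agent.QC

/-- Open on lines. -/
def LOpen {k W : Type*} [Field k] [AddCommGroup W] [Module k W] (p : W → Prop) : Prop :=
  ∀ T, p T → ∀ T' : W, {r : k | ¬ p (T + r • T')}.Finite

theorem open_inter {k W : Type*} [Field k] [Infinite k] [AddCommGroup W] [Module k W]
    {p p' : W → Prop} (h : LOpen (k := k) p) (h' : LOpen (k := k) p') :
    LOpen (k := k) (fun T => p T ∧ p' T) ∧
      ((∃ T, p T) → (∃ T, p' T) → ∃ T, p T ∧ p' T) := by
  refine ⟨?_, ?_⟩
  · rintro T ⟨h1, h2⟩ T'
    refine ((h T h1 T').union (h' T h2 T')).subset ?_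
    intro r hr
    simp only [Set.mem_ofPred_eq, Set.mem_union] at hr ⊢
    by_contra hc
    rw [not_or, not_not, not_not] at hc
    exact hr hc
  · rintro ⟨T1, h1⟩ ⟨T2, h2⟩
    have f1 := h T1 h1 (T2 - T1)
    have f2 := h' T2 h2 (T2 - T1)
    have f3 : {r : k | ¬ p' (T1 + r • (T2 - T1))}.Finite := by
      have h3 : {r : k | ¬ p' (T1 + r • (T2 - T1))} =
          (fun r : k => r - 1) ⁻¹' {r : k | ¬ p' (T2 + r • (T2 - T1))} := by
        ext r
        simp only [Set.mem_ofPred_eq, Set.mem_preimage]
        have h4 : T2 + (r - 1) • (T2 - T1) = T1 + r • (T2 - T1) := by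
          rw [sub_smul, one_smul]; abel
        rw [h4]
      rw [h3]
      exact f2.preimage (sub_left_injective.injOn)
    obtain ⟨r, hr⟩ := (f1.union f3).infinite_compl.nonempty
    simp only [Set.mem_compl_iff, Set.mem_union, Set.mem_ofPred_eq, not_or, not_not] at hr
    exact ⟨_, hr.1, hr.2⟩

private theorem open_all {k W ι : Type*} [Field k] [Infinite k] [AddCommGroup W] [Module k W]
    {p : ι → W → Prop} (h : ∀ i, LOpen (k := k) (p i)) (hs : ∀ i, ∃ T, p i T) (F : Finset ι) :
    LOpen (k := k) (fun T => ∀ i ∈ F, p i T) ∧ ∃ T, ∀ i ∈ F, p i T := by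
  classical
  induction F using Finset.induction_on with
  | empty =>
    refine ⟨?_, 0, fun i hi => absurd hi (Finset.notMem_empty i)⟩
    intro T _ T'
    convert Set.finite_empty
    ext r
    simp
  | insert a F ha ih =>
    have h1 := open_inter (k := k) (h a) ih.1
    have h2 := h1.2 (hs a) ih.2
    refine ⟨?_, ?_⟩
    · have h3 : (fun T => ∀ i ∈ insert a F, p i T) = fun T => p a T ∧ ∀ i ∈ F, p i T := by
        funext T
        simp only [Finset.mem_insert, forall_eq_or_imp]
      rw [h3]
      exact h1.1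
    · obtain ⟨T, hT⟩ := h2
      exact ⟨T, by simpa only [Finset.mem_insert, forall_eq_or_imp] using hT⟩

variable {k V S n : Type*} [Field k] [AddCommGroup V] [Module k V] [Fintype S]
  [DecidableEq S] [DecidableEq n] {q : ℕ}

omit [Fintype S] [DecidableEq S] in
private theorem open1 (a : S × Fin q) :
    LOpen (k := k) (fun T : S → Fin q → k => T a.1 a.2 ≠ 0) := by
  intro T hT T'
  refine (Set.finite_singleton (-(T a.1 a.2) / T' a.1 a.2)).subset ?_
  intro r hr
  simp only [Set.mem_ofPred_eq, not_not, Pi.add_apply, Pi.smul_apply, smul_eq_mul] at hr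
  rw [Set.mem_singleton_iff]
  have hT' : T' a.1 a.2 ≠ 0 := by
    intro h
    rw [h, mul_zero, add_zero] at hr
    exact hT hr
  rw [eq_div_iff hT']
  linear_combination hr

omit [DecidableEq S] [DecidableEq n] in
private theorem open2 (v : S → V) (cls : S → n) (a : S × S) :
    LOpen (k := k) (fun T : S → Fin q → k => cls a.1 ≠ cls a.2 →
      Function.Injective (Xi v a.1 a.2 T)) := by
  intro T hT T'
  by_cases hne : cls a.1 ≠ cls a.2
  · have h1 := inj_line (Xi v a.1 a.2 T)
      ((0 : (S → k) →ₗ[k] k).prod ((0 : (S → k) →ₗ[k] k).prod (psi v T'))) (hT hne)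
    refine h1.subset ?_
    intro r hr
    simp only [Set.mem_ofPred_eq] at hr ⊢
    intro hi
    apply hr
    intro _
    have h2 : Xi v a.1 a.2 (T + r • T') = Xi v a.1 a.2 T +
        r • ((0 : (S → k) →ₗ[k] k).prod ((0 : (S → k) →ₗ[k] k).prod (psi v T'))) := by
      apply LinearMap.ext
      intro σ
      rw [LinearMap.add_apply, LinearMap.smul_apply, Xi_apply, Xi_apply]
      refine Prod.ext ?_ (Prod.ext ?_ ?_)
      · simp
      · simp
      · funext j
        show psi v (T + r • T') σ j = psi v T σ j + r • psi v T' σ j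
        rw [psi_eq_sum, psi_eq_sum, psi_eq_sum, Finset.smul_sum, ← Finset.sum_add_distrib]
        refine Finset.sum_congr rfl fun z _ => ?_
        rw [Pi.add_apply, Pi.add_apply, Pi.smul_apply, Pi.smul_apply, smul_eq_mul, smul_smul,
          ← add_smul]
        congr 1
        ring
    rw [h2]
    exact hi
  · convert Set.finite_empty
    ext r
    simp only [Set.mem_ofPred_eq, Set.mem_empty_iff_false, iff_false, not_not]
    exact fun h => absurd h hne

theorem good_line {v : S → V} {cls : S → n} {T : S → Fin q → k}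
    (hG : Good v cls T) (T' : S → Fin q → k) :
    {r : k | ¬ Good v cls (T + r • T')}.Finite := by
  have h1 : (⋃ a : S × Fin q, {r : k | ¬ (T + r • T') a.1 a.2 ≠ 0}).Finite :=
    Set.finite_iUnion fun a => open1 a T (hG.1 a.1 a.2) T'
  have h2 : (⋃ a : S × S, {r : k | ¬ (cls a.1 ≠ cls a.2 →
      Function.Injective (Xi v a.1 a.2 (T + r • T')))}).Finite :=
    Set.finite_iUnion fun a => open2 v cls a T (hG.2 a.1 a.2) T'
  refine (h1.union h2).subset ?_
  intro r hr
  by_contra hc
  rw [Set.mem_union, not_or, Set.mem_iUnion, Set.mem_iUnion, not_exists, not_exists] at hc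
  apply hr
  refine ⟨fun z j => ?_, fun x y => ?_⟩
  · have h3 := hc.1 (z, j)
    simp only [Set.mem_ofPred_eq, not_not] at h3
    exact h3
  · have h3 := hc.2 (x, y)
    simp only [Set.mem_ofPred_eq, not_not] at h3
    exact h3

theorem exists_good [Infinite k] {v : S → V} {cls : S → n} (hy : Hyp k v cls q) :
    ∃ T : S → Fin q → k, Good v cls T := by
  have h1 := open_all (k := k) (fun a : S × Fin q => open1 (k := k) a)
    (fun a => ⟨fun _ _ => 1, one_ne_zero⟩) Finset.univ
  have h2 := open_all (k := k) (fun a : S × S => open2 (k := k) (q := q) v cls a)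
    (fun a => by
      by_cases hne : cls a.1 ≠ cls a.2
      · obtain ⟨β, hβ⟩ := (hy.st a.1 a.2).1 hne
        exact ⟨Tb k β, fun _ => ((xi_Tb_bij v a.1 a.2 β).2 hβ).1⟩
      · exact ⟨fun _ _ => 1, fun h => absurd h hne⟩) Finset.univ
  obtain ⟨T, hT1, hT2⟩ := (open_inter (k := k) h1.1 h2.1).2 h1.2 h2.2
  exact ⟨T, fun z j => hT1 (z, j) (Finset.mem_univ _),
    fun x y => hT2 (x, y) (Finset.mem_univ _)⟩

/-- Some `r ≠ 0` is good. -/
theorem exists_good_line [Infinite k] {v : S → V} {cls : S → n} {T : S → Fin q → k}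
    (hG : Good v cls T) (T' : S → Fin q → k) :
    ∃ r : k, r ≠ 0 ∧ Good v cls (T + r • T') := by
  have h1 := ((good_line hG T').union (Set.finite_singleton (0 : k))).infinite_compl
  obtain ⟨r, hr⟩ := h1.nonempty
  simp only [Set.mem_compl_iff, Set.mem_union, Set.mem_singleton_iff, not_or] at hr
  exact ⟨r, hr.2, by simpa using hr.1⟩

end Pool.Agent.QC
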