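import Pool.Agent.QC.Struct
import Pool.Agent.QC.GoodLine

/-!
Extension from a class.

Proofs. Let `U` be the submodule of the `u : Fin q → V` of the form `psi v T σ`, `σ` supported outside `P`
(i.e. `∀ z, cls z = P → σ z = 0`; it is the image of a submodule, `Submodule.map`).
* `tight_step`: let `cls z ≠ P`, `w : Fin q → k`. By `exists_good_line` with
  `T' = Pi.single z w` (`T + r • T'` differs from `T` only at `z`) there is `r ≠ 0` such that
  `T1 := T + r • T'` is good. For `T2 ∈ {T, T1}` take `x` with `cls x = P` (`hy.sur`) and `σ2` with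
  `psi v T2 σ2 = 0`, `σ2 x = 0`, `σ2 z = 1` (`good_exists`). By `good_prop` for `σ2` and some `σ'` with
  `σ' x = 1`, `psi v T2 σ' = 0` (`good_exists` again): `σ2 z' = σ2 z' * σ' x = σ2 x * σ' z' = 0` for all
  `z'` of class `P`. So `σ2` is supported outside `P`. Then `τ := σ1 - σ0` (`σ1` for `T1`, `σ0` for `T`) is
  supported outside `P`, zero at `z`, and `psi v T σ0 = 0`,
  `0 = psi v T1 σ1 = psi v T σ1 + r • (fun j => w j • v z)`; so
  `psi v T (-(r⁻¹) • σ1) = fun j => w j • v z`, with `-(r⁻¹) • σ1` supported outside `P`.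
  (So `σ0` is not needed.)
* `ext_off`: every `u` with `u j ∈ VP k v cls P` for all `j` is in `U`: `u = ∑ j, Pi.single j (u j)`, so it is
  enough that `Pi.single j a ∈ U` for `a ∈ VP` (`Submodule.span_induction`; for the generators
  `tight_step` with `w = Pi.single j 1`).
* `ext_class`: apply `ext_off` to `- psi v T (res cls P ρ)`: `psi v T σ' = - psi v T (res cls P ρ)` with `σ'`
  supported outside `P`; `σ := res cls P ρ + σ'`.
-/

set_option autoImplicit false

namespace Pool.Agent.QC

variable {k V S n : Type*} [Field k] [AddCommGroup V] [Module k V] [Fintype S]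
  [DecidableEq S] [DecidableEq n] {q : ℕ}

private theorem off_exists {v : S → V} {cls : S → n} (hy : Hyp k v cls q) (j0 : Fin q)
    {T : S → Fin q → k} (hG : Good v cls T) (P : n) {z : S} (hz : cls z ≠ P) :
    ∃ σ : S → k, psi v T σ = 0 ∧ (∀ z', cls z' = P → σ z' = 0) ∧ σ z = 1 := by
  obtain ⟨x, hx⟩ := hy.sur P
  have hxz : cls x ≠ cls z := by
    rw [hx]
    exact hz.symm
  obtain ⟨σ, h1, h2, h3⟩ := good_exists hy hG hxz 0 1
  obtain ⟨σ', h1', h2', -⟩ := good_exists hy hG hxz 1 0
  refine ⟨σ, h1, fun z' hz' => ?_, h3⟩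
  have h4 := good_prop hy j0 hG (x := x) (y := z') (by rw [hx, hz']) h1 h1'
  rw [h2, h2', zero_mul, mul_one] at h4
  exact h4.symm

theorem tight_step [Infinite k] {v : S → V} {cls : S → n} (hy : Hyp k v cls q) (j0 : Fin q)
    {T : S → Fin q → k} (hG : Good v cls T) (P : n) {z : S} (hz : cls z ≠ P)
    (w : Fin q → k) :
    ∃ σ : S → k, (∀ z', cls z' = P → σ z' = 0) ∧ psi v T σ = fun j => w j • v z := by
  obtain ⟨r, hr, hG1⟩ := exists_good_line hG (Pi.single z w)
  obtain ⟨σ, h1, h2, h3⟩ := off_exists hy j0 hG1 P hz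
  refine ⟨-(r⁻¹) • σ, fun z' hz' => ?_, ?_⟩
  · rw [Pi.smul_apply, h2 z' hz', smul_zero]
  · have h4 : ∀ j, psi v T σ j + r • (w j • v z) = 0 := by
      intro j
      have h5 := congrFun h1 j
      rw [psi_eq_sum, Pi.zero_apply] at h5
      rw [← h5, psi_eq_sum]
      have h6 : ∀ z', ((T + r • (Pi.single z w : S → Fin q → k)) z' j * σ z') • v z' =
          (T z' j * σ z') • v z' + (if z' = z then r • (w j • v z) else 0) := by
        intro z'
        rw [Pi.add_apply, Pi.smul_apply, Pi.add_apply, Pi.smul_apply]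
        by_cases hzz : z' = z
        · subst hzz
          rw [Pi.single_eq_same, if_pos rfl, h3, mul_one, mul_one, add_smul, smul_eq_mul,
            mul_smul]
        · rw [Pi.single_eq_of_ne hzz, if_neg hzz, Pi.zero_apply, smul_zero, add_zero, add_zero]
      rw [Finset.sum_congr rfl (fun z' _ => h6 z'), Finset.sum_add_distrib,
        Finset.sum_ite_eq' Finset.univ z]
      simp
    funext j
    rw [map_smul, Pi.smul_apply]
    have h7 : psi v T σ j = -(r • (w j • v z)) := eq_neg_of_add_eq_zero_left (h4 j)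
    rw [h7, neg_smul, smul_neg, neg_neg, smul_smul, inv_mul_cancel₀ hr, one_smul]

theorem ext_off [Infinite k] {v : S → V} {cls : S → n} (hy : Hyp k v cls q) (j0 : Fin q)
    {T : S → Fin q → k} (hG : Good v cls T) (P : n) (u : Fin q → V)
    (hu : ∀ j, u j ∈ VP k v cls P) :
    ∃ σ : S → k, (∀ z', cls z' = P → σ z' = 0) ∧ psi v T σ = u := by
  obtain ⟨W, hW⟩ : ∃ W : Submodule k (S → k), W =
      { carrier := {σ | ∀ z', cls z' = P → σ z' = 0}
        add_mem' := by
          intro a b ha hb z' hz'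
          rw [Pi.add_apply, ha z' hz', hb z' hz', add_zero]
        zero_mem' := fun _ _ => rfl
        smul_mem' := by
          intro c a ha z' hz'
          rw [Pi.smul_apply, ha z' hz', smul_zero] } := ⟨_, rfl⟩
  have hmem : ∀ σ, σ ∈ W ↔ ∀ z', cls z' = P → σ z' = 0 := by
    intro σ
    rw [hW]
    rfl
  have hsing : ∀ a ∈ VP k v cls P, ∀ j, (Pi.single j a : Fin q → V) ∈ W.map (psi v T) := by
    intro a ha j
    unfold VP at ha
    induction ha using Submodule.span_induction with
    | mem a ha =>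
      obtain ⟨z, hz, rfl⟩ := ha
      obtain ⟨σ, h1, h2⟩ := tight_step hy j0 hG P hz (Pi.single j 1)
      refine ⟨σ, (hmem σ).2 h1, ?_⟩
      rw [h2]
      funext j'
      by_cases hj : j' = j
      · subst hj
        rw [Pi.single_eq_same, Pi.single_eq_same, one_smul]
      · rw [Pi.single_eq_of_ne hj, Pi.single_eq_of_ne hj, zero_smul]
    | zero =>
      rw [Pi.single_zero]
      exact zero_mem _
    | add a b _ _ ha hb =>
      rw [Pi.single_add]
      exact add_mem ha hb
    | smul c a _ ha =>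
      rw [Pi.single_smul]
      exact Submodule.smul_mem _ _ ha
  have hu' : u ∈ W.map (psi v T) := by
    have h1 : u = ∑ j, Pi.single j (u j) := (Finset.univ_sum_single u).symm
    rw [h1]
    exact Submodule.sum_mem _ fun j _ => hsing (u j) (hu j) j
  obtain ⟨σ, h1, h2⟩ := hu'
  exact ⟨σ, (hmem σ).1 h1, h2⟩

theorem ext_class [Infinite k] {v : S → V} {cls : S → n} (hy : Hyp k v cls q) (j0 : Fin q)
    {T : S → Fin q → k} (hG : Good v cls T) (P : n) (ρ : S → k)
    (h : ∀ j, psi v T (res cls P ρ) j ∈ VP k v cls P) :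
    ∃ σ, psi v T σ = 0 ∧ res cls P σ = res cls P ρ := by
  obtain ⟨σ, h1, h2⟩ := ext_off hy j0 hG P (-(psi v T (res cls P ρ)))
    (fun j => by
      rw [Pi.neg_apply]
      exact neg_mem (h j))
  refine ⟨res cls P ρ + σ, ?_, ?_⟩
  · rw [map_add, h2, add_neg_cancel]
  · funext z
    rw [res_apply, res_apply]
    by_cases hz : cls z = P
    · rw [if_pos hz, if_pos hz, Pi.add_apply, res_apply, if_pos hz, h1 z hz, add_zero]
    · rw [if_neg hz, if_neg hz]

end Pool.Agent.QC
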