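import Pool.Agent.QC.Defs

/-!
The 2×2 minors of the kernel of `psi v T` are proportional to the determinants `DD`.

Proof. If `s, s'` are linearly dependent (`s = 0` or `s' = c • s`) then both brackets are zero. Let them
be linearly independent. Then there is a linear equivalence
`W : (k × k × (Fin q → V)) ≃ₗ[k] (S → k)` with `W (1, 0, 0) = s`, `W (0, 1, 0) = s'` (e.g. take a
complement `C` of the span of `s, s'` in `S → k`; it has the same dimension as `Fin q → V`, as
`E` gives `card S = 2 + finrank (Fin q → V)`; or extend to a basis). For all `x, y`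
the endomorphism `Xi v x y T ∘ W` of `k × k × (Fin q → V)` is
`(a, b, u) ↦ (a s x + b s' x + .., a s y + b s' y + .., ψ (W (0, 0, u)))`, because `psi v T` vanishes on
`s, s'`: it is block triangular, so its determinant is `(s x * s' y - s y * s' x) * d`, where `d` is the
determinant of `u ↦ psi v T (W (0, 0, u))`, which does not depend on `x, y`
(matrix with respect to a basis of `k × k × Y`; `Matrix.det_fromBlocks_zero₂₁`, `Matrix.det_fin_two`).
As `det (E ∘ Xi x y) * det (W ∘ E⁻¹) = det (E ∘ Xi x y ∘ W ∘ E⁻¹) = det (Xi x y ∘ W)`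
(`LinearMap.det_conj`, `LinearMap.det_comp`), with `w = det (W ∘ E⁻¹) ≠ 0`:
`DD x y T * w = (s x * s' y - s y * s' x) * d` for all `x, y`. The claim follows (multiply it by `w`).

The finite dimension of `V` is not needed as a hypothesis: `E` gives it.
-/

set_option autoImplicit false

namespace Pool.Agent.QC

variable {k V S : Type*} [Field k] [AddCommGroup V] [Module k V] [Fintype S]
  [DecidableEq S] {q : ℕ}

private theorem kermin_aux (v : S → V) (E : (k × k × (Fin q → V)) ≃ₗ[k] (S → k)) (x y x0 y0 : S)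
    (T : S → Fin q → k) (s s' : S → k) (hs : psi v T s = 0) (hs' : psi v T s' = 0)
    (hu : s x0 * s' y0 - s y0 * s' x0 ≠ 0) :
    DD v E x y T * (s x0 * s' y0 - s y0 * s' x0) =
      DD v E x0 y0 T * (s x * s' y - s y * s' x) := by
  obtain ⟨u, hud⟩ : ∃ u : k, u = s x0 * s' y0 - s y0 * s' x0 := ⟨_, rfl⟩
  rw [← hud] at hu ⊢
  obtain ⟨b0, hb0⟩ : ∃ b0 : S → k, ∀ σ : S → k, ∑ z, b0 z * σ z =
      ((σ x - σ x0) * s' y0 - (σ y - σ y0) * s' x0) / u := by
    refine ⟨fun z => (((Pi.single x (1 : k) : S → k) z - (Pi.single x0 (1 : k) : S → k) z) * s' y0 -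
      ((Pi.single y (1 : k) : S → k) z - (Pi.single y0 (1 : k) : S → k) z) * s' x0) / u, fun σ => ?_⟩
    have hsg : ∀ w : S, ∑ z, (Pi.single w (1 : k) : S → k) z * σ z = σ w := by
      intro w
      rw [Finset.sum_eq_single w]
      · rw [Pi.single_eq_same, one_mul]
      · intro z _ hz
        rw [Pi.single_eq_of_ne hz, zero_mul]
      · intro h
        exact absurd (Finset.mem_univ w) h
    rw [← hsg x, ← hsg x0, ← hsg y, ← hsg y0, ← Finset.sum_sub_distrib, ← Finset.sum_sub_distrib,
      Finset.sum_mul, Finset.sum_mul, ← Finset.sum_sub_distrib, Finset.sum_div]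
    exact Finset.sum_congr rfl fun z _ => by ring
  obtain ⟨b1, hb1⟩ : ∃ b1 : S → k, ∀ σ : S → k, ∑ z, b1 z * σ z =
      (s x0 * (σ y - σ y0) - s y0 * (σ x - σ x0)) / u := by
    refine ⟨fun z => (s x0 * ((Pi.single y (1 : k) : S → k) z - (Pi.single y0 (1 : k) : S → k) z) -
      s y0 * ((Pi.single x (1 : k) : S → k) z - (Pi.single x0 (1 : k) : S → k) z)) / u, fun σ => ?_⟩
    have hsg : ∀ w : S, ∑ z, (Pi.single w (1 : k) : S → k) z * σ z = σ w := by
      intro w
      rw [Finset.sum_eq_single w]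
      · rw [Pi.single_eq_same, one_mul]
      · intro z _ hz
        rw [Pi.single_eq_of_ne hz, zero_mul]
      · intro h
        exact absurd (Finset.mem_univ w) h
    rw [← hsg x, ← hsg x0, ← hsg y, ← hsg y0, ← Finset.sum_sub_distrib, ← Finset.sum_sub_distrib,
      Finset.mul_sum, Finset.mul_sum, ← Finset.sum_sub_distrib, Finset.sum_div]
    exact Finset.sum_congr rfl fun z _ => by ring
  let A : Matrix S (Fin 2) k := Matrix.of fun z => ![s z, s' z]
  let B : Matrix (Fin 2) S k := Matrix.of ![b0, b1]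
  let N : (S → k) →ₗ[k] (S → k) := Matrix.toLin' (1 + A * B)
  have hB : ∀ σ : S → k, B.mulVec σ = ![((σ x - σ x0) * s' y0 - (σ y - σ y0) * s' x0) / u,
      (s x0 * (σ y - σ y0) - s y0 * (σ x - σ x0)) / u] := by
    intro σ
    funext i
    fin_cases i
    · exact hb0 σ
    · exact hb1 σ
  have hN : ∀ σ : S → k, N σ = σ + (((σ x - σ x0) * s' y0 - (σ y - σ y0) * s' x0) / u) • s +
      ((s x0 * (σ y - σ y0) - s y0 * (σ x - σ x0)) / u) • s' := by
    intro σ
    have h1 : N σ = σ + A.mulVec (B.mulVec σ) := by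
      change Matrix.toLin' (1 + A * B) σ = _
      rw [Matrix.toLin'_apply, Matrix.add_mulVec, Matrix.one_mulVec, Matrix.mulVec_mulVec]
    rw [h1, hB]
    funext z
    simp only [A, Matrix.mulVec, dotProduct, Fin.sum_univ_two, Pi.add_apply, Pi.smul_apply,
      smul_eq_mul, Matrix.of_apply, Matrix.cons_val_zero, Matrix.cons_val_one]
    ring
  have hcomp : (E.toLinearMap ∘ₗ Xi v x0 y0 T) ∘ₗ N = E.toLinearMap ∘ₗ Xi v x y T := by
    apply LinearMap.ext
    intro σ
    change E (Xi v x0 y0 T (N σ)) = E (Xi v x y T σ)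
    congr 1
    rw [Xi_apply, Xi_apply, hN]
    refine Prod.ext ?_ (Prod.ext ?_ ?_)
    · simp only [Pi.add_apply, Pi.smul_apply, smul_eq_mul]
      field_simp
      rw [hud]
      ring
    · simp only [Pi.add_apply, Pi.smul_apply, smul_eq_mul]
      field_simp
      rw [hud]
      ring
    · simp only [map_add, map_smul, hs, hs', smul_zero, add_zero]
  have hdet : LinearMap.det N * u = s x * s' y - s y * s' x := by
    have h1 : LinearMap.det N = (1 + B * A).det := by
      rw [LinearMap.det_toLin', Matrix.det_one_add_mul_comm]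
    have e00 : (B * A) 0 0 = ((s x - s x0) * s' y0 - (s y - s y0) * s' x0) / u := by
      rw [← hb0 s]; rfl
    have e01 : (B * A) 0 1 = ((s' x - s' x0) * s' y0 - (s' y - s' y0) * s' x0) / u := by
      rw [← hb0 s']; rfl
    have e10 : (B * A) 1 0 = (s x0 * (s y - s y0) - s y0 * (s x - s x0)) / u := by
      rw [← hb1 s]; rfl
    have e11 : (B * A) 1 1 = (s x0 * (s' y - s' y0) - s y0 * (s' x - s' x0)) / u := by
      rw [← hb1 s']; rfl
    rw [h1, Matrix.det_fin_two]
    simp only [Matrix.add_apply, e00, e01, e10, e11, Matrix.one_apply_eq,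
      Matrix.one_apply_ne (show (0 : Fin 2) ≠ 1 by decide),
      Matrix.one_apply_ne (show (1 : Fin 2) ≠ 0 by decide), zero_add]
    field_simp
    rw [hud]
    ring
  have hD : DD v E x y T = DD v E x0 y0 T * LinearMap.det N := by
    unfold DD
    rw [← hcomp, LinearMap.det_comp]
  rw [hD, mul_assoc, hdet]

theorem kermin (v : S → V) (E : (k × k × (Fin q → V)) ≃ₗ[k] (S → k)) (x y x0 y0 : S)
    (T : S → Fin q → k) (s s' : S → k) (hs : psi v T s = 0) (hs' : psi v T s' = 0) :
    DD v E x y T * (s x0 * s' y0 - s y0 * s' x0) =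
      DD v E x0 y0 T * (s x * s' y - s y * s' x) := by
  by_cases hu : s x0 * s' y0 - s y0 * s' x0 = 0
  · by_cases hw : s x * s' y - s y * s' x = 0
    · rw [hu, hw, mul_zero, mul_zero]
    · exact (kermin_aux v E x0 y0 x y T s s' hs hs' hw).symm
  · exact kermin_aux v E x y x0 y0 T s s' hs hs' hu

end Pool.Agent.QC
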