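import Pool.Agent.QC.Defs

/-!
`T x j0 * T y j0 * DD v E x y T` is multilinear in the `T z`, and what follows.

Proofs.
* `exists_multi`: take `G := (Pi.basisFun k S).det.toMultilinearMap.compLinearMap
  (fun z => E.toLinearMap ∘ₗ C z)` where `C z : (Fin q → k) →ₗ[k] (k × k × (Fin q → V))` is
  `t ↦ (if z = x then t j0 else 0, if z = y then t j0 else 0, fun j => t j • v z)`. Then
  `G T = (Pi.basisFun k S).det (fun z => f (Pi.single z 1)) = LinearMap.det f`
  (`Module.Basis.det_comp`, `Module.Basis.det_self`) with `f = E ∘ M ∘ Xi v x y T`,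
  `M (a, b, u) = (T x j0 * a, T y j0 * b, u)` (as `psi v T (Pi.single z 1) j = T z j • v z` and
  `Pi.single z 1 x = if z = x ..`). `det f = det (E ∘ M ∘ E⁻¹) * det (E ∘ Xi)
  = det M * DD v E x y T`, `det M = T x j0 * T y j0` (`LinearMap.det_conj`;
  `LinearMap.det_prodMap`, or the matrix in a basis adapted to the product).
* `multi_ext`: `Module.Basis.ext_multilinear` with the bases `Pi.basisFun k (Fin q)`; a choice of
  basis vectors is a `β : S → Fin q` and the tuple is `Tb k β`.
-/

set_option autoImplicit false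

namespace Pool.Agent.QC

variable {k V S : Type*} [Field k] [AddCommGroup V] [Module k V] [Fintype S]
  [DecidableEq S] {q : ℕ}

/-- the scaling of the two scalar components -/
private def scM (W : Type*) [AddCommGroup W] [Module k W] (a b : k) :
    (k × k × W) →ₗ[k] (k × k × W) :=
  (a • LinearMap.id).prodMap ((b • LinearMap.id).prodMap LinearMap.id)

private theorem det_scM (W : Type*) [AddCommGroup W] [Module k W] [Module.Finite k W] (a b : k) :
    LinearMap.det (scM W a b) = a * b := by
  unfold scM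
  rw [LinearMap.det_prodMap, LinearMap.det_prodMap, LinearMap.det_id, LinearMap.det_ring,
    LinearMap.det_ring]
  simp

/-- the value of the multilinear map at the component `z` -/
private def mC (v : S → V) (x y : S) (j0 : Fin q) (z : S) :
    (Fin q → k) →ₗ[k] (k × k × (Fin q → V)) :=
  (if z = x then LinearMap.proj j0 else 0).prod
    ((if z = y then LinearMap.proj j0 else 0).prod
      (LinearMap.pi (fun j => (LinearMap.toSpanSingleton k V (v z)) ∘ₗ LinearMap.proj j)))

private theorem mC_apply (v : S → V) (x y : S) (j0 : Fin q) (z : S) (T : S → Fin q → k) :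
    mC v x y j0 z (T z) = scM (Fin q → V) (T x j0) (T y j0) (Xi v x y T (Pi.single z 1)) := by
  rw [Xi_apply]
  have h3 : psi v T (Pi.single z 1) = fun j => T z j • v z := by
    funext j
    rw [psi_eq_sum, Finset.sum_eq_single z]
    · simp
    · intro w _ hw
      simp [Pi.single_eq_of_ne hw]
    · intro h
      exact absurd (Finset.mem_univ z) h
  rw [h3]
  unfold mC scM
  refine Prod.ext ?_ (Prod.ext ?_ ?_)
  · by_cases h : z = x
    · subst h
      simp
    · simp [h, Pi.single_eq_of_ne (Ne.symm h)]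
  · by_cases h : z = y
    · subst h
      simp
    · simp [h, Pi.single_eq_of_ne (Ne.symm h)]
  · funext j
    simp

theorem exists_multi (v : S → V) (E : (k × k × (Fin q → V)) ≃ₗ[k] (S → k)) (x y : S)
    (j0 : Fin q) : ∃ G : MultilinearMap k (fun _ : S => Fin q → k) k,
      ∀ T : S → Fin q → k, G T = T x j0 * T y j0 * DD v E x y T := by
  haveI hfin1 : Module.Finite k (k × k × (Fin q → V)) := Module.Finite.equiv E.symm
  haveI hfin : Module.Finite k (Fin q → V) :=
    Module.Finite.of_surjective
      ((LinearMap.snd k k (Fin q → V)) ∘ₗ (LinearMap.snd k k (k × (Fin q → V))))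
      (fun w => ⟨(0, 0, w), rfl⟩)
  refine ⟨((Pi.basisFun k S).det.toMultilinearMap).compLinearMap
    (fun z => E.toLinearMap ∘ₗ mC v x y j0 z), fun T => ?_⟩
  rw [MultilinearMap.compLinearMap_apply]
  have h1 : (fun z => (E.toLinearMap ∘ₗ mC v x y j0 z) (T z)) =
      (E.toLinearMap ∘ₗ scM (Fin q → V) (T x j0) (T y j0) ∘ₗ Xi v x y T) ∘
        (Pi.basisFun k S) := by
    funext z
    simp only [LinearMap.comp_apply, Function.comp_apply, Pi.basisFun_apply]
    rw [mC_apply]
  rw [h1]
  have h2 : (Pi.basisFun k S).det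
      ((E.toLinearMap ∘ₗ scM (Fin q → V) (T x j0) (T y j0) ∘ₗ Xi v x y T) ∘
        (Pi.basisFun k S)) = LinearMap.det
      (E.toLinearMap ∘ₗ scM (Fin q → V) (T x j0) (T y j0) ∘ₗ Xi v x y T) := by
    rw [Module.Basis.det_comp, Module.Basis.det_self, mul_one]
  have h3 : (E.toLinearMap ∘ₗ scM (Fin q → V) (T x j0) (T y j0) ∘ₗ Xi v x y T) =
      (E.toLinearMap ∘ₗ scM (Fin q → V) (T x j0) (T y j0) ∘ₗ E.symm.toLinearMap) ∘ₗ
        (E.toLinearMap ∘ₗ Xi v x y T) := by
    refine LinearMap.ext fun σ => ?_
    simp only [LinearMap.comp_apply, LinearEquiv.coe_coe, LinearEquiv.symm_apply_apply]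
  refine Eq.trans h2 ?_
  rw [h3, LinearMap.det_comp, LinearMap.det_conj, det_scM]
  rfl

theorem multi_ext (G : MultilinearMap k (fun _ : S => Fin q → k) k)
    (h : ∀ β : S → Fin q, G (Tb k β) = 0) (T : S → Fin q → k) : G T = 0 := by
  have h0 : G = 0 := by
    refine Module.Basis.ext_multilinear (fun _ : S => Pi.basisFun k (Fin q)) (fun β => ?_)
    have h1 := h β
    have h2 : (fun z : S => (Pi.basisFun k (Fin q)) (β z)) = Tb k β := by
      funext z
      rw [Pi.basisFun_apply]
      rfl
    rw [h2, h1]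
    rfl
  rw [h0]
  rfl

end Pool.Agent.QC
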