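import Pool.Agent.QC.XiB
import Pool.Agent.QC.KerMin
import Pool.Agent.QC.Multi

/-!
The multilinear identity.

`o : S → ℕ` is injective; it is used to sum over unordered pairs.

Proofs.
* `DD_eq_zero`: `G := exists_multi` for `x, y`. For every `β`, `G (Tb k β) = 0`, because
  `DD v E x y (Tb k β) = 0`: otherwise `Xi` is bijective (`DD_ne`), `IsSt k v x y β` (`xi_Tb_bij`) and
  `cls x ≠ cls y` (`hy.st`). So `G T = 0` (`multi_ext`), and `T x j0, T y j0 ≠ 0`.
* `fzero`: the left side is the value at `T` of a multilinear map (a sum of multiples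
  `Φ (e_x) (e_y) • G_xy` over the pairs with `o x < o y`, `cls x ≠ cls y`, `exists_multi`), so by
  `multi_ext` one may assume `T = Tb k β`. Then `T x j0 = 1` if `β x = j0` and `0` otherwise
  (`Tb_apply`). Let `c` be the constant of `hc.cls β`. For `β x = β y = j0` the summand is
  `c * δ e_x e_y * DD v E x y T` for all pairs `o x < o y`: if `DD v E x y T ≠ 0` then
  `IsSt k v x y β` (`DD_ne`, `xi_Tb_bij`), so `cls x ≠ cls y` and `hc.cls`; if `DD v E x y T = 0` both are
  zero. So it remains: `∑ x, ∑ y, (if o x < o y ∧ β x = j0 ∧ β y = j0 then δ e_x e_y * DD v E x y T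
  else 0) = 0`. If all `DD v E x y T` are zero this is clear. Let `DD v E x0 y0 T ≠ 0`; `Xi v x0 y0 T` is
  bijective, so there are `s, s'` with `psi v T s = psi v T s' = 0`, `s x0 = 1`, `s y0 = 0`, `s' x0 = 0`,
  `s' y0 = 1`. By `kermin`: `DD v E x y T = DD v E x0 y0 T * (s x * s' y - s y * s' x)`. As `δ` is
  alternating (`δ e_y e_x = - δ e_x e_y`, `δ e_x e_x = 0`, `o` injective),
  `∑_{o x < o y, β x = β y = j0} δ e_x e_y (s x s' y - s y s' x) = ∑_{x, y, β x = β y = j0} s x s' y δ e_x e_y
  = δ (row T j0 s) (row T j0 s')`, and `vs v (row T j0 s) = psi v T s j0 = 0`, so this is zero by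
  `hc.left`.
-/

set_option autoImplicit false

namespace Pool.Agent.QC

variable {k V S n : Type*} [Field k] [AddCommGroup V] [Module k V] [Fintype S]
  [DecidableEq S] [DecidableEq n] {q : ℕ}

theorem DD_eq_zero {v : S → V} {cls : S → n} (hy : Hyp k v cls q)
    (E : (k × k × (Fin q → V)) ≃ₗ[k] (S → k)) (j0 : Fin q) {x y : S} (h : cls x = cls y)
    (T : S → Fin q → k) (hT : ∀ z, T z j0 ≠ 0) : DD v E x y T = 0 := by
  obtain ⟨G, hG⟩ := exists_multi v E x y j0
  have h1 : ∀ β : S → Fin q, G (Tb k β) = 0 := by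
    intro β
    rw [hG]
    have h0 : DD v E x y (Tb k β) = 0 := by
      by_contra hne
      have h2 := (DD_ne v E x y (Tb k β)).1 hne
      have h3 := (xi_Tb_bij v x y β).1 h2
      exact (hy.st x y).2 ⟨β, h3⟩ h
    rw [h0, mul_zero]
  have h4 := multi_ext G h1 T
  rw [hG] at h4
  rcases mul_eq_zero.1 h4 with h5 | h5
  · rcases mul_eq_zero.1 h5 with h6 | h6
    · exact absurd h6 (hT x)
    · exact absurd h6 (hT y)
  · exact h5

/-- An alternating form is skew symmetric. -/
theorem skew_of_alt {δ : (S → k) →ₗ[k] (S → k) →ₗ[k] k} (h : ∀ ξ, δ ξ ξ = 0) (a b : S → k) :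
    δ a b = - δ b a := by
  have h1 := h (a + b)
  rw [LinearMap.map_add₂, map_add, map_add, h a, h b, zero_add, add_zero] at h1
  exact eq_neg_of_add_eq_zero_left h1

/-- A bilinear form in coordinates. -/
theorem bil_sum (δ : (S → k) →ₗ[k] (S → k) →ₗ[k] k) (a b : S → k) :
    δ a b = ∑ x, ∑ y, δ (Pi.single x 1) (Pi.single y 1) * (a x * b y) := by
  have ha : a = ∑ x, a x • (Pi.single x (1 : k) : S → k) := by
    funext z
    simp [Finset.sum_apply, Pi.single_apply]
  have hb : b = ∑ x, b x • (Pi.single x (1 : k) : S → k) := by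
    funext z
    simp [Finset.sum_apply, Pi.single_apply]
  conv_lhs => rw [ha, hb]
  rw [LinearMap.map_sum₂]
  refine Finset.sum_congr rfl fun x _ => ?_
  rw [map_sum]
  refine Finset.sum_congr rfl fun y _ => ?_
  rw [map_smul, map_smul, LinearMap.smul_apply, smul_eq_mul, smul_eq_mul]
  ring

/-- The sum over the ordered pairs for one colouring. -/
theorem sum_state {v : S → V} {Φ δ : (S → k) →ₗ[k] (S → k) →ₗ[k] k} {j0 : Fin q}
    (hc : HCls v Φ δ j0) (E : (k × k × (Fin q → V)) ≃ₗ[k] (S → k)) (o : S → ℕ)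
    (ho : Function.Injective o) (β : S → Fin q) :
    ∑ x, ∑ y, (if o x < o y ∧ β x = j0 ∧ β y = j0 then
      δ (Pi.single x 1) (Pi.single y 1) * DD v E x y (Tb k β) else 0) = 0 := by
  classical
  by_cases hall : ∀ x y, DD v E x y (Tb k β) = 0
  · refine Finset.sum_eq_zero fun x _ => Finset.sum_eq_zero fun y _ => ?_
    rw [hall x y, mul_zero, ite_self]
  push Not at hall
  obtain ⟨x0, y0, hxy⟩ := hall
  have hbij := (DD_ne v E x0 y0 (Tb k β)).1 hxy
  obtain ⟨s, hs⟩ := hbij.2 ((1 : k), (0 : k), (0 : Fin q → V))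
  obtain ⟨s', hs'⟩ := hbij.2 ((0 : k), (1 : k), (0 : Fin q → V))
  rw [Xi_apply, Prod.mk.injEq, Prod.mk.injEq] at hs hs'
  obtain ⟨hs1, hs2, hs3⟩ := hs
  obtain ⟨hs1', hs2', hs3'⟩ := hs'
  have hmin : ∀ x y, DD v E x y (Tb k β) =
      DD v E x0 y0 (Tb k β) * (s x * s' y - s y * s' x) := by
    intro x y
    have h := kermin v E x y x0 y0 (Tb k β) s s' hs3 hs3'
    rw [hs1, hs2, hs1', hs2'] at h
    rw [← h]
    ring
  have hz : δ (row (Tb k β) j0 s) (row (Tb k β) j0 s') = 0 := by
    apply hc.left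
    have h := congrFun hs3 j0
    rw [psi_apply] at h
    exact h
  let A : S → S → k := fun x y =>
    if β x = j0 ∧ β y = j0 then δ (Pi.single x 1) (Pi.single y 1) * (s x * s' y) else 0
  have hA : ∑ x, ∑ y, A x y = 0 := by
    rw [← hz, bil_sum]
    refine Finset.sum_congr rfl fun x _ => Finset.sum_congr rfl fun y _ => ?_
    simp only [A, row_apply, Tb_apply]
    by_cases h1 : β x = j0 <;> by_cases h2 : β y = j0 <;> simp [h1, h2]
  have hsum : ∀ x y, (if o x < o y ∧ β x = j0 ∧ β y = j0 then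
      δ (Pi.single x 1) (Pi.single y 1) * DD v E x y (Tb k β) else 0) =
      DD v E x0 y0 (Tb k β) *
        ((if o x < o y then A x y else 0) + (if o x < o y then A y x else 0)) := by
    intro x y
    by_cases h0 : o x < o y
    · by_cases h1 : β x = j0
      · by_cases h2 : β y = j0
        · rw [if_pos ⟨h0, h1, h2⟩, if_pos h0, if_pos h0, hmin x y]
          simp only [A]
          rw [if_pos ⟨h1, h2⟩, if_pos ⟨h2, h1⟩,
            skew_of_alt hc.alt (Pi.single y 1) (Pi.single x 1)]
          ring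
        · rw [if_neg (fun h => h2 h.2.2), if_pos h0, if_pos h0]
          simp only [A]
          rw [if_neg (fun h => h2 h.2), if_neg (fun h => h2 h.1)]
          ring
      · rw [if_neg (fun h => h1 h.2.1), if_pos h0, if_pos h0]
        simp only [A]
        rw [if_neg (fun h => h1 h.1), if_neg (fun h => h1 h.2)]
        ring
    · rw [if_neg (fun h => h0 h.1), if_neg h0, if_neg h0]
      ring
  have e1 : ∑ x, ∑ y, (if o x < o y ∧ β x = j0 ∧ β y = j0 then
      δ (Pi.single x 1) (Pi.single y 1) * DD v E x y (Tb k β) else 0) =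
      DD v E x0 y0 (Tb k β) * (∑ x, ∑ y, (if o x < o y then A x y else 0) +
        ∑ x, ∑ y, (if o x < o y then A y x else 0)) := by
    rw [← Finset.sum_add_distrib, Finset.mul_sum]
    refine Finset.sum_congr rfl fun x _ => ?_
    rw [← Finset.sum_add_distrib, Finset.mul_sum]
    exact Finset.sum_congr rfl fun y _ => hsum x y
  rw [e1, Finset.sum_comm (f := fun x y => if o x < o y then A y x else 0)]
  have e2 : ∑ x, ∑ y, (if o x < o y then A x y else 0) +
      ∑ y, ∑ x, (if o x < o y then A y x else 0) = ∑ x, ∑ y, A x y := by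
    rw [← Finset.sum_add_distrib]
    refine Finset.sum_congr rfl fun x _ => ?_
    rw [← Finset.sum_add_distrib]
    refine Finset.sum_congr rfl fun y _ => ?_
    rcases lt_trichotomy (o x) (o y) with h | h | h
    · rw [if_pos h, if_neg (by omega), add_zero]
    · have hxy' : x = y := ho h
      subst hxy'
      rw [if_neg (by omega), add_zero]
      simp only [A]
      rw [hc.alt]
      simp
    · rw [if_neg (by omega), if_pos h, zero_add]
  rw [e2, hA, mul_zero]

theorem fzero {v : S → V} {cls : S → n} (hy : Hyp k v cls q)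
    {Φ δ : (S → k) →ₗ[k] (S → k) →ₗ[k] k} {j0 : Fin q} (hc : HCls v Φ δ j0)
    (E : (k × k × (Fin q → V)) ≃ₗ[k] (S → k)) (o : S → ℕ) (ho : Function.Injective o)
    (T : S → Fin q → k) :
    ∑ x, ∑ y, (if o x < o y ∧ cls x ≠ cls y then
      Φ (Pi.single x 1) (Pi.single y 1) * (T x j0 * T y j0 * DD v E x y T) else 0) = 0 := by
  classical
  choose G hG using fun x y => exists_multi v E x y j0
  let H : MultilinearMap k (fun _ : S => Fin q → k) k :=
    ∑ x, ∑ y, (if o x < o y ∧ cls x ≠ cls y then Φ (Pi.single x 1) (Pi.single y 1) else 0) •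
      G x y
  have hH : ∀ T' : S → Fin q → k, H T' = ∑ x, ∑ y, (if o x < o y ∧ cls x ≠ cls y then
      Φ (Pi.single x 1) (Pi.single y 1) * (T' x j0 * T' y j0 * DD v E x y T') else 0) := by
    intro T'
    simp only [H]
    rw [MultilinearMap.sum_apply]
    refine Finset.sum_congr rfl fun x _ => ?_
    rw [MultilinearMap.sum_apply]
    refine Finset.sum_congr rfl fun y _ => ?_
    rw [MultilinearMap.smul_apply, hG, smul_eq_mul]
    split_ifs
    · rfl
    · rw [zero_mul]
  rw [← hH]
  apply multi_ext H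
  intro β
  rw [hH]
  obtain ⟨c, hcc⟩ := hc.cls β
  have key : ∀ x y, (if o x < o y ∧ cls x ≠ cls y then
      Φ (Pi.single x 1) (Pi.single y 1) *
        (Tb k β x j0 * Tb k β y j0 * DD v E x y (Tb k β)) else 0) =
      c * (if o x < o y ∧ β x = j0 ∧ β y = j0 then
        δ (Pi.single x 1) (Pi.single y 1) * DD v E x y (Tb k β) else 0) := by
    intro x y
    by_cases hD : DD v E x y (Tb k β) = 0
    · rw [hD]
      simp
    · have hst : IsSt k v x y β := (xi_Tb_bij v x y β).1 ((DD_ne v E x y (Tb k β)).1 hD)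
      have hcl : cls x ≠ cls y := (hy.st x y).2 ⟨β, hst⟩
      by_cases h0 : o x < o y
      · rw [if_pos ⟨h0, hcl⟩, Tb_apply, Tb_apply]
        by_cases h1 : β x = j0
        · by_cases h2 : β y = j0
          · rw [if_pos h1, if_pos h2, if_pos ⟨h0, h1, h2⟩, hcc x y h1 h2 hst]
            ring
          · have hn : ¬ (o x < o y ∧ β x = j0 ∧ β y = j0) := fun h => h2 h.2.2
            rw [if_neg h2, if_neg hn]
            ring
        · have hn : ¬ (o x < o y ∧ β x = j0 ∧ β y = j0) := fun h => h1 h.2.1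
          rw [if_neg h1, if_neg hn]
          ring
      · have hn : ¬ (o x < o y ∧ β x = j0 ∧ β y = j0) := fun h => h0 h.1
        have hn' : ¬ (o x < o y ∧ cls x ≠ cls y) := fun h => h0 h.1
        rw [if_neg hn', if_neg hn, mul_zero]
  have e3 : ∑ x, ∑ y, (if o x < o y ∧ cls x ≠ cls y then
      Φ (Pi.single x 1) (Pi.single y 1) *
        (Tb k β x j0 * Tb k β y j0 * DD v E x y (Tb k β)) else 0) =
      c * ∑ x, ∑ y, (if o x < o y ∧ β x = j0 ∧ β y = j0 then
        δ (Pi.single x 1) (Pi.single y 1) * DD v E x y (Tb k β) else 0) := by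
    rw [Finset.mul_sum]
    refine Finset.sum_congr rfl fun x _ => ?_
    rw [Finset.mul_sum]
    exact Finset.sum_congr rfl fun y _ => key x y
  rw [e3, sum_state hc E o ho β, mul_zero]

end Pool.Agent.QC
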