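import Pool.Agent.QC.RedC
import Pool.Agent.QC.Choice

/-!
Two disjoint sets of classes which span `II`.

`b R j := psi v T (res cls R (τ R)) j` (it is in `II`, `res_mem`).

Proof. Let `R0 ≠ P` be a class (`hy.ne (rep P)`), `N := {R // R ≠ P ∧ R ≠ R0}`, `W := Fin q → II k v cls`
(functions with values in the submodule), `u R := (fun j => b R j) ∈ W` for `R ∈ N`.
`u` is linearly independent: if `∑ s R • u R = 0` let `σ := ∑ R, s R • res cls R (τ R)`; `psi v T σ = 0`,
`σ (rep P) = σ (rep R0) = 0`, so `σ = 0` (`good_unique` with `σ' = 0`), and `σ (rep R) = s R`.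
`u` spans `W`: for `w ∈ W` there is `σ` with `psi v T σ = w` (`psi_surj`); subtract the element of the kernel
which agrees with `σ` at `rep P` and `rep R0` (`good_exists`); then `psi_tau` says
`w j = ∑ R, σ (rep R) • b R j`, where the terms of `P, R0` vanish.
`choice` with `w R j := Pi.single j (u R j)` gives `f : N → Fin q` such that the
`Pi.single (f R) (u R (f R))` span `W`. `Z0 := {R ∈ N | f R = j0}`, `Z1 := {R ∈ N | f R = j1}`. For `i ∈ II` the
element `Pi.single j0 i` is in the span, and the projection to the component `j0` maps the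
generators to `b R j0` (`f R = j0`) or to zero: so `i ∈ span (b · j0 '' Z0)`. The same for `j1`.
-/

set_option autoImplicit false

namespace Pool.Agent.QC

variable {k V S n : Type*} [Field k] [AddCommGroup V] [Module k V] [Fintype S]
  [DecidableEq S] [DecidableEq n] [Fintype n] {q : ℕ}

omit [Fintype S] [DecidableEq S] [Fintype n] in
/-- The combination of the `b R` in `W`, as an element of `S → k`. -/
private theorem ts_eval {cls : S → n} {rep : n → S} (hrep : ∀ P, cls (rep P) = P)
    {τ : n → S → k} (p : n → Prop) [Fintype (Subtype p)] (g : Subtype p → k) (R' : n) :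
    (∑ R : Subtype p, g R • res cls R.1 (τ R.1)) (rep R') =
      ∑ R : Subtype p, if R' = R.1 then g R * τ R.1 (rep R') else 0 := by
  rw [Finset.sum_apply]
  apply Finset.sum_congr rfl
  intro R _
  rw [Pi.smul_apply, res_apply, hrep]
  by_cases h : R' = R.1
  · rw [if_pos h, if_pos h, smul_eq_mul]
  · rw [if_neg h, if_neg h, smul_zero]

theorem two_sets [Infinite k] {v : S → V} {cls : S → n} (hy : Hyp k v cls q)
    {T : S → Fin q → k} (hG : Good v cls T) {rep : n → S} (hrep : ∀ P, cls (rep P) = P)
    {τ : n → S → k} (ht : Tau v cls T rep τ) (P : n) {j0 j1 : Fin q} (h01 : j0 ≠ j1) :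
    ∃ Z0 Z1 : Set n, Disjoint Z0 Z1 ∧ P ∉ Z0 ∧ P ∉ Z1 ∧
      Submodule.span k ((fun R => psi v T (res cls R (τ R)) j0) '' Z0) = II k v cls ∧
      Submodule.span k ((fun R => psi v T (res cls R (τ R)) j1) '' Z1) = II k v cls := by
  classical
  obtain ⟨y, hyP⟩ := hy.ne (rep P)
  rw [hrep] at hyP
  obtain ⟨R0, hR0⟩ : ∃ R0, cls y = R0 := ⟨_, rfl⟩
  rw [hR0] at hyP
  have hPR : cls (rep P) ≠ cls (rep R0) := by
    rw [hrep, hrep]
    exact Ne.symm hyP
  let N := {R : n // R ≠ P ∧ R ≠ R0}
  let u : N → (Fin q → II k v cls) := fun R j =>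
    ⟨psi v T (res cls R.1 (τ R.1)) j, res_mem (ht.ker R.1) R.1 j⟩
  have hu : LinearIndependent k u := by
    rw [Fintype.linearIndependent_iff]
    intro g hg
    have hpsi : psi v T (∑ R : N, g R • res cls R.1 (τ R.1)) = 0 := by
      rw [map_sum]
      funext j
      have h1 := congrFun hg j
      rw [Finset.sum_apply] at h1
      have h2 := congrArg (Subtype.val) h1
      rw [Submodule.coe_sum] at h2
      rw [Finset.sum_apply]
      simp only [map_smul]
      exact h2
    have hP0 : (∑ R : N, g R • res cls R.1 (τ R.1)) (rep P) = 0 := by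
      rw [ts_eval hrep]
      apply Finset.sum_eq_zero
      intro R _
      rw [if_neg (Ne.symm R.2.1)]
    have hR00 : (∑ R : N, g R • res cls R.1 (τ R.1)) (rep R0) = 0 := by
      rw [ts_eval hrep]
      apply Finset.sum_eq_zero
      intro R _
      rw [if_neg (Ne.symm R.2.2)]
    have h0 : (∑ R : N, g R • res cls R.1 (τ R.1)) = 0 :=
      good_unique hG hPR hpsi (map_zero _) hP0 hR00
    intro R
    have h1 := congrFun h0 (rep R.1)
    rw [ts_eval hrep, Finset.sum_eq_single R] at h1
    · rw [if_pos rfl, ht.one, mul_one] at h1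
      exact h1
    · intro R' _ hne
      rw [if_neg]
      intro h
      exact hne (Subtype.ext h.symm)
    · intro h
      exact absurd (Finset.mem_univ _) h
  have hs : Submodule.span k (Set.range u) = ⊤ := by
    rw [eq_top_iff]
    rintro w -
    obtain ⟨σ, hσ⟩ := psi_surj hy hG (fun j => (w j : V))
    obtain ⟨κ, hκ, hκP, hκR⟩ := good_exists hy hG hPR (σ (rep P)) (σ (rep R0))
    have hσ' : psi v T (σ - κ) = fun j => (w j : V) := by
      rw [map_sub, hσ, hκ, sub_zero]
    have h1 : ∀ j, (w j : V) = ∑ R, (σ - κ) (rep R) • psi v T (res cls R (τ R)) j := by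
      intro j
      rw [← psi_tau ht (σ := σ - κ) (by
        intro j
        rw [hσ']
        exact (w j).2) j, hσ']
    have h2 : w = ∑ R : N, (σ - κ) (rep R.1) • u R := by
      funext j
      apply Subtype.ext
      rw [Finset.sum_apply, Submodule.coe_sum, h1 j]
      have h3 : ∑ R ∈ Finset.univ.filter (fun R : n => R ≠ P ∧ R ≠ R0),
          (σ - κ) (rep R) • psi v T (res cls R (τ R)) j =
          ∑ R : N, (σ - κ) (rep R.1) • psi v T (res cls R.1 (τ R.1)) j :=
        Finset.sum_subtype _ (by intro x; simp) _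
      have h4 : ∑ R ∈ Finset.univ.filter (fun R : n => R ≠ P ∧ R ≠ R0),
          (σ - κ) (rep R) • psi v T (res cls R (τ R)) j =
          ∑ R, (σ - κ) (rep R) • psi v T (res cls R (τ R)) j := by
        apply Finset.sum_subset (Finset.filter_subset _ _)
        intro R _ hR
        have hR' : R = P ∨ R = R0 := by
          by_contra hc
          push Not at hc
          exact hR (Finset.mem_filter.2 ⟨Finset.mem_univ _, hc⟩)
        have hz : (σ - κ) (rep R) = 0 := by
          rcases hR' with h | h
          · rw [h, Pi.sub_apply, hκP, sub_self]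
          · rw [h, Pi.sub_apply, hκR, sub_self]
        rw [hz, zero_smul]
      rw [← h4, h3]
      rfl
    rw [h2]
    exact Submodule.sum_mem _ fun R _ => Submodule.smul_mem _ _ (Submodule.subset_span ⟨R, rfl⟩)
  obtain ⟨f, hf⟩ := choice u hu hs (fun R j => Pi.single j (u R j)) (fun R =>
    (Finset.univ_sum_single (u R)).symm)
  have key : ∀ j : Fin q,
      Submodule.span k ((fun R => psi v T (res cls R (τ R)) j) ''
        {R : n | ∃ h : R ≠ P ∧ R ≠ R0, f ⟨R, h⟩ = j}) = II k v cls := by
    intro j
    apply le_antisymm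
    · rw [Submodule.span_le]
      rintro _ ⟨R, -, rfl⟩
      exact res_mem (ht.ker R) R j
    · intro i hi
      let G : (Fin q → II k v cls) →ₗ[k] V := (II k v cls).subtype ∘ₗ LinearMap.proj j
      have h1 : (Pi.single j (⟨i, hi⟩ : II k v cls) : Fin q → II k v cls) ∈
          Submodule.span k (Set.range (fun R => (Pi.single (f R) (u R (f R)) : Fin q → II k v cls))) := by
        rw [hf]
        exact Submodule.mem_top
      have h2 := Submodule.mem_map_of_mem (f := G) h1
      have h3 : G (Pi.single j (⟨i, hi⟩ : II k v cls)) = i := by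
        simp [G]
      rw [h3, Submodule.map_span] at h2
      refine (Submodule.span_le.2 ?_) h2
      rintro _ ⟨_, ⟨R, rfl⟩, rfl⟩
      by_cases hR : f R = j
      · have h4 : G (Pi.single (f R) (u R (f R))) = psi v T (res cls R.1 (τ R.1)) j := by
          rw [hR]
          simp [G, u]
        change G (Pi.single (f R) (u R (f R))) ∈ _
        rw [h4]
        exact Submodule.subset_span ⟨R.1, ⟨R.2, hR⟩, rfl⟩
      · have h4 : G (Pi.single (f R) (u R (f R))) = 0 := by
          simp only [G, LinearMap.comp_apply, LinearMap.proj_apply]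
          rw [Pi.single_eq_of_ne (Ne.symm hR)]
          simp
        change G (Pi.single (f R) (u R (f R))) ∈ _
        rw [h4]
        exact Submodule.zero_mem _
  refine ⟨{R : n | ∃ h : R ≠ P ∧ R ≠ R0, f ⟨R, h⟩ = j0},
    {R : n | ∃ h : R ≠ P ∧ R ≠ R0, f ⟨R, h⟩ = j1}, ?_, ?_, ?_, key j0, key j1⟩
  · rw [Set.disjoint_left]
    rintro R ⟨h, h0⟩ ⟨h', h1⟩
    exact h01 (h0.symm.trans h1)
  · rintro ⟨h, -⟩
    exact h.1 rfl
  · rintro ⟨h, -⟩
    exact h.1 rfl

end Pool.Agent.QC
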