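import Pool.Agent.QC.Claim1
import Pool.Agent.QC.TwoSets

/-!
The quadratic form vanishes on the restrictions of the elements of the kernel of `psi v T`.

Proof. Let `rep` (`hy.sur`), `τ` (`exists_tau`), `b R j := psi v T (res cls R (τ R)) j`, `Z0, Z1` (`two_sets`),
`T' z i := if i = j0 then T z j1 else 0`, `Tr := T + r • T'`. Then `row Tr j0 σ = row T j0 σ + r • row T j1 σ`,
`row Tr i = row T i` for `i ≠ j0`; so `psi v Tr σ j0 = psi v T σ j0 + r • psi v T σ j1` and the other
components are the same.
For all but finitely many `r`: `Tr` is good (`good_line`), and the vectors `b' R := b R j0 + r • b R j1`,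
`R ∈ Z0`, span `II` (`span_line` in the space `II k v cls`, `Z = Z0`; it is finite dimensional because it
is spanned by finitely many vectors), and the `b' R`, `R ∈ Z1`, span `II`: `r ≠ 0` and
`b' R = r • (b R j1 + r⁻¹ • b R j0)`, `span_line` for `r⁻¹`. (The inverse image of a finite set under
`r ↦ r⁻¹` is finite: `Set.Finite.preimage`, `inv_injective`.)
For such an `r`: as `b' P ∈ II = span (b' '' Z1)`, there is `s : n → k` with `s P = 1`, `s R = 0` for
`R ∉ insert P Z1` and `∑ R, s R • b' R = 0`; `σ := ∑ R, s R • res cls R (τ R)` has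
`res cls R σ = s R • res cls R (τ R)`, and it is in `AJ v cls Tr {j0}`. In the same way `s'`, `σ'` with `Z0`.
`claim1` for `Tr`: `0 = Th Φ cls Tr j0 σ σ' = ∑ R, s R * s' R * Φ (w R) (w R)` with
`w R := res cls R (row Tr j0 (τ R))` (`Th_apply`, `res_row`); `s R * s' R = 0` for `R ≠ P` (`Z0`, `Z1` are disjoint),
so `Φ (w P) (w P) = 0`. `w P = w0 + r • w1`, `w0 := res cls P (row T j0 (τ P))`,
`w1 := res cls P (row T j1 (τ P))`, and `vs v w1 = b P j1 ∈ II`, so by `quad_add`
`Φ w0 w0 + r ^ 2 * Φ w1 w1 = 0` for infinitely many `r`. Two different values `r, r'` give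
`(r ^ 2 - r' ^ 2) * Φ w1 w1 = 0`, `r ^ 2 - r' ^ 2 = (r - r') ^ 2 ≠ 0` (characteristic two), so
`Φ w1 w1 = 0` and `Φ w0 w0 = 0`.
For `σ` in the kernel `res cls P σ = σ (rep P) • res cls P (τ P)` (`Tau.red`), so
`res cls P (row T j0 σ) = σ (rep P) • w0` (`res_row`).
-/

set_option autoImplicit false

namespace Pool.Agent.QC

variable {k V S n : Type*} [Field k] [AddCommGroup V] [Module k V] [Fintype S]
  [DecidableEq S] [DecidableEq n] [Fintype n] {q : ℕ}

/-- Add `r` times the row `j1` to the row `j0`. -/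
def radd (T : S → Fin q → k) (j0 j1 : Fin q) (r : k) : S → Fin q → k :=
  T + r • (fun z i => if i = j0 then T z j1 else 0)

omit [DecidableEq S] in
theorem psi_radd (v : S → V) (T : S → Fin q → k) (j0 j1 : Fin q) (r : k)
    (σ : S → k) (i : Fin q) : psi v (radd T j0 j1 r) σ i =
      if i = j0 then psi v T σ j0 + r • psi v T σ j1 else psi v T σ i := by
  simp only [psi_eq_sum, radd, Pi.add_apply, Pi.smul_apply, smul_eq_mul]
  split_ifs with h
  · subst h
    rw [Finset.smul_sum, ← Finset.sum_add_distrib]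
    refine Finset.sum_congr rfl fun z _ => ?_
    rw [smul_smul, ← add_smul]
    congr 1
    ring
  · refine Finset.sum_congr rfl fun z _ => ?_
    congr 1
    ring

/-- the condition to span a submodule is open on lines -/
private theorem finalq_span {k V n : Type*} [Field k] [AddCommGroup V] [Module k V] [Finite n]
    (I : Submodule k V) [FiniteDimensional k I] (Z : Set n) (x y : n → V) (hx : ∀ R, x R ∈ I)
    (hy : ∀ R, y R ∈ I) (hs : Submodule.span k (x '' Z) = I) :
    {r : k | ¬ I ≤ Submodule.span k ((fun R => x R + r • y R) '' Z)}.Finite := by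
  have hmap : ∀ g : Z → I, Submodule.map I.subtype (Submodule.span k (Set.range g)) =
      Submodule.span k (Set.range (fun z => (g z : V))) := by
    intro g
    rw [Submodule.map_span, ← Set.range_comp]
    rfl
  have ha : Submodule.span k (Set.range (fun z : Z => (⟨x z, hx z⟩ : I))) = ⊤ := by
    rw [eq_top_iff]
    intro u _
    have h1 : (u : V) ∈ Submodule.span k (x '' Z) := by
      rw [hs]
      exact u.2
    have h2 : x '' Z = Set.range (fun z : Z => x z) := by
      rw [Set.image_eq_range]
    rw [h2] at h1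
    have h3 := hmap (fun z : Z => (⟨x z, hx z⟩ : I))
    rw [← h3] at h1
    obtain ⟨u', hu', he⟩ := h1
    have : u' = u := Subtype.ext he
    rwa [← this]
  refine (span_line (k := k) (fun z : Z => (⟨x z, hx z⟩ : I)) (fun z : Z => (⟨y z, hy z⟩ : I))
    ha).subset ?_
  intro r hr hcon
  apply hr
  intro u hu
  have h2 : (fun R => x R + r • y R) '' Z = Set.range (fun z : Z => x z + r • y z) := by
    rw [Set.image_eq_range]
  rw [h2]
  have h3 := hmap (fun z : Z => (⟨x z, hx z⟩ : I) + r • (⟨y z, hy z⟩ : I))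
  rw [hcon, Submodule.map_top, Submodule.range_subtype] at h3
  rw [h3] at hu
  exact hu

/-- a linear relation from membership in a span -/
private theorem finalq_coeff {k V n : Type*} [Field k] [AddCommGroup V] [Module k V] [Fintype n]
    [DecidableEq n] (Z : Set n) {P : n} (hP : P ∉ Z) (b : n → V)
    (hb : b P ∈ Submodule.span k (b '' Z)) :
    ∃ s : n → k, s P = 1 ∧ (∀ R, R ≠ P → R ∉ Z → s R = 0) ∧ ∑ R, s R • b R = 0 := by
  rw [Finsupp.mem_span_image_iff_linearCombination] at hb
  obtain ⟨l, hl, he⟩ := hb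
  rw [Finsupp.mem_supported] at hl
  have h0 : ∀ R, R ∉ Z → l R = 0 := by
    intro R hR
    by_contra hne
    exact hR (hl (Finsupp.mem_support_iff.2 hne))
  refine ⟨fun R => if R = P then 1 else - l R, by simp, fun R hR hZ => by simp [hR, h0 R hZ], ?_⟩
  have h1 : ∑ R, l R • b R = b P := by
    rw [← he, Finsupp.linearCombination_apply, Finsupp.sum_fintype]
    intro i
    exact zero_smul _ _
  have h2 : ∀ R, (if R = P then (1 : k) else - l R) • b R =
      (if R = P then b R else 0) - l R • b R := by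
    intro R
    by_cases h : R = P
    · subst h
      simp [h0 R hP]
    · simp [h]
  rw [Finset.sum_congr rfl (fun R _ => h2 R), Finset.sum_sub_distrib, h1]
  simp

theorem final_q [Infinite k] [CharP k 2] {v : S → V} {cls : S → n}
    (hy : Hyp k v cls q) {Φ δ : (S → k) →ₗ[k] (S → k) →ₗ[k] k} (hΦ : HPhi v cls Φ)
    {j0 j1 : Fin q} (h01 : j0 ≠ j1) (hc : HCls v Φ δ j0) {T : S → Fin q → k}
    (hT : Good v cls T) {σ : S → k} (hσ : psi v T σ = 0) (P : n) :
    Φ (res cls P (row T j0 σ)) (res cls P (row T j0 σ)) = 0 := by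
  classical
  obtain ⟨rep, hrep⟩ : ∃ rep : n → S, ∀ P, cls (rep P) = P :=
    ⟨Function.surjInv hy.sur, Function.surjInv_eq hy.sur⟩
  obtain ⟨τ, ht⟩ := exists_tau hy j0 hT hrep
  obtain ⟨Z0, Z1, hdisj, hP0, hP1, hs0, hs1⟩ := two_sets hy hT hrep ht P h01
  have hb : ∀ R j, psi v T (res cls R (τ R)) j ∈ II k v cls := fun R j =>
    res_mem (ht.ker R) R j
  haveI : FiniteDimensional k (II k v cls) := by
    rw [← hs0]
    exact FiniteDimensional.span_of_finite k (Set.toFinite _)
  set w0 : S → k := row T j0 (res cls P (τ P)) with hw0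
  set w1 : S → k := row T j1 (res cls P (τ P)) with hw1
  -- the bad values
  have hB1 : {r : k | ¬ Good v cls (radd T j0 j1 r)}.Finite := good_line hT _
  have hB2 := finalq_span (II k v cls) Z0 (fun R => psi v T (res cls R (τ R)) j0)
    (fun R => psi v T (res cls R (τ R)) j1) (fun R => hb R j0) (fun R => hb R j1) hs0
  have hB3 := finalq_span (II k v cls) Z1 (fun R => psi v T (res cls R (τ R)) j1)
    (fun R => psi v T (res cls R (τ R)) j0) (fun R => hb R j1) (fun R => hb R j0) hs1
  have hB3' := hB3.preimage (f := fun r : k => r⁻¹) (inv_injective.injOn)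
  have hB4 : ({0} : Set k).Finite := Set.finite_singleton 0
  have hinf := (((hB1.union hB2).union hB3').union hB4).infinite_compl
  -- the restrictions of the sums
  have hres : ∀ (s : n → k) (R : n), res cls R (∑ Q, s Q • res cls Q (τ Q)) =
      s R • res cls R (τ R) := by
    intro s R
    funext z
    simp only [res_apply, Finset.sum_apply, Pi.smul_apply, smul_eq_mul]
    by_cases h : cls z = R
    · subst h
      simp
    · simp [h]
  have hpsi : ∀ (s : n → k) (j : Fin q), psi v T (∑ Q, s Q • res cls Q (τ Q)) j =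
      ∑ Q, s Q • psi v T (res cls Q (τ Q)) j := by
    intro s j
    rw [map_sum, Finset.sum_apply]
    refine Finset.sum_congr rfl fun Q _ => ?_
    rw [map_smul, Pi.smul_apply]
  -- the main identity
  have key : ∀ r ∈ (((({r : k | ¬ Good v cls (radd T j0 j1 r)} ∪
      {r : k | ¬ II k v cls ≤ Submodule.span k ((fun R => psi v T (res cls R (τ R)) j0 +
        r • psi v T (res cls R (τ R)) j1) '' Z0)}) ∪
      (fun r : k => r⁻¹) ⁻¹' {r : k | ¬ II k v cls ≤ Submodule.span k
        ((fun R => psi v T (res cls R (τ R)) j1 + r • psi v T (res cls R (τ R)) j0) '' Z1)}) ∪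
      ({0} : Set k))ᶜ : Set k), Φ w0 w0 + r ^ 2 * Φ w1 w1 = 0 := by
    intro r hr
    simp only [Set.mem_compl_iff, Set.mem_union, Set.mem_preimage, Set.mem_singleton_iff,
      Set.mem_ofPred_eq, not_or, not_not] at hr
    obtain ⟨⟨⟨hg, h0⟩, h1⟩, hr0⟩ := hr
    set b' : n → V := fun R => psi v T (res cls R (τ R)) j0 + r • psi v T (res cls R (τ R)) j1
      with hb'
    have hbI : ∀ R, b' R ∈ II k v cls := fun R =>
      add_mem (hb R j0) (Submodule.smul_mem _ _ (hb R j1))
    obtain ⟨s, hs1', hs2, hs3⟩ := finalq_coeff Z0 hP0 b' (h0 (hbI P))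
    have hle : Submodule.span k ((fun R => psi v T (res cls R (τ R)) j1 +
        r⁻¹ • psi v T (res cls R (τ R)) j0) '' Z1) ≤ Submodule.span k (b' '' Z1) := by
      rw [Submodule.span_le]
      rintro _ ⟨R, hR, rfl⟩
      have e : psi v T (res cls R (τ R)) j1 + r⁻¹ • psi v T (res cls R (τ R)) j0 =
          r⁻¹ • b' R := by
        rw [hb']
        simp only [smul_add, smul_smul]
        rw [inv_mul_cancel₀ hr0, one_smul, add_comm]
      rw [SetLike.mem_coe]
      show psi v T (res cls R (τ R)) j1 + r⁻¹ • psi v T (res cls R (τ R)) j0 ∈ _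
      rw [e]
      exact Submodule.smul_mem _ _ (Submodule.subset_span ⟨R, hR, rfl⟩)
    obtain ⟨s', hs1'', hs2', hs3'⟩ := finalq_coeff Z1 hP1 b' (hle (h1 (hbI P)))
    have hmem : ∀ s : n → k, ∑ R, s R • b' R = 0 →
        (∑ Q, s Q • res cls Q (τ Q)) ∈ AJ v cls (radd T j0 j1 r) {j0} := by
      intro s hs
      have e0 : psi v (radd T j0 j1 r) (∑ Q, s Q • res cls Q (τ Q)) j0 = 0 := by
        rw [psi_radd, if_pos rfl, hpsi, hpsi, Finset.smul_sum, ← Finset.sum_add_distrib, ← hs]
        refine Finset.sum_congr rfl fun R _ => ?_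
        rw [hb']
        simp only [smul_add]
        rw [smul_comm]
      rw [mem_AJ]
      refine ⟨fun j hj => ?_, fun j => ?_⟩
      · rw [Finset.mem_singleton.1 hj]
        exact e0
      · by_cases hj : j = j0
        · rw [hj, e0]
          exact zero_mem _
        · rw [psi_radd, if_neg hj, hpsi]
          exact sum_mem fun R _ => Submodule.smul_mem _ _ (hb R j)
    have h2 := claim1 hy hΦ hc hg (hmem s hs3) (hmem s' hs3')
    rw [Th_apply] at h2
    have hrow : row (radd T j0 j1 r) j0 (res cls P (τ P)) = w0 + r • w1 := by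
      funext z
      simp only [hw0, hw1, row_apply, radd, Pi.add_apply, Pi.smul_apply, smul_eq_mul, if_true]
      ring
    have hterm : ∀ R, Φ (res cls R (row (radd T j0 j1 r) j0 (∑ Q, s Q • res cls Q (τ Q))))
        (res cls R (row (radd T j0 j1 r) j0 (∑ Q, s' Q • res cls Q (τ Q)))) =
        if R = P then Φ (w0 + r • w1) (w0 + r • w1) else 0 := by
      intro R
      have hr1 : ∀ s : n → k, res cls R (row (radd T j0 j1 r) j0 (∑ Q, s Q • res cls Q (τ Q))) =
          s R • row (radd T j0 j1 r) j0 (res cls R (τ R)) := by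
        intro s
        rw [res_row, hres, map_smul]
      rw [hr1, hr1]
      by_cases h : R = P
      · subst h
        rw [if_pos rfl, hs1', hs1'', one_smul, hrow]
      · rw [if_neg h]
        by_cases h3 : R ∈ Z0
        · have h4 : s' R = 0 := hs2' R h (Set.disjoint_left.1 hdisj h3)
          rw [h4, zero_smul, map_zero]
        · have h4 : s R = 0 := hs2 R h h3
          rw [h4, zero_smul, map_zero, LinearMap.zero_apply]
    rw [Finset.sum_congr rfl (fun R _ => hterm R), Finset.sum_ite_eq' Finset.univ P,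
      if_pos (Finset.mem_univ _)] at h2
    have hvs : vs v (r • w1) ∈ II k v cls := by
      rw [map_smul]
      exact Submodule.smul_mem _ _ (hb P j1)
    rw [quad_add hΦ w0 (r • w1) hvs] at h2
    have h5 : Φ (r • w1) (r • w1) = r ^ 2 * Φ w1 w1 := by
      rw [map_smul, map_smul, LinearMap.smul_apply, smul_eq_mul, smul_eq_mul]
      ring
    rw [h5] at h2
    exact h2
  obtain ⟨r, hr⟩ := hinf.nonempty
  obtain ⟨r', hr'⟩ := (hinf.diff (Set.finite_singleton r)).nonempty
  have hne : r' ≠ r := fun h => hr'.2 h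
  have e1 := key r hr
  have e2 := key r' hr'.1
  have e3 : (r' - r) ^ 2 * Φ w1 w1 = 0 := by
    have h2 : (2 : k) = 0 := CharTwo.two_eq_zero
    have : (r' - r) ^ 2 = r' ^ 2 - r ^ 2 := by
      linear_combination (r ^ 2 - r' * r) * h2
    rw [this]
    linear_combination e2 - e1
  have e4 : Φ w1 w1 = 0 := by
    rcases mul_eq_zero.1 e3 with h | h
    · exact absurd (sub_eq_zero.1 (pow_eq_zero_iff (two_ne_zero)|>.1 h)) hne
    · exact h
  have e5 : Φ w0 w0 = 0 := by
    rw [e4, mul_zero, add_zero] at e1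
    exact e1
  have e6 : res cls P (row T j0 σ) = σ (rep P) • w0 := by
    rw [res_row, ht.red σ (fun j => by rw [hσ, Pi.zero_apply]; exact zero_mem _) P, map_smul]
  rw [e6, map_smul, map_smul, LinearMap.smul_apply, e5, smul_zero, smul_zero]

end Pool.Agent.QC
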