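import Pool.Agent.QC.ExtC

/-!
Restrictions of elements of the kernel to the classes.

Proofs.
* `res_mem`: let `Q` be a class (`II` is the infimum of the `VP`, `Submodule.mem_iInf`). If `Q ≠ P`
  then `res cls P (row T j σ)` is supported on `{z | cls z = P} ⊆ {z | cls z ≠ Q}`, so its image is in
  `VP k v cls Q` (`vs_apply`, sum of multiples of generators). If `Q = P`: it is
  `psi v T σ j - ∑_{cls z ≠ P} (T z j * σ z) • v z = - ∑_{cls z ≠ P} ..`.
* `red_res`: `ext_class` for `ρ = σ`: `psi v T (res cls P σ) j = psi v T σ j - psi v T (σ - res cls P σ) j`; the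
  first is in `II ≤ VP P`, the second is a combination of `v z` with `cls z ≠ P`.
* `exists_tau`: for `R` take `τ R` in the kernel with `τ R (rep R) = 1` (`good_exists`, `hy.ne`). If `σ` has all
  components of `psi v T σ` in `II` then `red_res` gives `τ'` in the kernel with
  `res cls R τ' = res cls R σ`, and `good_prop` for `τ'`, `τ R` and `x = z`, `y = rep R` gives
  `τ' z * 1 = τ' (rep R) * τ R z` for `cls z = R`. Last: if `cls z = R` and `τ R z = 0` take `τ'` in the kernel with
  `τ' z = 1` (`good_exists`): `τ R z * τ' (rep R) = τ R (rep R) * τ' z = 1` (`good_prop`), a contradiction.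
* `psi_tau`: `σ = ∑ R, res cls R σ`, so `psi v T σ j = ∑ R, psi v T (res cls R σ) j
  = ∑ R, σ (rep R) • psi v T (res cls R (τ R)) j`.
-/

set_option autoImplicit false

namespace Pool.Agent.QC

variable {k V S n : Type*} [Field k] [AddCommGroup V] [Module k V] [Fintype S]
  [DecidableEq S] [DecidableEq n] {q : ℕ}

omit [DecidableEq S] [DecidableEq n] in
private theorem psi_off_mem {v : S → V} {cls : S → n} {T : S → Fin q → k} {σ : S → k} {Q : n}
    (h : ∀ z, cls z = Q → σ z = 0) (j : Fin q) : psi v T σ j ∈ VP k v cls Q := by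
  rw [psi_eq_sum]
  refine Submodule.sum_mem _ fun z _ => ?_
  by_cases hz : cls z = Q
  · rw [h z hz, mul_zero, zero_smul]
    exact zero_mem _
  · refine Submodule.smul_mem _ _ (Submodule.subset_span ?_)
    exact ⟨z, hz, rfl⟩

omit [DecidableEq S] in
private theorem psi_res_mem {v : S → V} {cls : S → n} {T : S → Fin q → k} {σ : S → k} {P : n}
    {j : Fin q} (h : psi v T σ j ∈ VP k v cls P) :
    psi v T (res cls P σ) j ∈ VP k v cls P := by
  have h1 : psi v T (σ - res cls P σ) j ∈ VP k v cls P := by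
    apply psi_off_mem
    intro z hz
    rw [Pi.sub_apply, res_apply, if_pos hz, sub_self]
  have h2 : psi v T (res cls P σ) j = psi v T σ j - psi v T (σ - res cls P σ) j := by
    rw [map_sub, Pi.sub_apply, sub_sub_cancel]
  rw [h2]
  exact sub_mem h h1

theorem res_mem {v : S → V} {cls : S → n} {T : S → Fin q → k} {σ : S → k}
    (hσ : psi v T σ = 0) (P : n) (j : Fin q) :
    psi v T (res cls P σ) j ∈ II k v cls := by
  unfold II
  rw [Submodule.mem_iInf]
  intro Q
  by_cases hQ : Q = P
  · subst hQ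
    apply psi_res_mem
    rw [hσ, Pi.zero_apply]
    exact zero_mem _
  · apply psi_off_mem
    intro z hz
    rw [res_apply, if_neg]
    rw [hz]
    exact hQ

theorem red_res [Infinite k] {v : S → V} {cls : S → n} (hy : Hyp k v cls q) (j0 : Fin q)
    {T : S → Fin q → k} (hG : Good v cls T) {σ : S → k}
    (h : ∀ j, psi v T σ j ∈ II k v cls) (P : n) :
    ∃ τ, psi v T τ = 0 ∧ res cls P τ = res cls P σ := by
  apply ext_class hy j0 hG P σ
  intro j
  apply psi_res_mem
  have h1 := h j
  unfold II at h1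
  rw [Submodule.mem_iInf] at h1
  exact h1 P

omit [Fintype S] [DecidableEq S] in
theorem sum_res [Fintype n] (cls : S → n) (σ : S → k) : ∑ P, res cls P σ = σ := by
  funext z
  simp [Finset.sum_apply]

/-- Normalized elements of the kernel, one for each class. -/
structure Tau (v : S → V) (cls : S → n) (T : S → Fin q → k) (rep : n → S)
    (τ : n → S → k) : Prop where
  ker : ∀ R, psi v T (τ R) = 0
  one : ∀ R, τ R (rep R) = 1
  red : ∀ σ : S → k, (∀ j, psi v T σ j ∈ II k v cls) → ∀ R,
    res cls R σ = σ (rep R) • res cls R (τ R)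
  ne : ∀ R z, cls z = R → τ R z ≠ 0

theorem exists_tau [Infinite k] {v : S → V} {cls : S → n} (hy : Hyp k v cls q) (j0 : Fin q)
    {T : S → Fin q → k} (hG : Good v cls T) {rep : n → S} (hrep : ∀ P, cls (rep P) = P) :
    ∃ τ : n → S → k, Tau v cls T rep τ := by
  have hex : ∀ R : n, ∃ τ : S → k, psi v T τ = 0 ∧ τ (rep R) = 1 := by
    intro R
    obtain ⟨y, hy'⟩ := hy.ne (rep R)
    obtain ⟨σ, h1, h2, -⟩ := good_exists hy hG hy'.symm 1 0
    exact ⟨σ, h1, h2⟩
  choose τ hτ0 hτ1 using hex
  refine ⟨τ, hτ0, hτ1, ?_, ?_⟩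
  · intro σ h R
    obtain ⟨τ', h1, h2⟩ := red_res hy j0 hG h R
    have h3 : ∀ z, cls z = R → τ' z = σ z := by
      intro z hz
      have h4 := congrFun h2 z
      rwa [res_apply, res_apply, if_pos hz, if_pos hz] at h4
    funext z
    rw [Pi.smul_apply, res_apply, res_apply, smul_eq_mul]
    by_cases hz : cls z = R
    · rw [if_pos hz, if_pos hz]
      have h5 := good_prop hy j0 hG (x := z) (y := rep R) (by rw [hz, hrep]) h1 (hτ0 R)
      rw [hτ1 R, mul_one, h3 z hz, h3 (rep R) (hrep R)] at h5
      exact h5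
    · rw [if_neg hz, if_neg hz, mul_zero]
  · intro R z hz h0
    obtain ⟨y, hy'⟩ := hy.ne z
    obtain ⟨τ', h1, h2, -⟩ := good_exists hy hG hy'.symm 1 0
    have h5 := good_prop hy j0 hG (x := z) (y := rep R) (by rw [hz, hrep]) (hτ0 R) h1
    rw [h0, hτ1 R, h2, zero_mul, mul_one] at h5
    exact zero_ne_one h5

theorem psi_tau [Fintype n] {v : S → V} {cls : S → n} {T : S → Fin q → k} {rep : n → S}
    {τ : n → S → k} (ht : Tau v cls T rep τ) {σ : S → k}
    (h : ∀ j, psi v T σ j ∈ II k v cls) (j : Fin q) :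
    psi v T σ j = ∑ R, σ (rep R) • psi v T (res cls R (τ R)) j := by
  conv_lhs => rw [← sum_res cls σ]
  rw [map_sum, Finset.sum_apply]
  refine Finset.sum_congr rfl fun R _ => ?_
  rw [ht.red σ h R, map_smul, Pi.smul_apply]

end Pool.Agent.QC
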