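import Pool.Agent.QC.Struct

/-!
The bilinear identity on the kernel of `psi v T`, in characteristic two.

Proof. Let `E` be from `exists_E` (a state exists by `hy`), `o : S → ℕ` injective
(`fun x => (Fintype.equivFin S x : ℕ)`), `x0, y0` with `cls x0 ≠ cls y0`, `g x y := s x * s' y - s y * s' x`,
`d := DD v E x0 y0 T ≠ 0` (`DD_ne`, `xi_bij`). Multiply `fzero` by `g x0 y0` and use `kermin`:
`d * ∑_{o x < o y, cls x ≠ cls y} Φ e_x e_y T_x T_y g x y = 0` (`T_x = T x j0`), so the sum is zero. In
characteristic two `g x y = s x s' y + s y s' x`, and `Φ e_x e_y = Φ e_y e_x` for `cls x ≠ cls y`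
(`hΦ.symm`), so the sum is
`∑_{x, y, cls x ≠ cls y} (T_x s x) (T_y s' y) Φ e_x e_y = 0` (ordered pairs; if `cls x ≠ cls y` then
`x ≠ y` and exactly one of `o x < o y`, `o y < o x` holds).
As `ξ = ∑ x, ξ x • e_x`, `Φ ξ η = ∑_{x, y} ξ x η y Φ e_x e_y`. With `ξ = row T j0 s`, `η = row T j0 s'`:
`0 = Φ ξ η` (`hΦ.left`, `vs v ξ = psi v T s j0 = 0`), and `Φ ξ η` is the sum over the pairs with
`cls x ≠ cls y` (zero) plus the sum over the pairs with `cls x = cls y`, which is
`∑ P, Φ (res cls P ξ) (res cls P η) = Th Φ cls T j0 s s'` (`Th_apply`).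
-/

set_option autoImplicit false

namespace Pool.Agent.QC

variable {k V S n : Type*} [Field k] [AddCommGroup V] [Module k V] [Fintype S]
  [DecidableEq S] [DecidableEq n] [Fintype n] {q : ℕ}

theorem star [CharP k 2] {v : S → V} {cls : S → n} (hy : Hyp k v cls q)
    {Φ δ : (S → k) →ₗ[k] (S → k) →ₗ[k] k} {j0 : Fin q} (hΦ : HPhi v cls Φ)
    (hc : HCls v Φ δ j0) {T : S → Fin q → k} (hG : Good v cls T) {s s' : S → k}
    (hs : psi v T s = 0) (hs' : psi v T s' = 0) : Th Φ cls T j0 s s' = 0 := by
  classical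
  obtain ⟨x0⟩ := hy.nonempty
  obtain ⟨y0, hxy0⟩ := hy.ne x0
  obtain ⟨β, hβ⟩ := (hy.st y0 x0).1 hxy0
  obtain ⟨E⟩ := exists_E hβ
  let o : S → ℕ := fun x => (Fintype.equivFin S x : ℕ)
  have ho : Function.Injective o := fun a b h => (Fintype.equivFin S).injective (Fin.ext h)
  have hd : DD v E y0 x0 T ≠ 0 := (DD_ne v E y0 x0 T).2 (xi_bij hy hG hxy0)
  have hf := fzero hy hc E o ho T
  let p : S → S → k := fun x y => Φ (Pi.single x 1) (Pi.single y 1)
  have hp : ∀ x y, p x y = Φ (Pi.single x 1) (Pi.single y 1) := fun _ _ => rfl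
  have h1 : ∑ x, ∑ y, (if o x < o y ∧ cls x ≠ cls y then
      p x y * (T x j0 * T y j0 * (s x * s' y + s y * s' x)) else 0) = 0 := by
    have h2 : DD v E y0 x0 T * ∑ x, ∑ y, (if o x < o y ∧ cls x ≠ cls y then
        p x y * (T x j0 * T y j0 * (s x * s' y + s y * s' x)) else 0) =
        (s y0 * s' x0 - s x0 * s' y0) * ∑ x, ∑ y, (if o x < o y ∧ cls x ≠ cls y then
          Φ (Pi.single x 1) (Pi.single y 1) * (T x j0 * T y j0 * DD v E x y T) else 0) := by
      rw [Finset.mul_sum, Finset.mul_sum]
      refine Finset.sum_congr rfl fun x _ => ?_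
      rw [Finset.mul_sum, Finset.mul_sum]
      refine Finset.sum_congr rfl fun y _ => ?_
      by_cases h : o x < o y ∧ cls x ≠ cls y
      · rw [if_pos h, if_pos h, hp]
        have hk := kermin v E x y y0 x0 T s s' hs hs'
        rw [CharTwo.sub_eq_add (s x * s' y)] at hk
        linear_combination (-(Φ (Pi.single x 1) (Pi.single y 1) * (T x j0 * T y j0))) * hk
      · rw [if_neg h, if_neg h, mul_zero, mul_zero]
    rw [hf, mul_zero] at h2
    exact (mul_eq_zero.1 h2).resolve_left hd
  let B : S → S → k := fun x y =>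
    if cls x ≠ cls y then p x y * ((T x j0 * s x) * (T y j0 * s' y)) else 0
  have hB : ∑ x, ∑ y, B x y = 0 := by
    have e2 : ∑ x, ∑ y, (if o x < o y then B x y else 0) +
        ∑ y, ∑ x, (if o x < o y then B y x else 0) = ∑ x, ∑ y, B x y := by
      rw [← Finset.sum_add_distrib]
      refine Finset.sum_congr rfl fun x _ => ?_
      rw [← Finset.sum_add_distrib]
      refine Finset.sum_congr rfl fun y _ => ?_
      rcases lt_trichotomy (o x) (o y) with h | h | h
      · rw [if_pos h, if_neg (by omega), add_zero]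
      · have hxy' : x = y := ho h
        subst hxy'
        rw [if_neg (by omega), add_zero]
        simp only [B]
        rw [if_neg (fun h => h rfl)]
      · rw [if_neg (by omega), if_pos h, zero_add]
    rw [← e2, Finset.sum_comm (f := fun y x => if o x < o y then B y x else 0),
      ← Finset.sum_add_distrib]
    refine Eq.trans ?_ h1
    refine Finset.sum_congr rfl fun x _ => ?_
    rw [← Finset.sum_add_distrib]
    refine Finset.sum_congr rfl fun y _ => ?_
    by_cases h0 : o x < o y
    · by_cases h2 : cls x ≠ cls y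
      · rw [if_pos h0, if_pos h0, if_pos ⟨h0, h2⟩]
        simp only [B]
        rw [if_pos h2, if_pos (Ne.symm h2), hp, hp, hΦ.symm x y h2]
        ring
      · have hn : ¬ (o x < o y ∧ cls x ≠ cls y) := fun h => h2 h.2
        rw [if_pos h0, if_pos h0, if_neg hn]
        simp only [B]
        rw [if_neg h2, if_neg (fun h => h2 (Ne.symm h)), add_zero]
    · have hn : ¬ (o x < o y ∧ cls x ≠ cls y) := fun h => h0 h.1
      rw [if_neg h0, if_neg h0, if_neg hn, add_zero]
  have htot : ∑ x, ∑ y, p x y * ((T x j0 * s x) * (T y j0 * s' y)) = 0 := by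
    have hz : Φ (row T j0 s) (row T j0 s') = 0 := by
      apply hΦ.left
      have h := congrFun hs j0
      rw [psi_apply] at h
      exact h
    rw [bil_sum] at hz
    exact hz
  rw [Th_apply]
  have e3 : ∀ P, Φ (res cls P (row T j0 s)) (res cls P (row T j0 s')) =
      ∑ x, ∑ y, (if cls x = P ∧ cls y = P then
        p x y * ((T x j0 * s x) * (T y j0 * s' y)) else 0) := by
    intro P
    rw [bil_sum]
    refine Finset.sum_congr rfl fun x _ => Finset.sum_congr rfl fun y _ => ?_
    simp only [res_apply, row_apply]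
    by_cases h1 : cls x = P <;> by_cases h2 : cls y = P <;> simp [h1, h2, hp]
  simp only [e3]
  rw [Finset.sum_comm]
  have e4 : ∀ x, ∑ P, ∑ y, (if cls x = P ∧ cls y = P then
      p x y * ((T x j0 * s x) * (T y j0 * s' y)) else 0) =
      ∑ y, (if cls x = cls y then p x y * ((T x j0 * s x) * (T y j0 * s' y)) else 0) := by
    intro x
    rw [Finset.sum_comm]
    refine Finset.sum_congr rfl fun y _ => ?_
    rw [Finset.sum_eq_single (cls x)]
    · by_cases h : cls x = cls y
      · rw [if_pos ⟨rfl, h.symm⟩, if_pos h]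
      · rw [if_neg (fun h' => h h'.2.symm), if_neg h]
    · intro P _ hP
      rw [if_neg (fun h' => hP h'.1.symm)]
    · intro h
      exact absurd (Finset.mem_univ _) h
  simp only [e4]
  have e5 : ∑ x, ∑ y, (if cls x = cls y then
      p x y * ((T x j0 * s x) * (T y j0 * s' y)) else 0) + ∑ x, ∑ y, B x y =
      ∑ x, ∑ y, p x y * ((T x j0 * s x) * (T y j0 * s' y)) := by
    rw [← Finset.sum_add_distrib]
    refine Finset.sum_congr rfl fun x _ => ?_
    rw [← Finset.sum_add_distrib]
    refine Finset.sum_congr rfl fun y _ => ?_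
    by_cases h : cls x = cls y
    · simp only [B]
      rw [if_pos h, if_neg (fun h' => h' h), add_zero]
    · simp only [B]
      rw [if_neg h, if_pos h, zero_add]
  rw [hB, htot, add_zero] at e5
  exact e5

end Pool.Agent.QC
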