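import Pool.Agent.QC.XiB
import Pool.Agent.QC.KerMin
import Pool.Agent.QC.FZero

/-!
The kernel of `psi v T` for good `T`.

Proofs.
* `xi_bij`: `Xi v x y T` is injective (`Good`), and `exists_E` (a state exists by `hy.st`) gives
  `finrank (k × k × (Fin q → V)) = finrank (S → k)`, so it is bijective
  (`LinearMap.injective_iff_surjective_of_finrank_eq_finrank`).
* `psi_surj`: take `x` (`hy.nonempty`), `y` with `cls y ≠ cls x` and the preimage of `(0, 0, u)`.
* `good_exists`: the preimage of `(a, b, 0)`.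
* `good_prop`: `kermin` for `x, y` and some `x0, y0` in different classes; `DD v E x y T = 0`
  (`DD_eq_zero`; any `j0`, there is one because otherwise .. `q = 0` is excluded by `j0`) and
  `DD v E x0 y0 T ≠ 0` (`DD_ne`, `xi_bij`).
-/

set_option autoImplicit false

namespace Pool.Agent.QC

variable {k V S n : Type*} [Field k] [AddCommGroup V] [Module k V] [Fintype S]
  [DecidableEq S] [DecidableEq n] {q : ℕ}

theorem xi_bij {v : S → V} {cls : S → n} (hy : Hyp k v cls q) {T : S → Fin q → k}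
    (hG : Good v cls T) {x y : S} (h : cls x ≠ cls y) :
    Function.Bijective (Xi v x y T) := by
  obtain ⟨β, hβ⟩ := (hy.st x y).1 h
  obtain ⟨E⟩ := exists_E hβ
  have hinj := hG.2 x y h
  have hinj' : Function.Injective (E.toLinearMap ∘ₗ Xi v x y T) := by
    intro a b hab
    apply hinj
    apply E.injective
    simpa using hab
  have hsur' : Function.Surjective (E.toLinearMap ∘ₗ Xi v x y T) :=
    LinearMap.injective_iff_surjective.1 hinj'
  refine ⟨hinj, fun w => ?_⟩
  obtain ⟨a, ha⟩ := hsur' (E w)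
  refine ⟨a, E.injective ?_⟩
  simpa using ha

theorem psi_surj {v : S → V} {cls : S → n} (hy : Hyp k v cls q) {T : S → Fin q → k}
    (hG : Good v cls T) : Function.Surjective (psi v T) := by
  intro u
  obtain ⟨x⟩ := hy.nonempty
  obtain ⟨y, hxy⟩ := hy.ne x
  obtain ⟨σ, hσ⟩ := (xi_bij hy hG (Ne.symm hxy)).2 (0, 0, u)
  rw [Xi_apply] at hσ
  exact ⟨σ, (Prod.ext_iff.1 (Prod.ext_iff.1 hσ).2).2⟩

theorem good_exists {v : S → V} {cls : S → n} (hy : Hyp k v cls q) {T : S → Fin q → k}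
    (hG : Good v cls T) {x y : S} (h : cls x ≠ cls y) (a b : k) :
    ∃ σ, psi v T σ = 0 ∧ σ x = a ∧ σ y = b := by
  obtain ⟨σ, hσ⟩ := (xi_bij hy hG h).2 (a, b, 0)
  rw [Xi_apply] at hσ
  exact ⟨σ, (Prod.ext_iff.1 (Prod.ext_iff.1 hσ).2).2, (Prod.ext_iff.1 hσ).1,
    (Prod.ext_iff.1 (Prod.ext_iff.1 hσ).2).1⟩

theorem good_unique {v : S → V} {cls : S → n} {T : S → Fin q → k}
    (hG : Good v cls T) {x y : S} (h : cls x ≠ cls y) {σ σ' : S → k} (hσ : psi v T σ = 0)
    (hσ' : psi v T σ' = 0) (hx : σ x = σ' x) (hy : σ y = σ' y) : σ = σ' := by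
  apply hG.2 x y h
  rw [Xi_apply, Xi_apply, hx, hy, hσ, hσ']

theorem good_prop {v : S → V} {cls : S → n} (hy : Hyp k v cls q) (j0 : Fin q)
    {T : S → Fin q → k} (hG : Good v cls T) {x y : S} (h : cls x = cls y) {s s' : S → k}
    (hs : psi v T s = 0) (hs' : psi v T s' = 0) : s x * s' y = s y * s' x := by
  obtain ⟨z, hz⟩ := hy.ne x
  obtain ⟨β, hβ⟩ := (hy.st z x).1 hz
  obtain ⟨E⟩ := exists_E hβ
  have h1 := kermin v E x y z x T s s' hs hs'
  rw [DD_eq_zero hy E j0 h T (fun w => hG.1 w j0), zero_mul] at h1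
  have h2 : DD v E z x T ≠ 0 := (DD_ne v E z x T).2 (xi_bij hy hG hz)
  have h3 : s x * s' y - s y * s' x = 0 := by
    rcases mul_eq_zero.1 h1.symm with h | h
    · exact absurd h h2
    · exact h
  exact sub_eq_zero.1 h3

end Pool.Agent.QC
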