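import Pool.Agent.QC.Defs

/-!
The map `Xi` for the coefficients `Tb k β` is bijective iff `β` is a state.

Note: `psi v (Tb k β) σ j = ∑ z, (if β z = j then σ z else 0) • v z` (`psi_eq_sum`, `Tb_apply`).

Proofs. Let `B j = {z | z ≠ x ∧ z ≠ y ∧ β z = j}`.
* `xi_Tb_bij`, `→`: `x ≠ y` because some `σ` has `σ x = 1`, `σ y = 0` (surjectivity). Independence of `B j`:
  (`linearIndepOn_iff'` / `linearIndependent_iff'`): if `∑ z ∈ B j, a z • v z = 0` then `σ = a` on `B j`
  and zero elsewhere is mapped to zero by `Xi` (for `i ≠ j` the component is zero as `β z = j ≠ i` on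
  the support), so `a = 0`. Span: for `u : V` there is `σ` with `Xi σ = (0, 0, Pi.single j u)`; the
  component `j` says `u = ∑ z with β z = j, σ z • v z`, and `σ x = σ y = 0`.
* `←`: injective: `Xi σ = 0` gives `σ x = σ y = 0` and `∑ z ∈ B j, σ z • v z = 0` for all `j`, so `σ = 0` on
  every `B j`, and every `z ≠ x, y` is in `B (β z)`. Surjective: let `(a, b, u)` be given. For each `j`,
  `u j - (the contribution of x and y) ∈ span (v '' B j)`, so it is `∑ z ∈ B j, c j z • v z`
  (`Finsupp.mem_span_image_iff_linearCombination` or `mem_span_image_finset_iff_exists_fun`); let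
  `σ x = a`, `σ y = b`, `σ z = c (β z) z` for the others.
* `DD_ne`: `LinearMap.det f ≠ 0` iff `f` is bijective (`LinearMap.isUnit_iff_isUnit_det`,
  `Module.End.isUnit_iff`; `LinearMap.equivOfDetNeZero`), and `E` is bijective.
* `exists_E`: the inverse of `LinearEquiv.ofBijective _ ((xi_Tb_bij ..).2 h)`.
-/

set_option autoImplicit false

namespace Pool.Agent.QC

variable {k V S : Type*} [Field k] [AddCommGroup V] [Module k V] [Fintype S]
  [DecidableEq S] {q : ℕ}

/-- The elements of colour `j` different from `x` and `y`. -/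
def BB (x y : S) (β : S → Fin q) (j : Fin q) : Finset S :=
  Finset.univ.filter (fun z => z ≠ x ∧ z ≠ y ∧ β z = j)

theorem mem_BB (x y : S) (β : S → Fin q) (j : Fin q) (z : S) :
    z ∈ BB x y β j ↔ z ≠ x ∧ z ≠ y ∧ β z = j := by
  simp [BB]

theorem coe_BB (x y : S) (β : S → Fin q) (j : Fin q) :
    ({z | z ≠ x ∧ z ≠ y ∧ β z = j} : Set S) = ↑(BB x y β j) := by
  ext z
  simp [mem_BB]

theorem isSt_iff (v : S → V) (x y : S) (β : S → Fin q) :
    IsSt k v x y β ↔ x ≠ y ∧ ∀ j,
      (∀ f : S → k, ∑ z ∈ BB x y β j, f z • v z = 0 → ∀ z ∈ BB x y β j, f z = 0) ∧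
      ∀ u : V, ∃ c : S → k, ∑ z ∈ BB x y β j, c z • v z = u := by
  unfold IsSt
  refine and_congr Iff.rfl (forall_congr' fun j => ?_)
  rw [coe_BB, linearIndepOn_finset_iff, Submodule.eq_top_iff']
  refine and_congr Iff.rfl (forall_congr' fun u => ?_)
  exact Submodule.mem_span_image_finset_iff_exists_fun' k

theorem psi_split (v : S → V) {x y : S} (hxy : x ≠ y) (β : S → Fin q) (σ : S → k)
    (j : Fin q) : psi v (Tb k β) σ j =
      (if β x = j then σ x else 0) • v x + (if β y = j then σ y else 0) • v y +
        ∑ z ∈ BB x y β j, σ z • v z := by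
  have h1 : ∀ z, (Tb k β z j * σ z) • v z =
      ((if z = x then (if β x = j then σ x else 0) • v x else 0) +
        (if z = y then (if β y = j then σ y else 0) • v y else 0)) +
        (if (z ≠ x ∧ z ≠ y ∧ β z = j) then σ z • v z else 0) := by
    intro z
    rw [Tb_apply]
    by_cases hx : z = x
    · subst hx
      simp [hxy]
    · by_cases hy : z = y
      · subst hy
        simp [hx]
      · by_cases hj : β z = j
        · simp [hx, hy, hj]
        · simp [hx, hy, hj]
  rw [psi_eq_sum, Finset.sum_congr rfl (fun z _ => h1 z), Finset.sum_add_distrib,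
    Finset.sum_add_distrib]
  congr 1
  · congr 1
    · rw [Finset.sum_ite_eq']
      simp
    · rw [Finset.sum_ite_eq']
      simp
  · rw [BB, Finset.sum_filter]

theorem xi_Tb_bij (v : S → V) (x y : S) (β : S → Fin q) :
    Function.Bijective (Xi v x y (Tb k β)) ↔ IsSt k v x y β := by
  rw [isSt_iff]
  constructor
  · rintro ⟨hinj, hsur⟩
    have hxy : x ≠ y := by
      intro h
      obtain ⟨σ, hσ⟩ := hsur (1, 0, 0)
      rw [Xi_apply] at hσ
      have h1 : σ x = 1 := congrArg Prod.fst hσ
      have h2 : σ y = 0 := congrArg (fun p => p.2.1) hσ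
      rw [h, h2] at h1
      exact zero_ne_one h1
    refine ⟨hxy, fun j => ⟨fun f hf z hz => ?_, fun u => ?_⟩⟩
    · set σ : S → k := fun w => if w ∈ BB x y β j then f w else 0 with hσ
      have hσx : σ x = 0 := by
        simp [hσ, mem_BB]
      have hσy : σ y = 0 := by
        simp [hσ, mem_BB]
      have h0 : Xi v x y (Tb k β) σ = 0 := by
        rw [Xi_apply]
        refine Prod.ext hσx (Prod.ext hσy (funext fun i => ?_))
        change psi v (Tb k β) σ i = 0
        rw [psi_split v hxy, hσx, hσy]
        simp only [ite_self, zero_smul, zero_add]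
        by_cases hij : i = j
        · subst hij
          rw [← hf]
          refine Finset.sum_congr rfl fun w hw => ?_
          simp [hσ, hw]
        · refine Finset.sum_eq_zero fun w hw => ?_
          have : w ∉ BB x y β j := by
            intro hw'
            rw [mem_BB] at hw hw'
            exact hij (hw.2.2.symm.trans hw'.2.2)
          simp [hσ, this]
      have h1 : σ = 0 := hinj (by rw [h0, map_zero])
      have h2 := congrFun h1 z
      simpa [hσ, hz] using h2
    · obtain ⟨σ, hσ⟩ := hsur (0, 0, Pi.single j u)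
      rw [Xi_apply] at hσ
      have h1 : σ x = 0 := congrArg Prod.fst hσ
      have h2 : σ y = 0 := congrArg (fun p => p.2.1) hσ
      have h3 : psi v (Tb k β) σ j = u := by
        have := congrArg (fun p => p.2.2 j) hσ
        simpa using this
      refine ⟨σ, ?_⟩
      rw [psi_split v hxy, h1, h2] at h3
      simpa using h3
  · rintro ⟨hxy, hst⟩
    constructor
    · rw [injective_iff_map_eq_zero]
      intro σ hσ
      rw [Xi_apply] at hσ
      have h1 : σ x = 0 := congrArg Prod.fst hσ
      have h2 : σ y = 0 := congrArg (fun p => p.2.1) hσ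
      have h3 : ∀ j, psi v (Tb k β) σ j = 0 := fun j =>
        congrArg (fun p => p.2.2 j) hσ
      funext z
      by_cases hx : z = x
      · rw [hx, h1]; rfl
      · by_cases hy : z = y
        · rw [hy, h2]; rfl
        · have h4 := h3 (β z)
          rw [psi_split v hxy, h1, h2] at h4
          have h5 : ∑ w ∈ BB x y β (β z), σ w • v w = 0 := by simpa using h4
          exact (hst (β z)).1 σ h5 z ((mem_BB x y β (β z) z).2 ⟨hx, hy, rfl⟩)
    · rintro ⟨a, b, u⟩
      have hc : ∀ j, ∃ c : S → k, ∑ z ∈ BB x y β j, c z • v z =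
          u j - ((if β x = j then a else 0) • v x + (if β y = j then b else 0) • v y) :=
        fun j => (hst j).2 _
      choose c hc using hc
      set σ : S → k := fun z => if z = x then a else if z = y then b else c (β z) z with hσ
      have h1 : σ x = a := by simp [hσ]
      have h2 : σ y = b := by simp [hσ, hxy.symm]
      refine ⟨σ, ?_⟩
      rw [Xi_apply]
      refine Prod.ext h1 (Prod.ext h2 (funext fun j => ?_))
      change psi v (Tb k β) σ j = u j
      rw [psi_split v hxy, h1, h2]
      have h3 : ∑ z ∈ BB x y β j, σ z • v z = ∑ z ∈ BB x y β j, c j z • v z := by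
        refine Finset.sum_congr rfl fun z hz => ?_
        rw [mem_BB] at hz
        simp [hσ, hz.1, hz.2.1, hz.2.2]
      rw [h3, hc j]
      abel

theorem DD_ne (v : S → V) (E : (k × k × (Fin q → V)) ≃ₗ[k] (S → k)) (x y : S)
    (T : S → Fin q → k) : DD v E x y T ≠ 0 ↔ Function.Bijective (Xi v x y T) := by
  unfold DD
  rw [← isUnit_iff_ne_zero, ← LinearMap.isUnit_iff_isUnit_det, Module.End.isUnit_iff]
  have : (⇑(E.toLinearMap ∘ₗ Xi v x y T)) = ⇑E ∘ ⇑(Xi v x y T) := rfl
  rw [this]
  exact Function.Bijective.of_comp_iff' E.bijective _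

theorem exists_E {v : S → V} {x y : S} {β : S → Fin q} (h : IsSt k v x y β) :
    Nonempty ((k × k × (Fin q → V)) ≃ₗ[k] (S → k)) :=
  ⟨(LinearEquiv.ofBijective _ ((xi_Tb_bij v x y β).2 h)).symm⟩

end Pool.Agent.QC
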